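import Mathlib
import Pool.Agent.K6.H71.PG.Abs

/-!
# Invariant classes killed by an endomorphism, and normal subgroups of index `p`

`G` is a group which acts on the abelian group `A` by `a`, `lam` is an endomorphism of `A` which commutes
with the action, `N` is a normal subgroup (the geometric Galois group), `U' ≤ U` are subgroups, `U'` is
normal in `U`. We consider cocycles of `U ∩ N` (and `U' ∩ N`) with values in the kernel of `lam`, whose
classes are fixed by `U` (by `U'`).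
-/

set_option autoImplicit false

open scoped Classical
open Polynomial

namespace Pool.Agent.K6.H71.PS

open Pool.Agent.K6.H71.PG (IsAct conj_N sh)

section nilp

/-- `(1 - X) ^ p` modulo `p` and `1 - X ^ p`. -/
theorem exists_W {p : ℕ} (hp : p.Prime) : ∃ W : ℤ[X],
    (1 - X) ^ p = (p : ℤ[X]) * W + (1 - X ^ p) := by
  haveI := Fact.mk hp
  set φ := Polynomial.mapRingHom (Int.castRingHom (ZMod p)) with hφ
  have hX : φ X = X := by rw [hφ, coe_mapRingHom, map_X]
  have h5 : φ ((1 - X) ^ p - (1 - X ^ p)) = 0 := by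
    rw [map_sub, map_pow, map_sub, map_sub, map_pow, map_one, hX, sub_pow_char, one_pow, sub_self]
  have h6 : C ((p : ℤ)) ∣ ((1 : ℤ[X]) - X) ^ p - (1 - X ^ p) := by
    rw [C_dvd_iff_dvd_coeff]
    intro i
    have h7 := congrArg (fun q => q.coeff i) h5
    simp only [hφ, coe_mapRingHom, coeff_map, coeff_zero] at h7
    exact (ZMod.intCast_zmod_eq_zero_iff_dvd _ _).1 h7
  obtain ⟨W, hW⟩ := h6
  have h9 : (C (p : ℤ) : ℤ[X]) = (p : ℤ[X]) := by simp
  refine ⟨W, ?_⟩
  rw [← h9]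
  linear_combination hW

variable {T : Type*} [AddCommGroup T]

theorem zpoly_mem (S : AddMonoid.End T) {Z : AddSubgroup T} (hS : ∀ f ∈ Z, S f ∈ Z) (P : ℤ[X]) :
    ∀ f ∈ Z, (aeval S P : AddMonoid.End T) f ∈ Z := by
  induction P using Polynomial.induction_on' with
  | add P Q hP hQ =>
    intro f hf
    rw [map_add]
    exact Z.add_mem (hP f hf) (hQ f hf)
  | monomial n c =>
    intro f hf
    rw [aeval_monomial]
    show (algebraMap ℤ (AddMonoid.End T) c) ((S ^ n) f) ∈ Z
    have h1 : ∀ n : ℕ, (S ^ n) f ∈ Z := by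
      intro n
      induction n with
      | zero => exact hf
      | succ n ih =>
        rw [pow_succ']
        exact hS _ ih
    have h3 : (algebraMap ℤ (AddMonoid.End T) c) ((S ^ n) f) = c • (S ^ n) f := by
      rw [Algebra.algebraMap_eq_smul_one]
      rfl
    rw [h3]
    exact Z.zsmul_mem (h1 n) c

/-- An automorphism of order `p` modulo `Z`, without fixed elements modulo `Z`, of a group which is a
`p`-group modulo `Z`. -/
theorem nilp (S : AddMonoid.End T) (Z : AddSubgroup T) {p M : ℕ} (hp : p.Prime)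
    (h1 : ∀ f, (S ^ p) f - f ∈ Z) (hS : ∀ f ∈ Z, S f ∈ Z) (h2 : ∀ f, p ^ M • f ∈ Z)
    (h3 : ∀ f, S f - f ∈ Z → f ∈ Z) (f : T) : f ∈ Z := by
  obtain ⟨W, hW⟩ := exists_W hp
  set D : AddMonoid.End T := 1 - S with hD
  have e1 : D ^ p = (p : AddMonoid.End T) * aeval S W + (1 - S ^ p) := by
    have h5 := congrArg (aeval S : ℤ[X] → AddMonoid.End T) hW
    simpa using h5
  have hDZ : ∀ f ∈ Z, D f ∈ Z := fun f hf => Z.sub_mem hf (hS f hf)
  have hDZ' : ∀ n : ℕ, ∀ f ∈ Z, (D ^ n) f ∈ Z := by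
    intro n
    induction n with
    | zero => intro f hf; exact hf
    | succ n ih =>
      intro f hf
      rw [pow_succ]
      exact ih _ (hDZ f hf)
  -- modulo `Z`, the power `p j` is divisible by `p ^ j`
  have key : ∀ j : ℕ, ∀ f, ∃ y, ∃ z ∈ Z, (D ^ (p * j)) f = p ^ j • y + z := by
    intro j
    induction j with
    | zero =>
      intro f
      exact ⟨f, 0, Z.zero_mem, by rw [mul_zero, pow_zero, pow_zero, one_smul, add_zero]; rfl⟩
    | succ j ih =>
      intro f
      obtain ⟨y, z, hz, e⟩ := ih f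
      refine ⟨aeval S W y, p ^ j • (y - (S ^ p) y) + (D ^ p) z, ?_, ?_⟩
      · refine Z.add_mem (Z.nsmul_mem ?_ _) (hDZ' p z hz)
        have := Z.neg_mem (h1 y)
        rwa [neg_sub] at this
      · rw [mul_add, mul_one, add_comm (p * j) p, pow_add]
        show (D ^ p) ((D ^ (p * j)) f) = _
        rw [e, map_add, map_nsmul]
        have e3 : (D ^ p) y = p • (aeval S W : AddMonoid.End T) y + (y - (S ^ p) y) := by
          rw [e1]
          show ((p : AddMonoid.End T) * aeval S W) y + (1 - S ^ p : AddMonoid.End T) y = _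
          congr 1
        rw [e3, smul_add, pow_succ, mul_smul]
        abel
  obtain ⟨y, z, hz, e⟩ := key M f
  have h5 : (D ^ (p * M)) f ∈ Z := by
    rw [e]
    exact Z.add_mem (h2 y) hz
  -- descending
  have h6 : ∀ n : ℕ, (D ^ n) f ∈ Z → f ∈ Z := by
    intro n
    induction n with
    | zero => intro h; exact h
    | succ n ih =>
      intro h
      apply ih
      apply h3
      rw [pow_succ'] at h
      have h7 : (D * D ^ n) f = (D ^ n) f - S ((D ^ n) f) := rfl
      rw [h7] at h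
      have := Z.neg_mem h
      rwa [neg_sub] at this
  exact h6 _ h5

end nilp

variable {G A : Type*} [Group G] [AddCommGroup A]

/-- A cocycle of `U ∩ N` with values in the kernel of `lam`, whose class is fixed by `U`. -/
structure Coc (a : G → A →+ A) (lam : A →+ A) (N U : Subgroup G) (f : G → A) : Prop where
  mul : ∀ x ∈ U, x ∈ N → ∀ y ∈ U, y ∈ N → f (x * y) = f x + a x (f y)
  tor : ∀ x ∈ U, x ∈ N → lam (f x) = 0
  inv : ∀ t ∈ U, ∃ Q, lam Q = 0 ∧ ∀ x ∈ U, x ∈ N → a t (f (t⁻¹ * x * t)) - f x = a x Q - Q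

/-- There are no elements of the kernel of `lam` which are fixed by `U ∩ N`. -/
def NT (a : G → A →+ A) (lam : A →+ A) (N U : Subgroup G) : Prop :=
  ∀ Q, lam Q = 0 → (∀ x ∈ U, x ∈ N → a x Q = Q) → Q = 0

/-- `U'` is normal in `U`, and of index `p` or `1`. -/
structure Step (p : ℕ) (U U' : Subgroup G) : Prop where
  le : U' ≤ U
  normal : ∀ t ∈ U, ∀ x ∈ U', t⁻¹ * x * t ∈ U'
  pow : ∀ s ∈ U, s ^ p ∈ U'
  gen : ∀ s ∈ U, s ∉ U' → ∀ t ∈ U, ∃ i : ℕ, ∃ u ∈ U', t = s ^ i * u

section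

variable {a : G → A →+ A} {lam : A →+ A} {N U U' : Subgroup G}

theorem NT.uniq (h : NT a lam N U) {Q Q' : A} (hQ : lam Q = 0) (hQ' : lam Q' = 0)
    (hh : ∀ x ∈ U, x ∈ N → a x Q - Q = a x Q' - Q') : Q = Q' := by
  rw [← sub_eq_zero]
  refine h _ (by rw [map_sub, hQ, hQ', sub_zero]) fun x hx hxN => ?_
  have h1 := hh x hx hxN
  rw [map_sub]
  rw [← sub_eq_zero] at h1 ⊢
  rw [← h1]
  abel

theorem Coc.one {f : G → A} (hf : Coc a lam N U f) (ha : IsAct a) : f 1 = 0 := by
  have h := hf.mul 1 U.one_mem N.one_mem 1 U.one_mem N.one_mem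
  rw [mul_one, ha.one] at h
  exact left_eq_add.1 h

/-- Inner automorphisms. -/
theorem Coc.inner (hN : N.Normal) {f : G → A} (hf : Coc a lam N U f) {u x : G} (hu : u ∈ U)
    (huN : u ∈ N) (hx : x ∈ U) (hxN : x ∈ N) : a u (f (u⁻¹ * x * u)) - f x = a x (f u) - f u := by
  have hc : u⁻¹ * x * u ∈ U := U.mul_mem (U.mul_mem (U.inv_mem hu) hx) hu
  have h1 := hf.mul u hu huN _ hc (conj_N hN hxN)
  have h3 := hf.mul x hx hxN u hu huN
  have e : u * (u⁻¹ * x * u) = x * u := by group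
  rw [e, h3] at h1
  have h4 : a u (f (u⁻¹ * x * u)) = f x + a x (f u) - f u := by
    rw [h1]
    abel
  rw [h4]
  abel

/-- The class of `g` (over `U'`) is fixed by `t`, by means of `Q`. -/
def Rel (a : G → A →+ A) (lam : A →+ A) (N U' : Subgroup G) (g : G → A) (t : G) (Q : A) : Prop :=
  lam Q = 0 ∧ ∀ x ∈ U', x ∈ N → a t (g (t⁻¹ * x * t)) - g x = a x Q - Q

theorem Rel.mul (ha : IsAct a) (hN : N.Normal) (hc : ∀ g Q, lam (a g Q) = a g (lam Q))
    {g : G → A} {s t : G} {Q R : A} (hs : ∀ x ∈ U', s⁻¹ * x * s ∈ U')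
    (h1 : Rel a lam N U' g s Q) (h2 : Rel a lam N U' g t R) :
    Rel a lam N U' g (s * t) (Q + a s R) := by
  refine ⟨by rw [map_add, hc, h1.1, h2.1, map_zero, add_zero], fun x hx hxN => ?_⟩
  have e1 := h1.2 x hx hxN
  have e2 := congrArg (a s) (h2.2 _ (hs x hx) (conj_N hN hxN))
  have e3 : (s * t)⁻¹ * x * (s * t) = t⁻¹ * (s⁻¹ * x * s) * t := by group
  have e4 : s * (s⁻¹ * x * s) = x * s := by group
  rw [map_sub, map_sub, ← ha.mul s t, ← ha.mul s, e4, ha.mul x s] at e2
  rw [e3, map_add]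
  have e5 : a (s * t) (g (t⁻¹ * (s⁻¹ * x * s) * t)) =
      a s (g (s⁻¹ * x * s)) + (a x (a s R) - a s R) := by
    rw [← e2]
    abel
  have e6 : a s (g (s⁻¹ * x * s)) = g x + (a x Q - Q) := by
    rw [← e1]
    abel
  rw [e5, e6]
  abel

/-- The extension of a cocycle of `U' ∩ N` to `U ∩ N`. -/
noncomputable def extn (a : G → A →+ A) (lam : A →+ A) (N U' : Subgroup G) (g : G → A) (t : G) : A :=
  if h : ∃ Q, Rel a lam N U' g t Q then h.choose else 0

theorem ext_spec {g : G → A} {t : G} (h : ∃ Q, Rel a lam N U' g t Q) :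
    Rel a lam N U' g t (extn a lam N U' g t) := by
  unfold extn
  rw [dif_pos h]
  exact h.choose_spec

theorem Rel.uniq (h2 : NT a lam N U') {g : G → A} {t : G} {Q R : A} (hQ : Rel a lam N U' g t Q)
    (hR : Rel a lam N U' g t R) : Q = R :=
  h2.uniq hQ.1 hR.1 fun x hx hxN => by rw [← hQ.2 x hx hxN, ← hR.2 x hx hxN]

theorem ext_eq (h2 : NT a lam N U') {g : G → A} {t : G} {Q : A} (hQ : Rel a lam N U' g t Q) :
    extn a lam N U' g t = Q := (ext_spec ⟨Q, hQ⟩).uniq h2 hQ

theorem ext_mem (hN : N.Normal) (h2 : NT a lam N U') {g : G → A} (hg : Coc a lam N U' g) {x : G}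
    (hx : x ∈ U') (hxN : x ∈ N) : extn a lam N U' g x = g x :=
  ext_eq h2 ⟨hg.tor x hx hxN, fun _ hy hyN => hg.inner hN hx hxN hy hyN⟩

/-- **The extension.** -/
theorem ext_coc (ha : IsAct a) (hN : N.Normal) (hc : ∀ g Q, lam (a g Q) = a g (lam Q))
    (h2 : NT a lam N U') (hn : ∀ t ∈ U, ∀ x ∈ U', t⁻¹ * x * t ∈ U') {g : G → A}
    (hi : ∀ t ∈ U, ∃ Q, Rel a lam N U' g t Q) : Coc a lam N U (extn a lam N U' g) := by
  have hmul : ∀ x ∈ U, ∀ y ∈ U, extn a lam N U' g (x * y) =
      extn a lam N U' g x + a x (extn a lam N U' g y) := fun x hx y hy =>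
    ext_eq h2 (Rel.mul ha hN hc (hn x hx) (ext_spec (hi x hx)) (ext_spec (hi y hy)))
  refine ⟨fun x hx _ y hy _ => hmul x hx y hy, fun x hx _ => (ext_spec (hi x hx)).1,
    fun t ht => ⟨extn a lam N U' g t, (ext_spec (hi t ht)).1, fun x hx _ => ?_⟩⟩
  have hcx : t⁻¹ * x * t ∈ U := U.mul_mem (U.mul_mem (U.inv_mem ht) hx) ht
  have h1 := hmul x hx t ht
  have h3 := hmul t ht _ hcx
  have e : t * (t⁻¹ * x * t) = x * t := by group
  rw [e, h1] at h3
  have h4 : a t (extn a lam N U' g (t⁻¹ * x * t)) =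
      extn a lam N U' g x + a x (extn a lam N U' g t) - extn a lam N U' g t := by
    rw [h3]
    abel
  rw [h4]
  abel

/-- The conjugate cocycle. -/
theorem sh_coc (ha : IsAct a) (hN : N.Normal) (hc : ∀ g Q, lam (a g Q) = a g (lam Q)) {s : G}
    (hs : ∀ x ∈ U', s⁻¹ * x * s ∈ U') {f : G → A} (hf : Coc a lam N U' f) :
    Coc a lam N U' (sh a s f) := by
  refine ⟨fun x hx hxN y hy hyN => ?_, fun x hx hxN => ?_, fun t ht => ?_⟩
  · have e : s⁻¹ * (x * y) * s = (s⁻¹ * x * s) * (s⁻¹ * y * s) := by group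
    have e' : x * s = s * (s⁻¹ * x * s) := by group
    show a s (f _) = a s (f _) + a x (a s (f _))
    rw [e, hf.mul _ (hs x hx) (conj_N hN hxN) _ (hs y hy) (conj_N hN hyN), map_add,
      ← ha.mul x s, e', ha.mul s]
  · show lam (a s _) = 0
    rw [hc, hf.tor _ (hs x hx) (conj_N hN hxN), map_zero]
  · obtain ⟨Q, hQ, h⟩ := hf.inv _ (hs t ht)
    refine ⟨a s Q, by rw [hc, hQ, map_zero], fun x hx hxN => ?_⟩
    have h1 := congrArg (a s) (h _ (hs x hx) (conj_N hN hxN))
    rw [map_sub, map_sub, ← ha.mul, ← ha.mul] at h1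
    have e1 : s * (s⁻¹ * t * s) = t * s := by group
    have e2 : (s⁻¹ * t * s)⁻¹ * (s⁻¹ * x * s) * (s⁻¹ * t * s) = s⁻¹ * (t⁻¹ * x * t) * s := by group
    have e3 : s * (s⁻¹ * x * s) = x * s := by group
    rw [e1, e2, e3, ha.mul, ha.mul] at h1
    exact h1

theorem Coc.add {f g : G → A} (hf : Coc a lam N U f) (hg : Coc a lam N U g) :
    Coc a lam N U (f + g) := by
  refine ⟨fun x hx hxN y hy hyN => ?_, fun x hx hxN => ?_, fun t ht => ?_⟩
  · show f _ + g _ = (f x + g x) + a x (f y + g y)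
    rw [hf.mul x hx hxN y hy hyN, hg.mul x hx hxN y hy hyN, map_add]
    abel
  · show lam (f x + g x) = 0
    rw [map_add, hf.tor x hx hxN, hg.tor x hx hxN, add_zero]
  · obtain ⟨Q, hQ, h⟩ := hf.inv t ht
    obtain ⟨R, hR, h'⟩ := hg.inv t ht
    refine ⟨Q + R, by rw [map_add, hQ, hR, add_zero], fun x hx hxN => ?_⟩
    show a t (f _ + g _) - (f x + g x) = _
    have h1 := h x hx hxN
    have h3 := h' x hx hxN
    rw [map_add, map_add, add_sub_add_comm, h1, h3]
    abel

theorem Coc.neg {f : G → A} (hf : Coc a lam N U f) : Coc a lam N U (-f) := by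
  refine ⟨fun x hx hxN y hy hyN => ?_, fun x hx hxN => ?_, fun t ht => ?_⟩
  · show -f _ = -f x + a x (-f y)
    rw [hf.mul x hx hxN y hy hyN, map_neg]
    abel
  · show lam (-f x) = 0
    rw [map_neg, hf.tor x hx hxN, neg_zero]
  · obtain ⟨Q, hQ, h⟩ := hf.inv t ht
    refine ⟨-Q, by rw [map_neg, hQ, neg_zero], fun x hx hxN => ?_⟩
    show a t (-f _) - (-f x) = _
    have h1 := congrArg Neg.neg (h x hx hxN)
    rw [map_neg, map_neg]
    rw [neg_sub, neg_sub] at h1
    rw [neg_sub_neg, h1]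
    abel

theorem Coc.zero : Coc a lam N U (0 : G → A) := by
  refine ⟨fun x hx hxN y hy hyN => ?_, fun x hx hxN => ?_, fun t ht => ?_⟩
  · show (0 : A) = 0 + a x 0
    rw [map_zero, add_zero]
  · show lam 0 = 0
    rw [map_zero]
  · refine ⟨0, map_zero _, fun x hx hxN => ?_⟩
    show a t 0 - 0 = _
    rw [map_zero, map_zero]

/-- The step for fixed elements. -/
theorem step_nt {p M : ℕ} (hp : p.Prime) (ha : IsAct a) (hN : N.Normal)
    (hc : ∀ g Q, lam (a g Q) = a g (lam Q)) (hM : ∀ Q, lam Q = 0 → p ^ M • Q = 0)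
    (hs : Step p U U') (h : NT a lam N U) : NT a lam N U' := by
  by_cases hgeo : ∃ s ∈ U, s ∈ N ∧ s ∉ U'
  · obtain ⟨s, hsU, hsN, hsU'⟩ := hgeo
    let T : AddSubgroup A :=
      { carrier := {Q | lam Q = 0 ∧ ∀ x ∈ U', x ∈ N → a x Q = Q}
        add_mem' := by
          rintro Q R ⟨h1, h3⟩ ⟨h4, h5⟩
          exact ⟨by rw [map_add, h1, h4, add_zero], fun x hx hxN => by
            rw [map_add, h3 x hx hxN, h5 x hx hxN]⟩
        zero_mem' := ⟨map_zero _, fun x _ _ => map_zero _⟩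
        neg_mem' := by
          rintro Q ⟨h1, h3⟩
          exact ⟨by rw [map_neg, h1, neg_zero], fun x hx hxN => by rw [map_neg, h3 x hx hxN]⟩ }
    have hTs : ∀ Q ∈ T, a s Q ∈ T := by
      rintro Q ⟨h1, h3⟩
      refine ⟨by rw [hc, h1, map_zero], fun x hx hxN => ?_⟩
      have e : x * s = s * (s⁻¹ * x * s) := by group
      rw [← ha.mul, e, ha.mul, h3 _ (hs.normal s hsU x hx) (conj_N hN hxN)]
    let S : AddMonoid.End T :=
      { toFun := fun Q => ⟨a s Q.1, hTs _ Q.2⟩
        map_zero' := Subtype.ext (map_zero _)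
        map_add' := fun Q R => Subtype.ext (map_add _ _ _) }
    have hSp : ∀ (n : ℕ) (Q : T), ((S ^ n) Q).1 = a (s ^ n) Q.1 := by
      intro n
      induction n with
      | zero => intro Q; rw [pow_zero, pow_zero, ha.one]; rfl
      | succ n ih =>
        intro Q
        rw [pow_succ', pow_succ', ha.mul]
        show a s ((S ^ n) Q).1 = _
        rw [ih]
    have key := nilp (T := T) S ⊥ (M := M) hp (fun Q => by
        rw [AddSubgroup.mem_bot, sub_eq_zero]
        apply Subtype.ext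
        rw [hSp]
        exact Q.2.2 _ (hs.pow s hsU) (N.pow_mem hsN p))
      (fun Q hQ => by
        rw [AddSubgroup.mem_bot] at hQ ⊢
        rw [hQ, map_zero])
      (fun Q => by
        rw [AddSubgroup.mem_bot]
        exact Subtype.ext (hM _ Q.2.1))
      (fun Q hQ => by
        rw [AddSubgroup.mem_bot, sub_eq_zero] at hQ
        rw [AddSubgroup.mem_bot]
        apply Subtype.ext
        refine h _ Q.2.1 fun x hx hxN => ?_
        have hsQ : a s Q.1 = Q.1 := congrArg Subtype.val hQ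
        obtain ⟨i, u, hu, rfl⟩ := hs.gen s hsU hsU' x hx
        have huN : u ∈ N := by
          have := N.mul_mem (N.inv_mem (N.pow_mem hsN i)) hxN
          rwa [inv_mul_cancel_left] at this
        rw [ha.mul, Q.2.2 u hu huN]
        clear hxN hx
        induction i with
        | zero => rw [pow_zero, ha.one]
        | succ i ih => rw [pow_succ, ha.mul, hsQ, ih])
    intro Q hQ hf
    have := key ⟨Q, hQ, hf⟩
    rw [AddSubgroup.mem_bot] at this
    exact congrArg Subtype.val this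
  · push Not at hgeo
    exact fun Q hQ hf => h Q hQ fun x hx hxN => hf x (hgeo x hx hxN) hxN

end

end Pool.Agent.K6.H71.PS
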