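import Pool.Agent.Y160.SQ.All
import Pool.Agent.K6.H71.PG.Cst
import Pool.Agent.K6.H71.PS.Abs

/-!
# Invariant Selmer classes of the Jacobian of `w ^ ℓ = f(x)` killed by `1 - σ`, and steps of degree `p`

`U` is a subgroup of `Gal(Sep F / K)` (the Galois group of a finite extension `L` of `K`); the geometric
Galois group `Gal(Sep F / F L)` is the intersection of `U` with the image of `Gal(Sep F / F)`. `V` is a set
of places of `F`.
-/

set_option autoImplicit false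
set_option linter.all false

open Polynomial IsDedekindDomain
open scoped Classical

namespace Pool.Agent.K6.H71.PS

open Pool.Agent.TH115.GD (incl rs ak Sep Comp Preserves exists_conj)
open Pool.Agent.K6.H71.PG (IsAct conj_N sh rK rK_apply rK_inj NK rK_mem mem_NK_iff nk_normal Stable
  conj_loc conj_open)
open Pool.Agent.Y160.SQ

section act

variable (ℓ : ℕ) {K F : Type} [Field K] [Field F] [Algebra K F] (f : K[X])

/-- The action of `Gal(Sep F / K)` on `J(Sep F)`. -/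
noncomputable def aj (τ : Sep F ≃ₐ[K] Sep F) : Jac ℓ f (Sep F) →+ Jac ℓ f (Sep F) := jm ℓ f (ak τ)

theorem aj_rK (σ : Sep F ≃ₐ[F] Sep F) : aj ℓ f (rK K F σ) = jm ℓ f (rs K σ) := rfl

theorem aj_isAct : IsAct (aj (F := F) ℓ f) := by
  refine ⟨fun x y P => ?_, fun P => ?_⟩
  · unfold aj
    rw [jm_jm]
    rfl
  · unfold aj
    have e : ak (1 : Sep F ≃ₐ[K] Sep F) = AlgHom.id K (Sep F) := AlgHom.ext fun x => rfl
    rw [e, jm_id]

variable {ℓ f} {ζ : K} (hg : Good ℓ ζ f)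

/-- The endomorphism `1 - σ`. -/
noncomputable def lm (F : Type) [Field F] [Algebra K F] (hg : Good ℓ ζ f) :
    Jac ℓ f (Sep F) →+ Jac ℓ f (Sep F) := pe hg (Sep F) (1 - X)

theorem lm_iff {x : Jac ℓ f (Sep F)} : lm F hg x = 0 ↔ Tor hg x := Iff.rfl

theorem lm_comm (τ : Sep F ≃ₐ[K] Sep F) (x : Jac ℓ f (Sep F)) :
    lm F hg (aj ℓ f τ x) = aj ℓ f τ (lm F hg x) := by
  exact (jm_pe hg (ak τ) (1 - X) x).symm

theorem lm_tors {p m : ℕ} (hpm : ℓ = p ^ m) (x : Jac ℓ f (Sep F)) (hx : lm F hg x = 0) :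
    p ^ m • x = 0 := by
  have h1 := uu_mul hyps hg x
  have h3 : pe hg (Sep F) (1 - X) x = 0 := hx
  rw [h3, map_zero] at h1
  rw [← hpm]
  exact h1.symm

end act

section cls

variable {k' K F : Type} [Field k'] [Field K] [Field F] [Algebra K F] [Algebra k'[X] F]
  [IsFractionRing k'[X] F] {ℓ : ℕ} {f : K[X]} {ζ : K} (hg : Good ℓ ζ f)

/-- Invariant classes killed by `1 - σ` which are locally trivial at the places in `V`. -/
structure Cls (hg : Good ℓ ζ f) (V : Set (HeightOneSpectrum k'[X]))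
    (U : Subgroup (Sep F ≃ₐ[K] Sep F)) (c : (Sep F ≃ₐ[K] Sep F) → Jac ℓ f (Sep F)) : Prop where
  coc : Coc (aj ℓ f) (lm F hg) (NK K F) U c
  cont : ∃ O : Set (Sep F ≃ₐ[F] Sep F), IsOpen O ∧ 1 ∈ O ∧
    ∀ τ ∈ O, rK K F τ ∈ U → c (rK K F τ) = 0
  loc : ∀ v ∈ V, ∀ ι : Sep F →ₐ[F] Sep (Comp k'[X] F v),
    ∃ P : Jac ℓ f (Sep (Comp k'[X] F v)),
    ∀ (τ : Sep (Comp k'[X] F v) ≃ₐ[Comp k'[X] F v] Sep (Comp k'[X] F v)) (σ : Sep F ≃ₐ[F] Sep F),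
      rK K F σ ∈ U → (∀ x, τ (ι x) = ι (σ x)) →
        jm ℓ f (ι.restrictScalars K) (c (rK K F σ)) = jm ℓ f (rs K τ) P - P

/-- All the classes over the field of `U` are trivial. -/
def Triv (hg : Good ℓ ζ f) (V : Set (HeightOneSpectrum k'[X]))
    (U : Subgroup (Sep F ≃ₐ[K] Sep F)) : Prop :=
  ∀ c, Cls hg V U c → ∃ Q, lm F hg Q = 0 ∧ ∀ x ∈ U, x ∈ NK K F → c x = aj ℓ f x Q - Q

variable {hg} {V : Set (HeightOneSpectrum k'[X])} {U U' : Subgroup (Sep F ≃ₐ[K] Sep F)}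

theorem Cls.add {c d : (Sep F ≃ₐ[K] Sep F) → Jac ℓ f (Sep F)} (hc : Cls hg V U c)
    (hd : Cls hg V U d) : Cls hg V U (c + d) := by
  refine ⟨hc.coc.add hd.coc, ?_, fun v hv ι => ?_⟩
  · obtain ⟨O, h1, h2, h3⟩ := hc.cont
    obtain ⟨O', h1', h2', h3'⟩ := hd.cont
    refine ⟨O ∩ O', h1.inter h1', ⟨h2, h2'⟩, fun τ hτ hU => ?_⟩
    show c _ + d _ = 0
    rw [h3 τ hτ.1 hU, h3' τ hτ.2 hU, add_zero]
  · obtain ⟨P, hP⟩ := hc.loc v hv ι
    obtain ⟨P', hP'⟩ := hd.loc v hv ι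
    refine ⟨P + P', fun τ σ hσ h => ?_⟩
    show jm ℓ f _ (c _ + d _) = _
    rw [map_add, hP τ σ hσ h, hP' τ σ hσ h, map_add]
    abel

theorem Cls.neg {c : (Sep F ≃ₐ[K] Sep F) → Jac ℓ f (Sep F)} (hc : Cls hg V U c) :
    Cls hg V U (-c) := by
  refine ⟨hc.coc.neg, ?_, fun v hv ι => ?_⟩
  · obtain ⟨O, h1, h2, h3⟩ := hc.cont
    refine ⟨O, h1, h2, fun τ hτ hU => ?_⟩
    show -c _ = 0
    rw [h3 τ hτ hU, neg_zero]
  · obtain ⟨P, hP⟩ := hc.loc v hv ι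
    refine ⟨-P, fun τ σ hσ h => ?_⟩
    show jm ℓ f _ (-c _) = _
    rw [map_neg, hP τ σ hσ h, map_neg]
    abel

theorem Cls.zero : Cls hg V U (0 : (Sep F ≃ₐ[K] Sep F) → Jac ℓ f (Sep F)) := by
  refine ⟨Coc.zero, ⟨Set.univ, isOpen_univ, trivial, fun τ _ _ => rfl⟩, fun v hv ι => ?_⟩
  refine ⟨0, fun τ σ hσ h => ?_⟩
  show jm ℓ f _ 0 = _
  rw [map_zero, map_zero, sub_zero]

theorem Cls.sh (hN : Preserves K F (Sep F)) (hV : Stable K F V) {s : Sep F ≃ₐ[K] Sep F}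
    (hs : ∀ x ∈ U', s⁻¹ * x * s ∈ U')
    {c : (Sep F ≃ₐ[K] Sep F) → Jac ℓ f (Sep F)} (hc : Cls hg V U' c) :
    Cls hg V U' (sh (aj ℓ f) s c) := by
  have hnn := nk_normal hN
  have conj : ∀ τ : Sep F ≃ₐ[F] Sep F, ∃ σ : Sep F ≃ₐ[F] Sep F,
      rK K F σ = s⁻¹ * rK K F τ * s := fun τ => conj_N hnn (rK_mem τ)
  refine ⟨sh_coc (aj_isAct ℓ f) hnn (lm_comm hg) hs hc.coc, ?_, fun w hw ι' => ?_⟩
  · obtain ⟨O, h1, h2, h3⟩ := hc.cont
    obtain ⟨O', h4, h5, h6⟩ := conj_open hN s h1 h2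
    refine ⟨O', h4, h5, fun τ hτ hU => ?_⟩
    obtain ⟨σ, hσ⟩ := conj τ
    show aj ℓ f _ (c _) = 0
    rw [← hσ, h3 σ (h6 τ hτ σ hσ) (by rw [hσ]; exact hs _ hU), map_zero]
  · obtain ⟨v, hv, sF, e1, e2, e3⟩ := hV s w hw
    obtain ⟨ι, J, hJ, hJ'⟩ := conj_loc s sF e1 e2 e3 ι'
    obtain ⟨P, hP⟩ := hc.loc v hv ι
    refine ⟨jm ℓ f J P, fun τ' σ' hσ' h => ?_⟩
    obtain ⟨τ, hτ⟩ := hJ' τ'
    obtain ⟨σ, hσ⟩ := conj σ'
    have hx : ∀ x, s (σ x) = σ' (s x) := by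
      intro x
      have h5 : (rK K F σ) x = (s⁻¹ * rK K F σ' * s) x := by rw [hσ]
      have h6 : (s⁻¹ * rK K F σ' * s) x = s⁻¹ (σ' (s x)) := rfl
      rw [rK_apply, h6] at h5
      rw [h5]
      exact AlgEquiv.apply_symm_apply s _
    have h4 := hP τ σ (by rw [hσ]; exact hs _ hσ') (fun x => by
      apply (J : Sep (Comp k'[X] F v) →+* Sep (Comp k'[X] F w)).injective
      show J (τ (ι x)) = J (ι (σ x))
      rw [hτ, hJ, hJ, h, hx])
    show jm ℓ f _ (aj ℓ f s (c _)) = _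
    rw [← hσ]
    have e4 : (ι'.restrictScalars K).comp (ak s) = J.comp (ι.restrictScalars K) :=
      AlgHom.ext fun x => (hJ x).symm
    have e5 : J.comp (rs K τ) = (rs K τ').comp J := AlgHom.ext fun y => hτ y
    have e6 : ∀ y, jm ℓ f (ι'.restrictScalars K) (aj ℓ f s y) =
        jm ℓ f J (jm ℓ f (ι.restrictScalars K) y) := by
      intro y
      show jm ℓ f (ι'.restrictScalars K) (jm ℓ f (ak s) y) = _
      rw [jm_jm, jm_jm, e4]
    have e7 : jm ℓ f J (jm ℓ f (rs K τ) P) = jm ℓ f (rs K τ') (jm ℓ f J P) := by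
      rw [jm_jm, jm_jm, e5]
    rw [e6, h4, map_sub, e7]

/-- The extension. -/
theorem Cls.ext (hN : Preserves K F (Sep F))
    (hn : ∀ t ∈ U, ∀ x ∈ U', t⁻¹ * x * t ∈ U')
    (h2 : NT (aj ℓ f) (lm F hg) (NK K F) U')
    (hO : ∃ O : Set (Sep F ≃ₐ[F] Sep F), IsOpen O ∧ 1 ∈ O ∧ ∀ τ ∈ O, rK K F τ ∈ U')
    (hun : ∀ v ∈ V, ∀ (ι : Sep F →ₐ[F] Sep (Comp k'[X] F v))
      (τ : Sep (Comp k'[X] F v) ≃ₐ[Comp k'[X] F v] Sep (Comp k'[X] F v)) (σ : Sep F ≃ₐ[F] Sep F),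
      (∀ x, τ (ι x) = ι (σ x)) → rK K F σ ∈ U → rK K F σ ∈ U')
    {c : (Sep F ≃ₐ[K] Sep F) → Jac ℓ f (Sep F)} (hc : Cls hg V U' c)
    (hi : ∀ t ∈ U, ∃ Q, Rel (aj ℓ f) (lm F hg) (NK K F) U' c t Q) :
    Cls hg V U (extn (aj ℓ f) (lm F hg) (NK K F) U' c) := by
  have hnn := nk_normal hN
  have hmem : ∀ σ : Sep F ≃ₐ[F] Sep F, rK K F σ ∈ U' →
      extn (aj ℓ f) (lm F hg) (NK K F) U' c (rK K F σ) = c (rK K F σ) := fun σ hσ =>
    ext_mem hnn h2 hc.coc hσ (rK_mem σ)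
  refine ⟨ext_coc (aj_isAct ℓ f) hnn (lm_comm hg) h2 hn hi, ?_, fun v hv ι => ?_⟩
  · obtain ⟨O, h1, h3, h4⟩ := hc.cont
    obtain ⟨O', h1', h3', h4'⟩ := hO
    refine ⟨O ∩ O', h1.inter h1', ⟨h3, h3'⟩, fun τ hτ hU => ?_⟩
    rw [hmem τ (h4' τ hτ.2), h4 τ hτ.1 (h4' τ hτ.2)]
  · obtain ⟨P, hP⟩ := hc.loc v hv ι
    refine ⟨P, fun τ σ hσ h => ?_⟩
    have h3 := hun v hv ι τ σ h hσ
    rw [hmem σ h3, hP τ σ h3 h]

/-- **The step.** -/
theorem step_triv {p m : ℕ} (hp : p.Prime) (hpm : ℓ = p ^ m) (hN : Preserves K F (Sep F))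
    (hV : Stable K F V) (hs : Step p U U')
    (h2 : NT (aj ℓ f) (lm F hg) (NK K F) U')
    (hO : ∃ O : Set (Sep F ≃ₐ[F] Sep F), IsOpen O ∧ 1 ∈ O ∧ ∀ τ ∈ O, rK K F τ ∈ U')
    (hun : ∀ v ∈ V, ∀ (ι : Sep F →ₐ[F] Sep (Comp k'[X] F v))
      (τ : Sep (Comp k'[X] F v) ≃ₐ[Comp k'[X] F v] Sep (Comp k'[X] F v)) (σ : Sep F ≃ₐ[F] Sep F),
      (∀ x, τ (ι x) = ι (σ x)) → rK K F σ ∈ U → rK K F σ ∈ U')
    (h : Triv hg V U) : Triv hg V U' := by
  have ha := aj_isAct (F := F) ℓ f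
  have hn := nk_normal hN
  by_cases hU : U ≤ U'
  · have e : U' = U := le_antisymm hs.le hU
    rwa [e]
  obtain ⟨s, hsU, hsU'⟩ := SetLike.not_le_iff_exists.1 hU
  have hconj : ∀ x ∈ U', s⁻¹ * x * s ∈ U' := hs.normal s hsU
  let T : AddSubgroup ((Sep F ≃ₐ[K] Sep F) → Jac ℓ f (Sep F)) :=
    { carrier := {c | Cls hg V U' c}
      add_mem' := fun h1 h3 => Cls.add h1 h3
      zero_mem' := Cls.zero
      neg_mem' := fun h1 => Cls.neg h1 }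
  let S : AddMonoid.End T :=
    { toFun := fun c => ⟨sh (aj ℓ f) s c.1, Cls.sh hN hV hconj c.2⟩
      map_zero' := by
        apply Subtype.ext
        funext x
        exact map_zero _
      map_add' := fun c d => by
        apply Subtype.ext
        funext x
        exact map_add _ _ _ }
  let Z : AddSubgroup T :=
    { carrier := {c | ∃ Q, lm F hg Q = 0 ∧ ∀ x ∈ U', x ∈ NK K F → c.1 x = aj ℓ f x Q - Q}
      add_mem' := by
        rintro c d ⟨Q, h1, h3⟩ ⟨R, h4, h5⟩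
        refine ⟨Q + R, by rw [map_add, h1, h4, add_zero], fun x hx hxN => ?_⟩
        show c.1 x + d.1 x = _
        rw [h3 x hx hxN, h5 x hx hxN, map_add]
        abel
      zero_mem' := ⟨0, map_zero _, fun x _ _ => by
        show (0 : Jac ℓ f (Sep F)) = _
        rw [map_zero, sub_zero]⟩
      neg_mem' := by
        rintro c ⟨Q, h1, h3⟩
        refine ⟨-Q, by rw [map_neg, h1, neg_zero], fun x hx hxN => ?_⟩
        show -c.1 x = _
        rw [h3 x hx hxN, map_neg]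
        abel }
  have hSn : ∀ (n : ℕ) (c : T), ((S ^ n) c).1 = sh (aj ℓ f) (s ^ n) c.1 := by
    intro n
    induction n with
    | zero =>
      intro c
      funext x
      show c.1 x = aj ℓ f (s ^ 0) (c.1 ((s ^ 0)⁻¹ * x * s ^ 0))
      rw [pow_zero, inv_one, one_mul, mul_one, ha.one]
    | succ n ih =>
      intro c
      funext x
      rw [pow_succ']
      show aj ℓ f s (((S ^ n) c).1 (s⁻¹ * x * s)) = aj ℓ f (s ^ (n + 1)) (c.1 _)
      rw [ih]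
      show aj ℓ f s (aj ℓ f (s ^ n) (c.1 _)) = _
      rw [← ha.mul, ← pow_succ']
      congr 2
      group
  intro c hc
  have key := nilp (T := T) S Z (M := m) hp ?_ ?_ ?_ ?_ ⟨c, hc⟩
  · exact key
  · intro d
    obtain ⟨Q, h1, h3⟩ := d.2.coc.inv _ (hs.pow s hsU)
    refine ⟨Q, h1, fun x hx hxN => ?_⟩
    show ((S ^ p) d).1 x - d.1 x = _
    rw [hSn]
    exact h3 x hx hxN
  · rintro d ⟨Q, h1, h3⟩
    refine ⟨aj ℓ f s Q, by rw [lm_comm, h1, map_zero], fun x hx hxN => ?_⟩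
    show aj ℓ f s (d.1 (s⁻¹ * x * s)) = _
    rw [h3 _ (hconj x hx) (conj_N hn hxN), map_sub, ← ha.mul, ← ha.mul]
    congr 3
    group
  · intro d
    refine ⟨0, map_zero _, fun x hx hxN => ?_⟩
    show p ^ m • d.1 x = _
    rw [lm_tors hg hpm _ (d.2.coc.tor x hx hxN), map_zero, sub_zero]
  · rintro d ⟨Q, h1, h3⟩
    have hsr : Rel (aj ℓ f) (lm F hg) (NK K F) U' d.1 s Q := ⟨h1, fun x hx hxN => h3 x hx hxN⟩
    have hsi : ∀ i : ℕ, ∃ Q, Rel (aj ℓ f) (lm F hg) (NK K F) U' d.1 (s ^ i) Q := by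
      intro i
      induction i with
      | zero =>
        refine ⟨0, map_zero _, fun x hx hxN => ?_⟩
        rw [pow_zero, inv_one, one_mul, mul_one, ha.one, map_zero, sub_zero, sub_self]
      | succ i ih =>
        obtain ⟨R, hR⟩ := ih
        rw [pow_succ']
        exact ⟨_, Rel.mul ha hn (lm_comm hg) hconj hsr hR⟩
    have hi : ∀ t ∈ U, ∃ Q, Rel (aj ℓ f) (lm F hg) (NK K F) U' d.1 t Q := by
      intro t ht
      obtain ⟨i, u, hu, rfl⟩ := hs.gen s hsU hsU' t ht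
      obtain ⟨R, hR⟩ := hsi i
      obtain ⟨R', hR', hr'⟩ := d.2.coc.inv u hu
      exact ⟨_, Rel.mul ha hn (lm_comm hg) (hs.normal _ (U.pow_mem hsU i)) hR ⟨hR', hr'⟩⟩
    obtain ⟨R, hR, hr⟩ := h _ (Cls.ext hN hs.normal h2 hO hun d.2 hi)
    refine ⟨R, hR, fun x hx hxN => ?_⟩
    rw [← hr x (hs.le hx) hxN, ext_mem hn h2 d.2.coc hx hxN]

end cls

end Pool.Agent.K6.H71.PS
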