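import Pool.Agent.K6.H71.PG.Fld
import Pool.Agent.K6.H71.PS.Cls

/-!
# The descent in Galois extensions whose degree is a power of `p`, and in towers of `p`-th roots
-/

set_option autoImplicit false
set_option linter.all false

open Polynomial IsDedekindDomain
open scoped Classical

namespace Pool.Agent.K6.H71.PS

open Pool.Agent.TH115.GD (incl rs ak Sep Comp Preserves exists_conj)
open Pool.Agent.K6.H71.PG (IsAct conj_N sh rK rK_apply rK_inj NK rK_mem mem_NK_iff nk_normal Stable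
  conj_loc conj_open Unramified rho fixL fixL_comap rho_one exists_open)
open Pool.Agent.Y160.SQ

section group

/-- Subgroups of index `p` of finite `p`-groups. -/
theorem step_of {G Γ : Type*} [Group G] [Group Γ] [Finite Γ] {p : ℕ} (hp : p.Prime) (ρ : G →* Γ)
    {H H₁ : Subgroup Γ} {n : ℕ} (hle : H ≤ H₁) (hH : Nat.card H = p ^ n)
    (hH₁ : Nat.card H₁ = p ^ (n + 1)) : Step p (H₁.comap ρ) (H.comap ρ) := by
  haveI : Fact p.Prime := ⟨hp⟩
  have hidx : (H.subgroupOf H₁).index = p := by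
    have h1 : Nat.card (H.subgroupOf H₁) = p ^ n := by
      rw [Nat.card_congr (Subgroup.subgroupOfEquivOfLe hle).toEquiv, hH]
    have h3 := Subgroup.card_mul_index (H.subgroupOf H₁)
    rw [h1, hH₁, pow_succ] at h3
    exact Nat.eq_of_mul_eq_mul_left (pow_pos hp.pos n) h3
  haveI hnorm : (H.subgroupOf H₁).Normal := by
    refine Subgroup.normal_of_index_eq_minFac_card ?_
    rw [hidx, hH₁, hp.pow_minFac (Nat.succ_ne_zero n)]
  refine ⟨Subgroup.comap_mono hle, fun t ht x hx => ?_, fun s hs => ?_, fun s hs hs' t ht => ?_⟩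
  · show ρ (t⁻¹ * x * t) ∈ H
    have h1 := hnorm.conj_mem ⟨ρ x, hle hx⟩ (by rw [Subgroup.mem_subgroupOf]; exact hx)
      (⟨ρ t, ht⟩ : H₁)⁻¹
    rw [Subgroup.mem_subgroupOf] at h1
    simpa using h1
  · show ρ (s ^ p) ∈ H
    have h1 := Subgroup.pow_index_mem (H.subgroupOf H₁) (⟨ρ s, hs⟩ : H₁)
    rw [hidx, Subgroup.mem_subgroupOf] at h1
    simpa using h1
  · have hc : Nat.card (H₁ ⧸ H.subgroupOf H₁) = p := hidx
    have h1 : (QuotientGroup.mk (⟨ρ s, hs⟩ : H₁) : H₁ ⧸ H.subgroupOf H₁) ≠ 1 := by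
      intro h
      rw [QuotientGroup.eq_one_iff, Subgroup.mem_subgroupOf] at h
      exact hs' h
    have h2 := mem_powers_of_prime_card (p := p) hc
      (g' := (QuotientGroup.mk (⟨ρ t, ht⟩ : H₁) : H₁ ⧸ H.subgroupOf H₁)) h1
    obtain ⟨i, hi⟩ := Submonoid.mem_powers_iff _ _ |>.1 h2
    rw [← QuotientGroup.mk_pow, QuotientGroup.eq, Subgroup.mem_subgroupOf] at hi
    refine ⟨i, (s ^ i)⁻¹ * t, ?_, by group⟩
    show ρ ((s ^ i)⁻¹ * t) ∈ H
    simpa using hi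

/-- Kummer extensions. -/
theorem step_root {K Ω : Type} [Field K] [Field Ω] [Algebra K Ω] {p : ℕ} (hp : p.Prime) {ζ : K}
    (hζ : IsPrimitiveRoot ζ p) {U U' : Subgroup (Ω ≃ₐ[K] Ω)} {δ : Ω}
    (hU : ∀ τ, τ ∈ U' ↔ τ ∈ U ∧ τ δ = δ) (hδ : ∀ τ ∈ U, τ (δ ^ p) = δ ^ p) : Step p U U' := by
  haveI : NeZero p := ⟨hp.ne_zero⟩
  have hζ' : IsPrimitiveRoot (algebraMap K Ω ζ) p := hζ.map_of_injective (algebraMap K Ω).injective
  have key : ∀ τ ∈ U, ∃ i : ℕ, τ δ = algebraMap K Ω ζ ^ i * δ := by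
    intro τ hτ
    by_cases h0 : δ = 0
    · exact ⟨0, by rw [h0, map_zero, mul_zero]⟩
    have h1 : (τ δ / δ) ^ p = 1 := by
      rw [div_pow, ← map_pow, hδ τ hτ, div_self (pow_ne_zero _ h0)]
    obtain ⟨i, -, hi⟩ := hζ'.eq_pow_of_pow_eq_one h1
    exact ⟨i, by rw [hi, div_mul_cancel₀ _ h0]⟩
  have hzf : ∀ (τ : Ω ≃ₐ[K] Ω) (i : ℕ), τ (algebraMap K Ω ζ ^ i) = algebraMap K Ω ζ ^ i := by
    intro τ i
    rw [map_pow, τ.commutes]
  have hpow : ∀ (τ : Ω ≃ₐ[K] Ω) (i : ℕ), τ δ = algebraMap K Ω ζ ^ i * δ →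
      ∀ n : ℕ, (τ ^ n) δ = algebraMap K Ω ζ ^ (i * n) * δ := by
    intro τ i hi n
    induction n with
    | zero => rw [pow_zero, mul_zero, pow_zero, one_mul]; rfl
    | succ n ih =>
      rw [pow_succ']
      show τ ((τ ^ n) δ) = _
      rw [ih, map_mul, hzf, hi, mul_add, mul_one, pow_add]
      ring
  refine ⟨fun τ hτ => ((hU τ).1 hτ).1, fun t ht x hx => ?_, fun s hs => ?_, fun s hs hs' t ht => ?_⟩
  · obtain ⟨hx1, hx2⟩ := (hU x).1 hx
    refine (hU _).2 ⟨U.mul_mem (U.mul_mem (U.inv_mem ht) hx1) ht, ?_⟩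
    obtain ⟨i, hi⟩ := key t ht
    show t⁻¹ (x (t δ)) = δ
    rw [hi, map_mul, hzf, hx2, ← hi]
    exact AlgEquiv.symm_apply_apply t δ
  · refine (hU _).2 ⟨U.pow_mem hs p, ?_⟩
    obtain ⟨i, hi⟩ := key s hs
    rw [hpow s i hi, mul_comm i p, pow_mul, hζ'.pow_eq_one, one_pow, one_mul]
  · have hsδ : s δ ≠ δ := fun h => hs' ((hU s).2 ⟨hs, h⟩)
    obtain ⟨i, hi⟩ := key s hs
    obtain ⟨j, hj⟩ := key t ht
    have hpi : ¬ p ∣ i := by
      rintro ⟨r, rfl⟩
      apply hsδ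
      rw [hi, pow_mul, hζ'.pow_eq_one, one_pow, one_mul]
    have hprim : IsPrimitiveRoot (algebraMap K Ω ζ ^ i) p :=
      hζ'.pow_of_coprime i (((Nat.Prime.coprime_iff_not_dvd hp).2 hpi).symm)
    obtain ⟨n, -, hn⟩ := hprim.eq_pow_of_pow_eq_one (ξ := algebraMap K Ω ζ ^ j) (by
      rw [← pow_mul, mul_comm, pow_mul, hζ'.pow_eq_one, one_pow])
    refine ⟨n, (s ^ n)⁻¹ * t, (hU _).2 ⟨U.mul_mem (U.inv_mem (U.pow_mem hs n)) ht, ?_⟩, by group⟩
    show (s ^ n)⁻¹ (t δ) = δ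
    have h1 := hpow s i hi n
    rw [hj, ← hn, ← pow_mul, ← h1]
    exact AlgEquiv.symm_apply_apply (s ^ n) δ

end group

section chain

variable {k' K F : Type} [Field k'] [Field K] [Field F] [Algebra K F] [Algebra k'[X] F]
  [IsFractionRing k'[X] F] {ℓ : ℕ} {f : K[X]} {ζ : K} {hg : Good ℓ ζ f}
  {V : Set (HeightOneSpectrum k'[X])} {Γ : Type} [Group Γ] [Finite Γ]
  (ρ : (Sep F ≃ₐ[K] Sep F) →* Γ)

theorem chain {p m : ℕ} (hp : p.Prime) (hpm : ℓ = p ^ m) (hN : Preserves K F (Sep F))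
    (hV : Stable K F V) (hΓ : IsPGroup p Γ)
    (hO : ∃ O : Set (Sep F ≃ₐ[F] Sep F), IsOpen O ∧ 1 ∈ O ∧ ∀ τ ∈ O, ρ (rK K F τ) = 1)
    (hun : ∀ v ∈ V, ∀ (ι : Sep F →ₐ[F] Sep (Comp k'[X] F v))
      (τ : Sep (Comp k'[X] F v) ≃ₐ[Comp k'[X] F v] Sep (Comp k'[X] F v)) (σ : Sep F ≃ₐ[F] Sep F),
      (∀ x, τ (ι x) = ι (σ x)) → ρ (rK K F σ) = 1)
    (h2 : NT (aj ℓ f) (lm F hg) (NK K F) ⊤)
    (h : Triv hg V (⊤ : Subgroup (Sep F ≃ₐ[K] Sep F))) :
    ∀ H : Subgroup Γ, NT (aj ℓ f) (lm F hg) (NK K F) (H.comap ρ) ∧ Triv hg V (H.comap ρ) := by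
  haveI : Fact p.Prime := ⟨hp⟩
  obtain ⟨M, hM⟩ := IsPGroup.iff_card.1 hΓ
  have key : ∀ (r n : ℕ), n + r = M → ∀ H : Subgroup Γ, Nat.card H = p ^ n →
      NT (aj ℓ f) (lm F hg) (NK K F) (H.comap ρ) ∧ Triv hg V (H.comap ρ) := by
    intro r
    induction r with
    | zero =>
      intro n hn H hH
      have e : H = ⊤ := Subgroup.eq_top_of_card_eq H (by rw [hH, hM]; congr 1)
      rw [e, Subgroup.comap_top]
      exact ⟨h2, h⟩
    | succ r ih =>
      intro n hn H hH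
      obtain ⟨H₁, hc, hle⟩ := Sylow.exists_subgroup_card_pow_succ (p := p) (n := n)
        (by rw [hM]; exact pow_dvd_pow p (by omega)) hH
      obtain ⟨i1, i2⟩ := ih (n + 1) (by omega) H₁ hc
      have hst := step_of hp ρ hle hH hc
      have hnt := step_nt hp (aj_isAct (F := F) ℓ f) (nk_normal hN) (lm_comm hg)
        (lm_tors hg hpm) hst i1
      refine ⟨hnt, step_triv hp hpm hN hV hst hnt ?_ ?_ i2⟩
      · obtain ⟨O, h1, h3, h4⟩ := hO
        refine ⟨O, h1, h3, fun τ hτ => ?_⟩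
        show ρ _ ∈ H
        rw [h4 τ hτ]
        exact H.one_mem
      · intro v hv ι τ σ hσ _
        show ρ _ ∈ H
        rw [hun v hv ι τ σ hσ]
        exact H.one_mem
  intro H
  obtain ⟨n, hn⟩ := IsPGroup.iff_card.1 (hΓ.to_subgroup H)
  have hle : n ≤ M := by
    have h1 := Subgroup.card_subgroup_dvd_card H
    rw [hn, hM] at h1
    exact (Nat.pow_dvd_pow_iff_le_right hp.one_lt).1 h1
  exact key (M - n) n (by omega) H hn

end chain

section fld

variable {k' K F : Type} [Field k'] [Field K] [Field F] [Algebra K F] [Algebra k'[X] F]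
  [IsFractionRing k'[X] F] {ℓ : ℕ} {f : K[X]} {ζ : K} {hg : Good ℓ ζ f}
  {V : Set (HeightOneSpectrum k'[X])}

/-- **The descent for fields.** -/
theorem fld {N L : IntermediateField K (Sep F)} [IsGalois K N] [FiniteDimensional K N]
    {p m : ℕ} (hp : p.Prime) (hpm : ℓ = p ^ m) (hN : Preserves K F (Sep F)) (hV : Stable K F V)
    (h2 : NT (aj ℓ f) (lm F hg) (NK K F) ⊤)
    (h : Triv hg V (⊤ : Subgroup (Sep F ≃ₐ[K] Sep F))) {e : ℕ} (hd : Module.finrank K N = p ^ e)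
    (hu : Unramified V N) (hL : L ≤ N) :
    NT (aj ℓ f) (lm F hg) (NK K F) L.fixingSubgroup ∧ Triv hg V L.fixingSubgroup := by
  rw [← fixL_comap hL]
  refine chain (rho N) hp hpm hN hV ?_ ?_ ?_ h2 h _
  · refine IsPGroup.of_card (n := e) ?_
    rw [IsGalois.card_aut_eq_finrank, hd]
  · obtain ⟨O, h1, h3, h4⟩ := exists_open (K := K) (F := F) (N := N)
    exact ⟨O, h1, h3, fun τ hτ => rho_one fun x hx => h4 τ hτ x hx⟩
  · intro v hv ι τ σ hσ
    refine rho_one fun x hx => ?_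
    obtain ⟨y, hy⟩ := hu v hv ι x hx
    have h3 := hσ x
    rw [hy, τ.commutes, ← hy] at h3
    exact (RingHom.injective (ι : Sep F →+* Sep (Comp k'[X] F v)) h3).symm

/-- `L` is obtained from `K` by adjoining finitely many times a `p`-th root. -/
inductive RootTower (p : ℕ) (K : Type) {Ω : Type} [Field K] [Field Ω] [Algebra K Ω] :
    IntermediateField K Ω → Prop
  | base : RootTower p K ⊥
  | step (L : IntermediateField K Ω) (δ : Ω) : RootTower p K L → δ ^ p ∈ L →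
      RootTower p K (L ⊔ IntermediateField.adjoin K {δ})

theorem mem_fix_sup {K Ω : Type} [Field K] [Field Ω] [Algebra K Ω] {L : IntermediateField K Ω}
    {δ : Ω} {τ : Ω ≃ₐ[K] Ω} : τ ∈ (L ⊔ IntermediateField.adjoin K {δ}).fixingSubgroup ↔
      τ ∈ L.fixingSubgroup ∧ τ δ = δ := by
  rw [IntermediateField.fixingSubgroup_sup, Subgroup.mem_inf]
  refine and_congr Iff.rfl ?_
  rw [IntermediateField.mem_fixingSubgroup_iff]
  constructor
  · intro h
    exact h δ (IntermediateField.mem_adjoin_simple_self K δ)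
  · intro h x hx
    refine IntermediateField.adjoin_induction K (p := fun x _ => τ x = x) ?_ ?_ ?_ ?_ ?_ hx
    · intro y hy
      rw [Set.mem_singleton_iff] at hy
      rw [hy, h]
    · intro y
      exact τ.commutes y
    · intro x y _ _ hx hy
      rw [map_add, hx, hy]
    · intro x _ hx
      rw [map_inv₀, hx]
    · intro x y _ _ hx hy
      rw [map_mul, hx, hy]

/-- **The descent for towers.** -/
theorem tower {p m : ℕ} (hp : p.Prime) (hpm : ℓ = p ^ m) {ξ : K} (hξ : IsPrimitiveRoot ξ p)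
    (hN : Preserves K F (Sep F)) (hV : Stable K F V)
    (h2 : NT (aj ℓ f) (lm F hg) (NK K F) ⊤)
    (h : Triv hg V (⊤ : Subgroup (Sep F ≃ₐ[K] Sep F))) {L : IntermediateField K (Sep F)}
    (hL : RootTower p K L) (hu : Unramified V L) :
    (∃ O : Set (Sep F ≃ₐ[F] Sep F), IsOpen O ∧ 1 ∈ O ∧ ∀ τ ∈ O, rK K F τ ∈ L.fixingSubgroup) ∧
    NT (aj ℓ f) (lm F hg) (NK K F) L.fixingSubgroup ∧ Triv hg V L.fixingSubgroup := by
  induction hL with
  | base =>
    rw [IntermediateField.fixingSubgroup_bot]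
    exact ⟨⟨Set.univ, isOpen_univ, trivial, fun _ _ => trivial⟩, h2, h⟩
  | step L δ hL hδ ih =>
    obtain ⟨⟨O, h1, h3, h4⟩, i1, i2⟩ := ih (fun v hv ι x hx => hu v hv ι x
      ((le_sup_left : L ≤ L ⊔ IntermediateField.adjoin K {δ}) hx))
    have hO : ∃ O : Set (Sep F ≃ₐ[F] Sep F), IsOpen O ∧ 1 ∈ O ∧ ∀ τ ∈ O,
        rK K F τ ∈ (L ⊔ IntermediateField.adjoin K {δ}).fixingSubgroup := by
      exact ⟨O ∩ {σ | σ δ = δ}, h1.inter
        ((Pool.Agent.W309.TD.locConst_apply (K := F) (Ω := Sep F) δ).isOpen_fiber _), ⟨h3, rfl⟩,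
        fun τ hτ => mem_fix_sup.2 ⟨h4 τ hτ.1, hτ.2⟩⟩
    have hst : Step p L.fixingSubgroup (L ⊔ IntermediateField.adjoin K {δ}).fixingSubgroup :=
      step_root hp hξ (fun τ => mem_fix_sup) fun τ hτ =>
        (IntermediateField.mem_fixingSubgroup_iff L τ).1 hτ _ hδ
    have hnt := step_nt hp (aj_isAct (F := F) ℓ f) (nk_normal hN) (lm_comm hg)
      (lm_tors hg hpm) hst i1
    refine ⟨hO, hnt, step_triv hp hpm hN hV hst hnt hO ?_ i2⟩
    intro v hv ι τ σ hσ _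
    rw [IntermediateField.mem_fixingSubgroup_iff]
    intro x hx
    obtain ⟨y, hy⟩ := hu v hv ι x hx
    have h5 := hσ x
    rw [hy, τ.commutes, ← hy] at h5
    exact (RingHom.injective (ι : Sep F →+* Sep (Comp k'[X] F v)) h5).symm

end fld

end Pool.Agent.K6.H71.PS
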