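import Pool.Agent.K6.H71.PS.Stm
import Pool.Agent.K6.H71.PS.Chain

/-!
# From classes killed by `1 - σ` to the Tate module
-/

set_option autoImplicit false
set_option linter.all false

open Polynomial IsDedekindDomain
open scoped Classical

namespace Pool.Agent.K6.H71.PS

open Pool.Agent.TH115.GD (incl rs ak Sep Comp CompInf Preserves exists_conj)
open Pool.Agent.K6.H71.PG (IsAct conj_N sh rK rK_apply rK_inj NK rK_mem mem_NK_iff nk_normal Stable)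
open Pool.Agent.Y160.SQ

section lf

variable {K F : Type} [Field K] [Field F] [Algebra K F]

/-- Conjugation. -/
theorem conj_rel (τ : Sep F ≃ₐ[K] Sep F) {σ σ' : Sep F ≃ₐ[F] Sep F}
    (h : ∀ x, τ (σ' x) = σ (τ x)) : τ⁻¹ * rK K F σ * τ = rK K F σ' := by
  apply AlgEquiv.ext
  intro x
  show τ⁻¹ (σ (τ x)) = σ' x
  rw [← h]
  exact AlgEquiv.symm_apply_apply τ _

/-- A function on `Gal(Sep F / F)` as a function on the image in `Gal(Sep F / K)`. -/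
noncomputable def lf {A : Type} [Zero A] (f : (Sep F ≃ₐ[F] Sep F) → A) (x : Sep F ≃ₐ[K] Sep F) : A :=
  if h : x ∈ NK K F then f h.choose else 0

theorem lf_apply {A : Type} [Zero A] (f : (Sep F ≃ₐ[F] Sep F) → A) (σ : Sep F ≃ₐ[F] Sep F) :
    lf (K := K) f (rK K F σ) = f σ := by
  have h : rK K F σ ∈ NK K F := rK_mem σ
  unfold lf
  rw [dif_pos h, rK_inj K F h.choose_spec]

end lf

section div

variable {p m ℓ : ℕ} {k' K F : Type} [Field k'] [Field K] [Field F] [Algebra K F] [Algebra k'[X] F]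
  [IsFractionRing k'[X] F] {f : K[X]} {ζ : K} {hg : Good ℓ ζ f}
  {V : Set (HeightOneSpectrum k'[X])} {L : IntermediateField K (Sep F)}

omit [Field k'] [Algebra k'[X] F] [IsFractionRing k'[X] F] in
theorem over_iff (σ : Sep F ≃ₐ[F] Sep F) : rK K F σ ∈ L.fixingSubgroup ↔ Over L σ := by
  rw [IntermediateField.mem_fixingSubgroup_iff]
  rfl

omit [Field k'] [Algebra k'[X] F] [IsFractionRing k'[X] F] in
theorem no_torL (h : NT (aj ℓ f) (lm F hg) (NK K F) L.fixingSubgroup) {x : Jac ℓ f (Sep F)}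
    (hx : Tor hg x) (hf : ∀ σ : Sep F ≃ₐ[F] Sep F, Over L σ → jm ℓ f (rs K σ) x = x) : x = 0 := by
  refine h x hx ?_
  rintro _ hs ⟨σ, rfl⟩
  exact hf σ ((over_iff σ).1 hs)

omit [Field k'] [Algebra k'[X] F] [IsFractionRing k'[X] F] in
theorem no_lamL (h : NT (aj ℓ f) (lm F hg) (NK K F) L.fixingSubgroup) (N : ℕ) :
    ∀ x : Jac ℓ f (Sep F), pe hg (Sep F) ((1 - X) ^ N) x = 0 →
    (∀ σ : Sep F ≃ₐ[F] Sep F, Over L σ → jm ℓ f (rs K σ) x = x) → x = 0 := by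
  induction N with
  | zero =>
    intro x h _
    rwa [pow_zero, pe_one] at h
  | succ N ih =>
    intro x h1 hf
    have h2 : pe hg (Sep F) ((1 - X) ^ N) (pe hg (Sep F) (1 - X) x) = 0 := by
      rw [← pe_mul, ← pow_succ, h1]
    have h3 := ih _ h2 (fun σ hσ => by rw [jm_pe, hf σ hσ])
    exact no_torL h h3 hf

theorem W_pow {W : ℤ[X]} {hg : Good ℓ ζ f}
    (hW : ∀ (x : Jac ℓ f (Sep F)), pe hg (Sep F) ((1 - X) ^ ℓ) x = p • pe hg (Sep F) W x) (n : ℕ) :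
    ∀ x : Jac ℓ f (Sep F), pe hg (Sep F) ((1 - X) ^ (ℓ * n)) x =
      pe hg (Sep F) (W ^ n) (p ^ n • x) := by
  induction n with
  | zero => intro x; rw [mul_zero, pow_zero, pow_zero, pow_zero, one_smul]
  | succ n ih =>
    intro x
    rw [mul_add, mul_one, pow_add, pe_mul, hW, ih, pow_succ W, pe_mul, pow_succ p, mul_smul,
      ← map_nsmul, ← map_nsmul, smul_comm]

omit [Field k'] [Algebra k'[X] F] [IsFractionRing k'[X] F] in
theorem no_powL (hp : p.Prime) (hpm : ℓ = p ^ m)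
    (h : NT (aj ℓ f) (lm F hg) (NK K F) L.fixingSubgroup) (M : ℕ) (x : Jac ℓ f (Sep F))
    (hx : p ^ M • x = 0) (hf : ∀ σ : Sep F ≃ₐ[F] Sep F, Over L σ → jm ℓ f (rs K σ) x = x) :
    x = 0 := by
  obtain ⟨W, hW⟩ := exists_W' (p := p) (m := m) hg hp hpm
  refine no_lamL h (ℓ * M) x ?_ hf
  rw [W_pow (hW (Sep F)), hx, map_zero]

/-- A class killed by `1 - σ`. -/
theorem cls_of {c : (Sep F ≃ₐ[F] Sep F) → Jac ℓ f (Sep F)} (hc : IsCocL ℓ f L c)
    (h2 : ∀ σ, Over L σ → Tor hg (c σ))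
    (hl : ∀ v ∈ V, LocTrivL ℓ f L (Comp k'[X] F v) (Sep (Comp k'[X] F v)) c)
    (hN : Preserves K F (Sep F))
    (hi : ∀ τ : Sep F ≃ₐ[K] Sep F, (∀ x ∈ L, τ x = x) → ∃ Q : Jac ℓ f (Sep F), Tor hg Q ∧
      ∀ (σ σ' : Sep F ≃ₐ[F] Sep F), Over L σ → Over L σ' → (∀ x, τ (σ' x) = σ (τ x)) →
        jm ℓ f (ak τ) (c σ') - c σ = jm ℓ f (rs K σ) Q - Q) :
    Cls hg V L.fixingSubgroup (lf c) := by
  have h1 : Over L (1 : Sep F ≃ₐ[F] Sep F) := fun _ _ => rfl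
  have hf1 : c 1 = 0 := by
    have h := hc.mul 1 1 h1 h1
    have e : jm ℓ f (rs K (1 : Sep F ≃ₐ[F] Sep F)) (c 1) = c 1 := by
      have e1 : rs K (1 : Sep F ≃ₐ[F] Sep F) = AlgHom.id K (Sep F) := AlgHom.ext fun x => rfl
      rw [e1, jm_id]
    rw [mul_one, e] at h
    exact left_eq_add.1 h
  refine ⟨⟨?_, ?_, ?_⟩, ?_, ?_⟩
  · rintro _ hx ⟨σ, rfl⟩ _ hy ⟨τ, rfl⟩
    rw [← map_mul, lf_apply, lf_apply, lf_apply]
    exact hc.mul σ τ ((over_iff σ).1 hx) ((over_iff τ).1 hy)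
  · rintro _ hx ⟨σ, rfl⟩
    rw [lf_apply]
    exact h2 σ ((over_iff σ).1 hx)
  · intro τ hτ
    have hτ' : ∀ x ∈ L, τ x = x := by
      rw [IntermediateField.mem_fixingSubgroup_iff] at hτ
      exact hτ
    obtain ⟨Q, hQ, h⟩ := hi τ hτ'
    refine ⟨Q, hQ, ?_⟩
    rintro _ hx ⟨σ, rfl⟩
    obtain ⟨σ', hσ'⟩ := exists_conj hN τ σ
    have e := conj_rel τ hσ'
    have hc : rK K F σ' ∈ L.fixingSubgroup := by
      rw [← e]
      exact L.fixingSubgroup.mul_mem (L.fixingSubgroup.mul_mem (L.fixingSubgroup.inv_mem hτ) hx) hτ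
    rw [e, lf_apply, lf_apply]
    exact h σ σ' ((over_iff σ).1 hx) ((over_iff σ').1 hc) hσ'
  · obtain ⟨O, hO, hO1, h⟩ := hc.lc 1 h1
    refine ⟨O, hO, hO1, fun τ hτ hτ' => ?_⟩
    rw [lf_apply, h τ hτ ((over_iff τ).1 hτ'), hf1]
  · intro v hv ι
    obtain ⟨P, hP⟩ := hl v hv ι
    refine ⟨P, fun τ σ hσ h => ?_⟩
    rw [lf_apply]
    exact hP τ σ ((over_iff σ).1 hσ) h

/-- The conditions on a cocycle with values in the Tate module. -/
structure TCls (p ℓ : ℕ) (f : K[X]) (V : Set (HeightOneSpectrum k'[X]))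
    (L : IntermediateField K (Sep F))
    (c : ℕ → (Sep F ≃ₐ[F] Sep F) → Jac ℓ f (Sep F)) : Prop where
  tc : IsTCL p ℓ f L c
  loc : ∀ n, ∀ v ∈ V, LocTrivL ℓ f L (Comp k'[X] F v) (Sep (Comp k'[X] F v)) (c n)
  inv : IsInvL p ℓ f L c

omit [Field k'] [Algebra k'[X] F] [IsFractionRing k'[X] F] in
theorem tc_powL {c : ℕ → (Sep F ≃ₐ[F] Sep F) → Jac ℓ f (Sep F)} (hc : IsTCL p ℓ f L c) (k n : ℕ)
    {σ : Sep F ≃ₐ[F] Sep F} (hσ : Over L σ) : p ^ k • c (k + n) σ = c n σ := by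
  induction k generalizing n with
  | zero => rw [pow_zero, one_smul, zero_add]
  | succ k ih => rw [pow_succ, mul_smul, show k + 1 + n = (k + n) + 1 by omega, hc.step _ σ hσ, ih]

theorem tm_powL {Q : ℕ → Jac ℓ f (Sep F)} (hQ : IsTM p ℓ f Q) (k n : ℕ) :
    p ^ k • Q (k + n) = Q n := by
  induction k generalizing n with
  | zero => rw [pow_zero, one_smul, zero_add]
  | succ k ih => rw [pow_succ, mul_smul, show k + 1 + n = (k + n) + 1 by omega, hQ.step, ih]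

theorem over_conj {τ : Sep F ≃ₐ[K] Sep F} (hτ : ∀ x ∈ L, τ x = x) {σ σ' : Sep F ≃ₐ[F] Sep F}
    (h : ∀ x, τ (σ' x) = σ (τ x)) (hσ : Over L σ) : Over L σ' := fun x hx => by
  apply τ.injective
  rw [h, hτ x hx, hσ x hx]

/-- The first layer is trivial. -/
theorem first (hp : p.Prime) (hpm : ℓ = p ^ m)
    {c : ℕ → (Sep F ≃ₐ[F] Sep F) → Jac ℓ f (Sep F)} (hc : TCls p ℓ f V L c)
    (hN : Preserves K F (Sep F))
    (hnt : NT (aj ℓ f) (lm F hg) (NK K F) L.fixingSubgroup) (ht : Triv hg V L.fixingSubgroup) :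
    ∃ Q : Jac ℓ f (Sep F), Tor hg Q ∧ ∀ σ, Over L σ →
      pe hg (Sep F) (uu ℓ) (c m σ) = jm ℓ f (rs K σ) Q - Q := by
  have hsm : ∀ x : Jac ℓ f (Sep F), ℓ • x = p ^ m • x := fun x => congrArg (fun n : ℕ => n • x) hpm
  have hcoc : IsCocL ℓ f L (fun σ => pe hg (Sep F) (uu ℓ) (c m σ)) := by
    refine ⟨fun σ hσ => ?_, fun σ τ hσ hτ => ?_⟩
    · obtain ⟨O, h1, h2, h3⟩ := (hc.tc.coc m).lc σ hσ
      exact ⟨O, h1, h2, fun τ hτ hτ' => by
        show pe hg (Sep F) (uu ℓ) (c m τ) = _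
        rw [h3 τ hτ hτ']⟩
    · show pe hg (Sep F) (uu ℓ) (c m (σ * τ)) = pe hg (Sep F) (uu ℓ) (c m σ) +
        jm ℓ f (rs K σ) (pe hg (Sep F) (uu ℓ) (c m τ))
      rw [(hc.tc.coc m).mul σ τ hσ hτ, map_add, jm_pe]
  have htor : ∀ σ, Over L σ → Tor hg (pe hg (Sep F) (uu ℓ) (c m σ)) := by
    intro σ hσ
    unfold Tor
    rw [uu_mul' hyps, hsm]
    have h1 := tc_powL hc.tc m 0 hσ
    rw [add_zero, hc.tc.zero σ hσ] at h1
    exact h1
  obtain ⟨Q, hQ, h⟩ := ht _ (cls_of hcoc htor (fun v hv ι => by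
      obtain ⟨P, hP⟩ := hc.loc m v hv ι
      refine ⟨pe hg _ (uu ℓ) P, fun τ σ hσ h => ?_⟩
      rw [jm_pe, hP τ σ hσ h, map_sub, jm_pe]) hN (fun τ hτ => by
    obtain ⟨M, Q, hQ, hinv⟩ := hc.inv τ hτ
    have hQm : Q M = 0 := by
      refine no_powL hp hpm hnt M (Q M) ?_ fun σ hσ => ?_
      · have := tm_powL hQ M 0
        rw [add_zero, hQ.zero] at this
        exact this
      obtain ⟨σ', hσ'⟩ := exists_conj hN τ σ
      have hov := over_conj hτ hσ' hσ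
      have h1 := hinv M σ σ' hσ hov hσ'
      have h3 := tc_powL hc.tc M 0 hσ
      have h4 := tc_powL hc.tc M 0 hov
      rw [add_zero, hc.tc.zero _ hσ] at h3
      rw [add_zero, hc.tc.zero _ hov] at h4
      rw [smul_sub, ← map_nsmul, h3, h4, map_zero, sub_zero] at h1
      exact (sub_eq_zero.1 h1.symm)
    refine ⟨pe hg (Sep F) (uu ℓ) (Q (m + M)), ?_, fun σ σ' hσ hσ' h => ?_⟩
    · unfold Tor
      rw [uu_mul' hyps, hsm, tm_powL hQ, hQm]
    · have h1 := hinv (M + m) σ σ' hσ hσ' h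
      rw [smul_sub, ← map_nsmul, tc_powL hc.tc M m hσ', tc_powL hc.tc M m hσ] at h1
      rw [jm_pe, ← map_sub, h1, map_sub, jm_pe, add_comm M m]))
  refine ⟨Q, hQ, fun σ hσ => ?_⟩
  have h1 := h _ ((over_iff σ).2 hσ) (rK_mem σ)
  rw [lf_apply] at h1
  exact h1

theorem cobL (L : IntermediateField K (Sep F)) (hg : Good ℓ ζ f) (Q : Jac ℓ f (Sep F)) :
    IsCocL ℓ f L (fun σ => jm ℓ f (rs K σ) Q - Q) := by
  have h := cob_isCoc (F := F) hyps hg Q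
  exact ⟨fun σ _ => ⟨_, h.lc.isOpen_fiber _, rfl, fun τ hτ _ => hτ⟩, fun σ τ _ _ => h.mul σ τ⟩

/-- Division of a class by `1 - σ`. -/
theorem div_cls (hp : p.Prime) (hpm : ℓ = p ^ m)
    {c : ℕ → (Sep F ≃ₐ[F] Sep F) → Jac ℓ f (Sep F)} (hc : TCls p ℓ f V L c)
    {R : Jac ℓ f (Sep F)} (hR : Tor hg R)
    (key : ∀ σ, Over L σ → pe hg (Sep F) (uu ℓ) (c m σ) = jm ℓ f (rs K σ) R - R) :
    ∃ (G : ℕ → Jac ℓ f (Sep F)) (c' : ℕ → (Sep F ≃ₐ[F] Sep F) → Jac ℓ f (Sep F)),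
      G 0 = 0 ∧ (∀ n, p • G (n + 1) = G n) ∧ TCls p ℓ f V L c' ∧
      ∀ n σ, Over L σ →
        c n σ = (jm ℓ f (rs K σ) (G n) - G n) + pe hg (Sep F) (1 - X) (c' n σ) := by
  have hsm : ∀ x : Jac ℓ f (Sep F), ℓ • x = p ^ m • x := fun x => congrArg (fun n : ℕ => n • x) hpm
  -- divisibility by `p`
  obtain ⟨W, hW⟩ := exists_W' (p := p) (m := m) hg hp hpm
  have hdiv : ∀ x : Jac ℓ f (Sep F), ∃ y, p • y = x := by
    intro x
    obtain ⟨y, hy⟩ := lam_pow_surj hyps hg ℓ x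
    exact ⟨pe hg _ W y, by rw [← hW, hy]⟩
  choose dv hdv using hdiv
  have hdivm : ∀ (n : ℕ) (x : Jac ℓ f (Sep F)), ∃ y, p ^ n • y = x := by
    intro n
    induction n with
    | zero => intro x; exact ⟨x, by rw [pow_zero, one_smul]⟩
    | succ n ih =>
      intro x
      obtain ⟨y, hy⟩ := ih x
      exact ⟨dv y, by rw [pow_succ, mul_smul, hdv, hy]⟩
  obtain ⟨y0, hy0⟩ := hdivm m R
  set R1 : Jac ℓ f (Sep F) := pe hg (Sep F) (1 - X) y0 with hR1'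
  have hR1 : pe hg (Sep F) (uu ℓ) R1 = R := by
    rw [hR1', uu_mul hyps, hsm, hy0]
  let G' : ℕ → Jac ℓ f (Sep F) := fun n => Nat.rec R1 (fun _ X => dv X) n
  have G'0 : G' 0 = R1 := rfl
  have G'S : ∀ n, p • G' (n + 1) = G' n := fun n => hdv _
  have G'pow : ∀ n, p ^ n • G' n = R1 := by
    intro n
    induction n with
    | zero => rw [pow_zero, one_smul, G'0]
    | succ n ih => rw [pow_succ, mul_smul, G'S, ih]
  let G : ℕ → Jac ℓ f (Sep F) := fun n => p ^ m • G' n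
  have Gm : G m = R1 := G'pow m
  have G0 : G 0 = 0 := by
    show p ^ m • R1 = _
    rw [← hsm, ← uu_mul' hyps hg, hR1]
    exact hR
  have GS : ∀ n, p • G (n + 1) = G n := by
    intro n
    show p • (p ^ m • G' (n + 1)) = p ^ m • G' n
    rw [smul_comm, G'S]
  set V' : ℤ[X] := uu ℓ with hV
  let b : ℕ → (Sep F ≃ₐ[F] Sep F) → Jac ℓ f (Sep F) := fun n σ =>
    c n σ - (jm ℓ f (rs K σ) (G n) - G n)
  let c' : ℕ → (Sep F ≃ₐ[F] Sep F) → Jac ℓ f (Sep F) := fun n σ => pe hg (Sep F) V' (b (n + m) σ)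
  have bS : ∀ n σ, Over L σ → p • b (n + 1) σ = b n σ := by
    intro n σ hσ
    show p • (c (n + 1) σ - (jm ℓ f (rs K σ) (G (n + 1)) - G (n + 1))) = _
    rw [smul_sub, smul_sub, ← map_nsmul, GS, hc.tc.step n σ hσ]
  have bpow : ∀ k n σ, Over L σ → p ^ k • b (n + k) σ = b n σ := by
    intro k
    induction k with
    | zero => intro n σ _; rw [pow_zero, one_smul, add_zero]
    | succ k ih => intro n σ hσ; rw [pow_succ, mul_smul, ← add_assoc, bS _ σ hσ, ih n σ hσ]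
  have hlam : ∀ n σ, Over L σ → pe hg (Sep F) (1 - X) (c' n σ) = b n σ := by
    intro n σ hσ
    show pe hg (Sep F) (1 - X) (pe hg (Sep F) V' (b (n + m) σ)) = _
    rw [hV, uu_mul' hyps, hsm, bpow m n σ hσ]
  refine ⟨G, c', G0, GS, ⟨⟨fun n => ⟨fun σ hσ => ?_, fun σ τ hσ hτ => ?_⟩, fun σ hσ => ?_,
    fun n σ hσ => ?_⟩, fun n v hv ι => ?_, fun τ hτ => ?_⟩, fun n σ hσ => ?_⟩
  · obtain ⟨O, h1, h2, h3⟩ := (hc.tc.coc (n + m)).lc σ hσ
    obtain ⟨O', h1', h2', h3'⟩ := (cobL L hg (G (n + m))).lc σ hσ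
    refine ⟨O ∩ O', h1.inter h1', ⟨h2, h2'⟩, fun τ hτ hτ' => ?_⟩
    have e1 := h3' τ hτ.2 hτ'
    have e2 := h3 τ hτ.1 hτ'
    show pe hg (Sep F) V' (c (n + m) τ - (jm ℓ f (rs K τ) (G (n + m)) - G (n + m))) =
      pe hg (Sep F) V' (c (n + m) σ - (jm ℓ f (rs K σ) (G (n + m)) - G (n + m)))
    rw [e2, e1]
  · have h1 := (hc.tc.coc (n + m)).mul σ τ hσ hτ
    have h3 := (cobL L hg (G (n + m))).mul σ τ hσ hτ
    show pe hg (Sep F) V' (c (n + m) (σ * τ) -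
        (jm ℓ f (rs K (σ * τ)) (G (n + m)) - G (n + m))) =
      pe hg (Sep F) V' (c (n + m) σ - (jm ℓ f (rs K σ) (G (n + m)) - G (n + m))) +
        jm ℓ f (rs K σ) (pe hg (Sep F) V' (c (n + m) τ -
          (jm ℓ f (rs K τ) (G (n + m)) - G (n + m))))
    rw [h1, h3, jm_pe, ← map_add, map_sub (jm ℓ f (rs K σ)) (c (n + m) τ)]
    congr 1
    abel
  · show pe hg (Sep F) V' (b (0 + m) σ) = 0
    rw [zero_add]
    show pe hg (Sep F) (uu ℓ) (c m σ - (jm ℓ f (rs K σ) (G m) - G m)) = 0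
    rw [map_sub, key σ hσ, map_sub, ← jm_pe, Gm, hR1, sub_self]
  · show p • pe hg (Sep F) V' (b (n + 1 + m) σ) = pe hg (Sep F) V' (b (n + m) σ)
    rw [← map_nsmul, show n + 1 + m = (n + m) + 1 by omega, bS _ σ hσ]
  · obtain ⟨P, hP⟩ := hc.loc (n + m) v hv ι
    refine ⟨pe hg _ V' (P - jm ℓ f (ι.restrictScalars K) (G (n + m))), fun τ σ hσ h => ?_⟩
    have h5 : (ι.restrictScalars K).comp (rs K σ) = (rs K τ).comp (ι.restrictScalars K) :=
      AlgHom.ext fun x => (h x).symm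
    have h4 : jm ℓ f (ι.restrictScalars K) (jm ℓ f (rs K σ) (G (n + m))) =
        jm ℓ f (rs K τ) (jm ℓ f (ι.restrictScalars K) (G (n + m))) := by
      rw [jm_jm, jm_jm, h5]
    show jm ℓ f (ι.restrictScalars K) (pe hg (Sep F) V' (c (n + m) σ -
      (jm ℓ f (rs K σ) (G (n + m)) - G (n + m)))) = _
    rw [jm_pe, jm_pe, ← map_sub, map_sub (jm ℓ f (ι.restrictScalars K)),
      map_sub (jm ℓ f (ι.restrictScalars K)), hP τ σ hσ h, h4, map_sub (jm ℓ f (rs K τ))]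
    congr 1
    abel
  · obtain ⟨M, Q, hQ, hinv⟩ := hc.inv τ hτ
    -- the element for `b`
    let Q' : ℕ → Jac ℓ f (Sep F) := fun n => Q n - p ^ M • (jm ℓ f (ak τ) (G n) - G n)
    have Q'0 : Q' 0 = 0 := by
      show Q 0 - p ^ M • (jm ℓ f (ak τ) (G 0) - G 0) = 0
      rw [hQ.zero, G0, map_zero, sub_self, smul_zero, sub_zero]
    have Q'S : ∀ n, p • Q' (n + 1) = Q' n := by
      intro n
      show p • (Q (n + 1) - p ^ M • (jm ℓ f (ak τ) (G (n + 1)) - G (n + 1))) = _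
      rw [smul_sub, hQ.step, smul_comm, smul_sub, ← map_nsmul, GS]
    have Q'pow : ∀ k n, p ^ k • Q' (n + k) = Q' n := by
      intro k
      induction k with
      | zero => intro n; rw [pow_zero, one_smul, add_zero]
      | succ k ih => intro n; rw [pow_succ, mul_smul, ← add_assoc, Q'S, ih]
    have hb : ∀ (n : ℕ) (σ σ' : Sep F ≃ₐ[F] Sep F), Over L σ → Over L σ' →
        (∀ x, τ (σ' x) = σ (τ x)) →
        p ^ M • (jm ℓ f (ak τ) (b n σ') - b n σ) = jm ℓ f (rs K σ) (Q' n) - Q' n := by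
      intro n σ σ' hσ hσ' h
      have h1 := hinv n σ σ' hσ hσ' h
      have hcomp : jm ℓ f (ak τ) (jm ℓ f (rs K σ') (G n)) =
          jm ℓ f (rs K σ) (jm ℓ f (ak τ) (G n)) := by
        have h5 : (ak τ).comp (rs K σ') = (rs K σ).comp (ak τ) := AlgHom.ext fun x => h x
        rw [jm_jm, jm_jm, h5]
      show p ^ M • (jm ℓ f (ak τ) (c n σ' - (jm ℓ f (rs K σ') (G n) - G n)) -
        (c n σ - (jm ℓ f (rs K σ) (G n) - G n))) =
        jm ℓ f (rs K σ) (Q n - p ^ M • (jm ℓ f (ak τ) (G n) - G n)) -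
          (Q n - p ^ M • (jm ℓ f (ak τ) (G n) - G n))
      rw [map_sub (jm ℓ f (ak τ)), map_sub (jm ℓ f (ak τ)), hcomp]
      have h4 : jm ℓ f (ak τ) (c n σ') -
          (jm ℓ f (rs K σ) (jm ℓ f (ak τ) (G n)) - jm ℓ f (ak τ) (G n)) -
          (c n σ - (jm ℓ f (rs K σ) (G n) - G n)) =
          (jm ℓ f (ak τ) (c n σ') - c n σ) -
          (jm ℓ f (rs K σ) (jm ℓ f (ak τ) (G n) - G n) - (jm ℓ f (ak τ) (G n) - G n)) := by
        rw [map_sub (jm ℓ f (rs K σ))]; abel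
      rw [h4, smul_sub, h1, map_sub (jm ℓ f (rs K σ)) (Q n), map_nsmul (jm ℓ f (rs K σ)), smul_sub]
      abel
    refine ⟨m + M, fun n => pe hg (Sep F) V' (Q' n), ⟨?_, fun n => ?_⟩, ?_⟩
    · show pe hg (Sep F) V' (Q' 0) = 0
      rw [Q'0, map_zero]
    · show p • (pe hg (Sep F) V' (Q' (n + 1))) = pe hg (Sep F) V' (Q' n)
      rw [← map_nsmul (pe hg (Sep F) V'), Q'S]
    · intro n σ σ' hσ hσ' h
      have h1 := hb (n + m) σ σ' hσ hσ' h
      show p ^ (m + M) • (jm ℓ f (ak τ) (pe hg (Sep F) V' (b (n + m) σ')) -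
        pe hg (Sep F) V' (b (n + m) σ)) = jm ℓ f (rs K σ) (pe hg (Sep F) V' (Q' n)) -
          pe hg (Sep F) V' (Q' n)
      rw [jm_pe, ← map_sub, pow_add, mul_smul, ← map_nsmul, h1, ← map_nsmul, smul_sub,
        ← map_nsmul (jm ℓ f (rs K σ)), Q'pow, map_sub, jm_pe]
  · rw [hlam n σ hσ]
    show c n σ = (jm ℓ f (rs K σ) (G n) - G n) + (c n σ - (jm ℓ f (rs K σ) (G n) - G n))
    abel

/-- **The Tate conjecture over `L`.** -/
theorem tate_of (hp : p.Prime) (hpm : ℓ = p ^ m) (hN : Preserves K F (Sep F))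
    (hnt : NT (aj ℓ f) (lm F hg) (NK K F) L.fixingSubgroup) (ht : Triv hg V L.fixingSubgroup) :
    TateOver p ℓ f L k' := by
  have key : ∀ (N : ℕ) (c : ℕ → (Sep F ≃ₐ[F] Sep F) → Jac ℓ f (Sep F)), TCls p ℓ f V L c →
      ∃ (G : ℕ → Jac ℓ f (Sep F)) (c' : ℕ → (Sep F ≃ₐ[F] Sep F) → Jac ℓ f (Sep F)),
        G 0 = 0 ∧ (∀ n, p • G (n + 1) = G n) ∧ TCls p ℓ f V L c' ∧
        ∀ n σ, Over L σ →
          c n σ = (jm ℓ f (rs K σ) (G n) - G n) + pe hg (Sep F) ((1 - X) ^ N) (c' n σ) := by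
    intro N
    induction N with
    | zero =>
      intro c hc
      refine ⟨fun _ => 0, c, rfl, fun n => smul_zero _, hc, fun n σ _ => ?_⟩
      rw [map_zero, sub_zero, zero_add, pow_zero, pe_one]
    | succ N ih =>
      intro c hc
      obtain ⟨R, hR, hcR⟩ := first hp hpm hc hN hnt ht
      obtain ⟨G1, c1, h1, h3, h4, h5⟩ := div_cls hp hpm hc hR hcR
      obtain ⟨G2, c2, h6, h7, h8, h9⟩ := ih c1 h4
      refine ⟨fun n => G1 n + pe hg (Sep F) (1 - X) (G2 n), c2, ?_, fun n => ?_, h8,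
        fun n σ hσ => ?_⟩
      · show G1 0 + pe hg (Sep F) (1 - X) (G2 0) = _
        rw [h1, h6, map_zero, add_zero]
      · show p • (G1 (n + 1) + pe hg (Sep F) (1 - X) (G2 (n + 1))) = _
        rw [smul_add, h3, ← map_nsmul, h7]
      · show c n σ = (jm ℓ f (rs K σ) (G1 n + pe hg (Sep F) (1 - X) (G2 n)) -
          (G1 n + pe hg (Sep F) (1 - X) (G2 n))) + pe hg (Sep F) ((1 - X) ^ (N + 1)) (c2 n σ)
        rw [h5 n σ hσ, h9 n σ hσ, map_add, map_sub, ← pe_mul, ← pow_succ', map_add, jm_pe]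
        abel
  intro c hc hl hi n
  obtain ⟨W, hW⟩ := exists_W' (p := p) (m := m) hg hp hpm
  obtain ⟨G, c', h0, h1, h3, h4⟩ := key (ℓ * n) c ⟨hc, fun n v _ => (hl n).1 v, hi⟩
  have hz : ∀ (n : ℕ) (σ : Sep F ≃ₐ[F] Sep F), Over L σ → p ^ n • c' n σ = 0 := by
    intro n σ hσ
    have h5 := tc_powL h3.tc n 0 hσ
    rwa [add_zero, h3.tc.zero σ hσ] at h5
  have hG : ∀ n : ℕ, p ^ n • G n = 0 := by
    intro n
    induction n with
    | zero => rw [pow_zero, one_smul, h0]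
    | succ n ih => rw [pow_succ, mul_smul, h1, ih]
  refine ⟨0, G n, by rw [hG n, map_zero], fun σ hσ => ?_⟩
  rw [h4 n σ hσ, W_pow (hW (Sep F)), hz n σ hσ, map_zero, add_zero]

end div

end Pool.Agent.K6.H71.PS
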