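import Pool.Agent.Y160.FT2.All
import Pool.Agent.K6.H71.PS.Div

/-!
# The divisibility of `J(L)` by `p`
-/

set_option autoImplicit false
set_option linter.all false

open Polynomial IsDedekindDomain
open scoped Classical

namespace Pool.Agent.K6.H71.PS

open Pool.Agent.TH115.GD (incl rs ak Sep Comp CompInf Preserves exists_conj)
open Pool.Agent.K6.H71.PG (IsAct conj_N sh rK rK_apply rK_inj NK rK_mem mem_NK_iff nk_normal Stable)
open Pool.Agent.Y160.SQ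

theorem jm_injL {ℓ : ℕ} {K E Ω : Type} [Field K] [Field E] [Field Ω] [Algebra K E] [Algebra E Ω]
    [Algebra K Ω] [IsScalarTower K E Ω] {f : K[X]} {ζ : K} (hg : Good ℓ ζ f) {y : Jac ℓ f E}
    (h : jm ℓ f (incl K E Ω) y = 0) : y = 0 := by
  obtain ⟨I, hI, hIy⟩ := exists_cl hyps hg y
  have hf : (f.map (algebraMap K E)).map (algebraMap E Ω) = f.map (algebraMap K Ω) := by
    rw [Polynomial.map_map, ← IsScalarTower.algebraMap_eq]
  have h1 := cl_map hyps hg hIy (incl K E Ω)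
  have h2 := (cl_zero_iff hyps hg h1).1 h
  refine (cl_zero_iff hyps hg hIy).2
    (Pool.Agent.Y160.FT.inj_all ℓ E Ω _ _ _ hf (hg.up E) I hI ?_)
  exact h2

section pts

variable {p m ℓ : ℕ} {k' K F : Type} [Field k'] [Field K] [Field F] [Algebra K F] [Algebra k'[X] F]
  [IsFractionRing k'[X] F] {f : K[X]} {ζ : K} {hg : Good ℓ ζ f}
  {V : Set (HeightOneSpectrum k'[X])} {L : IntermediateField K (Sep F)}

/-- The divisibility by `1 - σ`. -/
theorem lam_div [IsGalois K (Sep F)] (hN : Preserves K F (Sep F))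
    (hnt : NT (aj ℓ f) (lm F hg) (NK K F) L.fixingSubgroup) (ht : Triv hg V L.fixingSubgroup)
    (x : Jac ℓ f L) : ∃ y : Jac ℓ f L, pe hg L (1 - X) y = x := by
  obtain ⟨R, hR⟩ := lam_surj hyps hg (jm ℓ f (incl K L (Sep F)) x)
  have fixP : ∀ τ : Sep F ≃ₐ[K] Sep F, (∀ x ∈ L, τ x = x) →
      jm ℓ f (ak τ) (jm ℓ f (incl K L (Sep F)) x) = jm ℓ f (incl K L (Sep F)) x := by
    intro τ hτ
    have e : (ak τ).comp (incl K L (Sep F)) = incl K L (Sep F) := AlgHom.ext fun x => hτ x x.2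
    rw [jm_jm, e]
  have comm : ∀ (τ : Sep F ≃ₐ[K] Sep F) (σ σ' : Sep F ≃ₐ[F] Sep F), (∀ x, τ (σ' x) = σ (τ x)) →
      ∀ P, jm ℓ f (ak τ) (jm ℓ f (rs K σ') P) = jm ℓ f (rs K σ) (jm ℓ f (ak τ) P) := by
    intro τ σ σ' h P
    have e0 : (ak τ).comp (rs K σ') = (rs K σ).comp (ak τ) := AlgHom.ext fun x => h x
    rw [jm_jm, jm_jm, e0]
  have htor : ∀ τ : Sep F ≃ₐ[K] Sep F, (∀ x ∈ L, τ x = x) → Tor hg (jm ℓ f (ak τ) R - R) := by
    intro τ hτ
    unfold Tor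
    rw [map_sub, ← jm_pe, hR, fixP τ hτ, sub_self]
  have hcls : Cls hg V L.fixingSubgroup (lf (K := K) fun σ : Sep F ≃ₐ[F] Sep F =>
      jm ℓ f (rs K σ) R - R) := by
    refine cls_of (cobL L hg R) (fun σ hσ => ?_) (fun v _ ι => ?_) hN (fun τ hτ => ?_)
    · exact htor (rK K F σ) hσ
    · refine ⟨jm ℓ f (ι.restrictScalars K) R, fun τ σ _ h => ?_⟩
      have e0 : (ι.restrictScalars K).comp (rs K σ) = (rs K τ).comp (ι.restrictScalars K) :=
        AlgHom.ext fun x => (h x).symm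
      rw [map_sub, jm_jm, e0, ← jm_jm]
    · refine ⟨jm ℓ f (ak τ) R - R, htor τ hτ, fun σ σ' _ _ h => ?_⟩
      rw [map_sub, comm τ σ σ' h, map_sub]
      abel
  obtain ⟨Q, hQ, h⟩ := ht _ hcls
  have h1 : ∀ σ : Sep F ≃ₐ[F] Sep F, Over L σ → jm ℓ f (rs K σ) (R - Q) = R - Q := by
    intro σ hσ
    have h3 := h _ ((over_iff σ).2 hσ) (rK_mem σ)
    rw [lf_apply] at h3
    have h4 : jm ℓ f (rs K σ) R - R = jm ℓ f (rs K σ) Q - Q := h3
    rw [map_sub, ← sub_eq_zero]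
    rw [← sub_eq_zero] at h4
    rw [← h4]
    abel
  have h2 : ∀ τ : Sep F ≃ₐ[K] Sep F, (∀ x ∈ L, τ x = x) → jm ℓ f (ak τ) (R - Q) = R - Q := by
    intro τ hτ
    rw [← sub_eq_zero]
    refine no_torL hnt ?_ fun σ hσ => ?_
    · have hQ' : Tor hg Q := hQ
      have e : jm ℓ f (ak τ) (R - Q) - (R - Q) =
          (jm ℓ f (ak τ) R - R) - (jm ℓ f (ak τ) Q - Q) := by
        rw [map_sub]
        abel
      rw [e]
      exact (htor τ hτ).sub ((hQ'.map _).sub hQ')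
    · obtain ⟨σ', hσ'⟩ := exists_conj hN τ σ
      rw [map_sub, ← comm τ σ σ' hσ', h1 σ' (over_conj hτ hσ' hσ), h1 σ hσ]
  obtain ⟨y, hy⟩ := fixed_class (E := L) (Ω := Sep F) hyps hg (R - Q) (fun τ => by
    exact h2 (τ.restrictScalars K) (fun x hx => τ.commutes (⟨x, hx⟩ : L)))
  refine ⟨y, ?_⟩
  rw [← sub_eq_zero]
  refine jm_injL (E := L) (Ω := Sep F) hg ?_
  have hQ' : pe hg (Sep F) (1 - X) Q = 0 := hQ
  rw [map_sub, jm_pe, hy, map_sub, hR, hQ', sub_zero, sub_self]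

/-- **The divisibility by `p`.** -/
theorem div_p [IsGalois K (Sep F)] (hp : p.Prime) (hpm : ℓ = p ^ m) (hN : Preserves K F (Sep F))
    (hnt : NT (aj ℓ f) (lm F hg) (NK K F) L.fixingSubgroup) (ht : Triv hg V L.fixingSubgroup) :
    Divisible p ℓ f L := by
  have hn : ∀ (n : ℕ) (x : Jac ℓ f L), ∃ y : Jac ℓ f L, pe hg L ((1 - X) ^ n) y = x := by
    intro n
    induction n with
    | zero => intro x; exact ⟨x, by rw [pow_zero, pe_one]⟩
    | succ n ih =>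
      intro x
      obtain ⟨z, hz⟩ := ih x
      obtain ⟨y, hy⟩ := lam_div hN hnt ht z
      exact ⟨y, by rw [pow_succ, pe_mul, hy, hz]⟩
  obtain ⟨W, hW⟩ := exists_W' (p := p) (m := m) hg hp hpm
  intro x
  obtain ⟨y, hy⟩ := hn ℓ x
  exact ⟨pe hg L W y, by rw [← hW, hy]⟩

end pts

end Pool.Agent.K6.H71.PS
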