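import Pool.Agent.X261.TS.Cont
import Pool.Agent.X261.TS.CritT
import Pool.Agent.K6.H71.PS.Pts

/-!
# The classes over `K`: without local conditions at the inert primes

The first theorem (`parV`) and the choice of the fields and rings (`baseN`, `contV`) follow
`Pool.Agent.X261.TS.Par`, `Pool.Agent.X261.TS.CritT` and `Pool.Agent.X261.TS.Cont` (starting files).
-/

set_option autoImplicit false
set_option linter.all false

open Polynomial IsDedekindDomain WithZero
open scoped nonZeroDivisors Classical

namespace Pool.Agent.K6.H71.PS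

open Pool.Agent.Y160.SQ Pool.Agent.Y160.SH Pool.Agent.X261.TS
open Pool.Agent.TH115.GD (incl rs ak Sep Comp CompInf IsTower rs_mul Preserves exists_conj lift_fix
  cont_rs exists_restrict exists_aut exists_kappa exists_compl_map sepKΩ preserves exists_over
  val_unram poly_integral)
open Pool.Agent.W309.TD (locConst_apply compare)
open Pool.Agent.Y160.SE (IsPw tder_map)

section par

variable {p m ℓ : ℕ} {k k' K F M B : Type} [Field k] [Field k'] [Algebra k k'] [Field K]
  [Algebra k[X] K] [Field F] [Algebra k'[X] F] [IsFractionRing k'[X] F] [Algebra K F]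
  [Field M] [Algebra F M] [Algebra K M] [IsScalarTower K F M] [Algebra M (Sep F)]
  [IsScalarTower F M (Sep F)]
  [CommRing B] [IsDedekindDomain B] [Algebra B M] [IsFractionRing B M] [Algebra k'[X] B]
  [Algebra.IsIntegral k'[X] B] [Algebra k'[X] M] [IsScalarTower k'[X] F M]
  [IsScalarTower k'[X] B M] [Module.IsTorsionFree k'[X] B]

/-- The valuations of the generator are `ℓ`-th powers: the local condition at the finite places. -/
theorem parV (hp : p.Prime) (hpm : ℓ = p ^ m) (H : Hyps) (HL : LHyps) [IsSepClosed k'] (hKF : ∀ p : k[X],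
      algebraMap K F (algebraMap k[X] K p) = algebraMap k'[X] F (p.map (algebraMap k k')))
    {f : k[X][X]} {ζ : K} (hg : Good ℓ ζ (f.map (algebraMap k[X] K))) (hfm : f.Monic)
    (hℓk : (ℓ : k') ≠ 0) {D : k[X]} {md : ℕ} (hS : SmS f D md)
    {a : Sep F} {θ z : M} (hθ : algebraMap M (Sep F) θ = a)
    (ha : Rt (f.map (algebraMap k[X] K)) a)
    {c : (Sep F ≃ₐ[F] Sep F) → Jac ℓ (f.map (algebraMap k[X] K)) (Sep F)}
    (hc : IsCoc ℓ _ c) (hc2 : ∀ σ, Tor hg (c σ))
    (hloc : ∀ v : HeightOneSpectrum k'[X], D.map (algebraMap k k') ∉ v.asIdeal →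
      LocTriv ℓ (f.map (algebraMap k[X] K)) (Comp k'[X] F v) (Sep (Comp k'[X] F v)) c) {t : Sep F} (ht : t ≠ 0)
    (hz : t ^ ℓ = algebraMap M (Sep F) z) (hk : ∀ σ : Sep F ≃ₐ[F] Sep F, σ a = a →
      σ t = chi hg a (c σ) * t) (𝔓 : HeightOneSpectrum B)
    (hDP : algebraMap k'[X] B (D.map (algebraMap k k')) ∉ 𝔓.asIdeal) : IsPw ℓ (𝔓.valuation M z) := by
  set f1 := f.map (algebraMap k[X] K) with hf1
  let v : HeightOneSpectrum k'[X] := 𝔓.under k'[X]
  haveI hlo : 𝔓.asIdeal.LiesOver v.asIdeal := ⟨rfl⟩
  have hval : ∀ x : F, v.valuation F x ^ v.asIdeal.ramificationIdx' 𝔓.asIdeal =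
      𝔓.valuation M (algebraMap F M x) := fun x =>
    HeightOneSpectrum.valuation_liesOver (A := k'[X]) M v 𝔓 x
  have he : v.asIdeal.ramificationIdx' 𝔓.asIdeal ≠ 0 :=
    Ideal.IsDedekindDomain.ramificationIdx'_ne_zero_of_liesOver 𝔓.asIdeal v.ne_bot
  obtain ⟨j, hj1, hj2, hj3⟩ := exists_compl_map v 𝔓 (algebraMap F M)
    (fun x hx => by rw [← hval]; exact pow_le_one₀ zero_le hx)
    (fun x hx => by rw [← hval]; exact pow_lt_one₀ zero_le hx he)
  let L := Comp k'[X] F v
  let E := Comp B M 𝔓
  haveI : IsScalarTower K F E := IsScalarTower.of_algebraMap_eq fun x => by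
    show algebraMap M E (algebraMap K M x) = algebraMap M E (algebraMap F M (algebraMap K F x))
    rw [← IsScalarTower.algebraMap_apply K F M]
  let j' : L →+* E := j
  have hj' : ∀ x : F, j' (algebraMap F L x) = algebraMap F E x := fun x => hj1 x
  have hjK : ∀ x : K, j' (algebraMap K L x) = algebraMap K E x := fun x => by
    rw [IsScalarTower.algebraMap_apply K F L, hj', ← IsScalarTower.algebraMap_apply K F E]
  obtain ⟨g0, G, y0, hg0, hy0, hG, hzG⟩ := locC (K := K) (F := F) (Ω := Sep F) (L := L)
    (Ω' := Sep L) (E := E) (M := M) H hg (Sep E) ha hθ j' hj' hc hc2 (hloc v hDP) ht hz hk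
  let wE : Valuation E (WithZero (Multiplicative ℤ)) :=
    (Valued.v : Valuation (𝔓.adicCompletion M) (WithZero (Multiplicative ℤ)))
  have wz : ∀ x : M, wE (algebraMap M E x) = 𝔓.valuation M x := fun x =>
    HeightOneSpectrum.valuedAdicCompletion_eq_valuation' 𝔓 x
  -- the polynomial over the integers of the completion
  let fO : (v.adicCompletionIntegers F)[X] :=
    (f.map (mapRingHom (algebraMap k k'))).map (algebraMap k'[X] (v.adicCompletionIntegers F))
  have hfO : fO.map (algebraMap (v.adicCompletionIntegers F) (v.adicCompletion F)) =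
      f1.map (algebraMap K L) := by
    show ((f.map (mapRingHom (algebraMap k k'))).map
      (algebraMap k'[X] (v.adicCompletionIntegers F))).map
      (algebraMap (v.adicCompletionIntegers F) (v.adicCompletion F)) = _
    rw [Polynomial.map_map, Polynomial.map_map, hf1, Polynomial.map_map]
    congr 1
    apply RingHom.ext
    intro p
    show algebraMap (v.adicCompletionIntegers F) (v.adicCompletion F)
      (algebraMap k'[X] (v.adicCompletionIntegers F) (p.map (algebraMap k k'))) =
      algebraMap K L (algebraMap k[X] K p)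
    rw [IsScalarTower.algebraMap_apply K F L, hKF]
    rfl
  have hroot : ((f1.map (algebraMap K L)).map j').eval (algebraMap M E θ) = 0 := by
    have h1 : eval₂ (algebraMap K M) θ f1 = 0 := by
      apply (algebraMap M (Sep F)).injective
      rw [hom_eval₂, hθ, map_zero]
      have h3 : (algebraMap M (Sep F)).comp (algebraMap K M) = algebraMap K (Sep F) :=
        RingHom.ext fun x => by
          show algebraMap M (Sep F) (algebraMap K M x) = _
          rw [IsScalarTower.algebraMap_apply K F M, ← IsScalarTower.algebraMap_apply F M (Sep F),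
            ← IsScalarTower.algebraMap_apply K F (Sep F)]
      rw [h3]
      exact ha
    rw [Polynomial.map_map]
    have h3 : j'.comp (algebraMap K L) = (algebraMap M E).comp (algebraMap K M) :=
      RingHom.ext fun x => hjK x
    rw [h3, eval_map, ← hom_eval₂, h1, map_zero]
  have hpk : (p : k') ≠ 0 := by
    intro h0
    apply hℓk
    rw [hpm, Nat.cast_pow, h0, zero_pow]
    rintro rfl
    exact hg.one_lt.ne' (by rw [hpm, pow_zero])
  have hcop : ∀ a : (IsLocalRing.ResidueField (v.adicCompletionIntegers F))[X], Irreducible a →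
      ∀ d : ℕ, d ∣ ℓ → d.Coprime a.natDegree := by
    intro a ha d hd
    have h1 := HL.res k' F v p hp hpk a ha
    refine Nat.Coprime.coprime_dvd_left hd ?_
    rw [hpm]
    exact Nat.Coprime.pow_left m h1
  have hpw : ∀ s : Multiset (ℕ × L[X]), (∀ x ∈ s, x.2.Monic ∧ Irreducible x.2 ∧
      ¬ x.2 ∣ f1.map (algebraMap K L) ∧ x.1 ∣ ℓ ∧
      ∃ c : L[X], x.2 ∣ f1.map (algebraMap K L) - c ^ x.1) →
      IsPw ℓ (wE ((((s.map fun x : ℕ × L[X] => x.2 ^ (ℓ / x.1)).prod).map j').eval (algebraMap M E θ))) := by
    intro s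
    induction s using Multiset.induction_on with
    | empty =>
      intro _
      rw [Multiset.map_zero, Multiset.prod_zero, Polynomial.map_one, eval_one, map_one]
      exact ⟨1, (one_pow _).symm⟩
    | cons x s ih =>
      intro h
      obtain ⟨h1, h3, h4, hd, c, h5⟩ := h x (Multiset.mem_cons_self x s)
      rw [Multiset.map_cons, Multiset.prod_cons, Polynomial.map_mul, eval_mul, map_mul]
      refine IsPw.mul ?_ (ih fun q hq => h q (Multiset.mem_cons_of_mem hq))
      have hd0 : 0 < x.1 := Nat.pos_of_dvd_of_pos hd hg.pos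
      obtain ⟨γ, hγ⟩ := HL.loc x.1 k'[X] F v E wE j' hj2 hj3 fO (f1.map (algebraMap K L)) x.2 c
        (algebraMap M E θ) hd0 hfO (by exact (hfm.map _).map _) (hg.up L).sep
        (fun a ha => hcop a ha x.1 hd)
        (smS k' F v _ (D.map (algebraMap k k')) md (hS.map (algebraMap k k')) hDP)
        (by
          have h6 := hg.cop
          rw [hfm.natDegree_map] at h6
          have h7 : fO.natDegree = f.natDegree := by
            show ((f.map (mapRingHom (algebraMap k k'))).map
              (algebraMap k'[X] (v.adicCompletionIntegers F))).natDegree = _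
            rw [(hfm.map _).natDegree_map, hfm.natDegree_map]
          rw [h7]
          exact Nat.Coprime.coprime_dvd_left hd h6) hroot h1 h3 h4 h5
      refine ⟨γ, ?_⟩
      rw [Polynomial.map_pow, eval_pow, map_pow]
      refine (congrArg (fun δ => δ ^ (ℓ / x.1)) hγ).trans ?_
      show (γ ^ x.1) ^ (ℓ / x.1) = γ ^ ℓ
      rw [← pow_mul, Nat.mul_div_cancel' hd]
  obtain ⟨s, hps, hGe⟩ := hG
  have hGpw : IsPw ℓ (wE ((G.map j').eval (algebraMap M E θ))) := by
    rw [hGe]
    exact hpw s hps
  rw [← wz]
  refine IsPw.of_mul (δ := wE (j' y0)) ?_ ?_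
  · rw [Valuation.ne_zero_iff]
    exact (_root_.map_ne_zero j').2 hy0
  · rw [← map_pow, ← map_mul]
    rcases hzG with h | h
    · rw [h, map_mul, map_pow, map_pow]
      exact (IsPw.self _).mul (hGpw.pow _)
    · rw [h, Valuation.map_neg, map_mul, map_pow, map_pow]
      exact (IsPw.self _).mul (hGpw.pow _)

end par

section crit

variable {p m ℓ : ℕ} {k k' K F N M R B : Type} [Field k] [Field k'] [Algebra k k'] [Field K]
  [Algebra k[X] K]
  [Field F] [Algebra k'[X] F] [IsFractionRing k'[X] F] [Algebra K F]
  [Field N] [Algebra K N] [Algebra N (Sep F)] [IsScalarTower K N (Sep F)]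
  [Field M] [Algebra F M] [Algebra K M] [IsScalarTower K F M] [Algebra M (Sep F)]
  [IsScalarTower F M (Sep F)]
  [Algebra N M] [IsScalarTower N M (Sep F)]
  [Algebra k N] [Algebra k' M] [Algebra k M] [IsScalarTower k k' M] [IsScalarTower k N M]
  [CommRing R] [IsDedekindDomain R] [Algebra R N] [IsFractionRing R N]
  [CommRing B] [IsDedekindDomain B] [Algebra B M] [IsFractionRing B M]
  [Algebra R B] [Algebra R M] [IsScalarTower R N M] [IsScalarTower R B M]
  [Algebra.IsIntegral R B] [Module.IsTorsionFree R B] [Algebra k' B] [IsScalarTower k' B M]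
  [Algebra k'[X] B] [Algebra.IsIntegral k'[X] B] [Algebra k'[X] M] [IsScalarTower k'[X] F M]
  [IsScalarTower k'[X] B M] [Module.IsTorsionFree k'[X] B]

variable (B)

include B

/-- A class killed by `1 - σ` which is locally trivial outside `D` is a coboundary. -/
theorem baseM (hp : p.Prime) (hpm : ℓ = p ^ m) (H : Hyps) (HL : LHyps) (hT : IsTower k k' K F)
    {f : k[X][X]} {ζ : K} (hg : Good ℓ ζ (f.map (algebraMap k[X] K))) (hfm : f.Monic)
    (hℓk : (ℓ : k') ≠ 0) {D : k[X]} {md : ℕ} (hS : SmS f D md)
    (hirr : Irreducible ((f.map (algebraMap k[X] K)).map (algebraMap K F)))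
    {a : Sep F} (ha : Rt (f.map (algebraMap k[X] K)) a)
    {θ : N} (hθ : algebraMap N (Sep F) θ = a) (hNtop : IntermediateField.adjoin K {θ} = ⊤)
    (htop : IntermediateField.adjoin N (Set.range (algebraMap k' M)) = ⊤)
    (hpts : ∀ z : N, z ≠ 0 → (∀ v : HeightOneSpectrum R, (∀ w : HeightOneSpectrum B,
        w.under R = v → algebraMap k'[X] B (D.map (algebraMap k k')) ∉ w.asIdeal) →
        IsPw ℓ (v.valuation N z)) → (∃ y : K, Algebra.norm K z = y ^ ℓ) →
      ∃ g : N, g ≠ 0 ∧ z = g ^ ℓ)
    {d : (Sep F ≃ₐ[F] Sep F) → Jac ℓ (f.map (algebraMap k[X] K)) (Sep F)} (hd : IsCoc ℓ _ d)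
    (hd2 : ∀ σ, Tor hg (d σ))
    (hdl : ∀ v : HeightOneSpectrum k'[X], D.map (algebraMap k k') ∉ v.asIdeal →
      LocTriv ℓ (f.map (algebraMap k[X] K)) (Comp k'[X] F v) (Sep (Comp k'[X] F v)) d)
    (hdi : InvOne hg d) :
    ∃ R' : Jac ℓ (f.map (algebraMap k[X] K)) (Sep F), Tor hg R' ∧
      ∀ σ, d σ = jm ℓ (f.map (algebraMap k[X] K)) (rs K σ) R' - R' := by
  haveI := hT.sep
  haveI := hT.fracK
  haveI : IsSepClosed k' := IsSepClosure.sep_closed k
  haveI : IsGalois k k' := inferInstance
  have hKF := hT.map
  haveI : IsSepClosure K (Sep F) := sepKΩ hKF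
  haveI : Algebra.IsSeparable K (Sep F) := IsSepClosure.separable
  haveI : IsGalois K (Sep F) := inferInstance
  obtain ⟨g, hgl, hmul, hg2, hgF⟩ :=
    Pool.Agent.Y160.SQ.ext_coc H hg hirr (preserves hKF) hd hd2 hdi
  obtain ⟨t, z, ht, hz, hk⟩ := kummerN H hg ha hθ hNtop hgl hmul hg2
  have hz0 : z ≠ 0 := by
    rintro rfl
    rw [map_zero] at hz
    exact pow_ne_zero ℓ ht hz
  have hkF : ∀ σ : Sep F ≃ₐ[F] Sep F, σ a = a → σ t = chi hg a (d σ) * t := by
    intro σ hσ
    have h1 := hk (σ.restrictScalars K) hσ
    rw [hgF] at h1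
    exact h1
  have hirrK0 : Irreducible (f.map (algebraMap k[X] K)) :=
    Polynomial.Monic.irreducible_of_irreducible_map (algebraMap K F) _ hg.monic hirr
  obtain ⟨g0, hg0, hzg⟩ := hpts z hz0 (fun v hvD => by
    obtain ⟨w, rfl⟩ := exists_over (B := B) v
    rw [← val_unram k (R := R) htop w]
    have hθM : algebraMap M (Sep F) (algebraMap N M θ) = a := by
      rw [← IsScalarTower.algebraMap_apply N M (Sep F), hθ]
    exact parV hp hpm H HL hKF hg hfm hℓk hS hθM ha hd hd2 hdl ht (by
      rw [← IsScalarTower.algebraMap_apply N M (Sep F), hz]) hkF w (hvD w rfl))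
    (Pool.Agent.Y474.SH.stShaN ℓ K N (Sep F)
      (f.map (algebraMap k[X] K)) ζ hg H hirrK0 a θ ha hθ hNtop g hmul hg2 t z ht hz hk)
  set G : Sep F := algebraMap N (Sep F) g0 with hG
  have hG0 : G ≠ 0 := (_root_.map_ne_zero _).2 hg0
  obtain ⟨i, hi⟩ : ∃ i : ℕ, t = algebraMap K (Sep F) (ζ ^ i) * G := by
    have h1 : (t / G) ^ ℓ = 1 := by
      rw [div_pow, hz, hzg, map_pow, ← hG, div_self (pow_ne_zero _ hG0)]
    haveI := NeZero.mk hg.ne
    obtain ⟨i, -, hi⟩ := (hg.up (Sep F)).root.eq_pow_of_pow_eq_one h1
    refine ⟨i, ?_⟩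
    rw [map_pow, hi, div_mul_cancel₀ _ hG0]
  have hfixN : ∀ σ : Sep F ≃ₐ[F] Sep F, σ a = a → ∀ y : N,
      σ (algebraMap N (Sep F) y) = algebraMap N (Sep F) y := by
    intro σ hσ y
    obtain ⟨τ', hτ'⟩ := lift_fix hNtop (σ.restrictScalars K) (by rw [hθ]; exact hσ)
    have h1 := hτ' (algebraMap N (Sep F) y)
    rw [τ'.commutes] at h1
    exact h1.symm
  refine cob1 H hg hirr ha hd.mul hd2 fun σ hσ => ?_
  have h1 := hkF σ hσ
  have h3 : σ t = t := by
    rw [hi, map_mul, hfixN σ hσ]
    congr 1
    exact (rs K σ).commutes _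
  rw [h3] at h1
  exact (mul_right_cancel₀ ht (by rw [one_mul]; exact h1.symm))

end crit

section critN

variable {p m ℓ : ℕ} {k k' K F N : Type} [Field k] [Field k'] [Algebra k k'] [Field K] [Algebra k[X] K]
  [Field F] [Algebra k'[X] F] [IsFractionRing k'[X] F] [Algebra K F]
  [Field N] [Algebra K N] [Algebra k[X] N] [IsScalarTower k[X] K N]
  {R : Type} [CommRing R] [IsDedekindDomain R] [Algebra R N] [IsFractionRing R N]
  [Algebra k[X] R] [IsScalarTower k[X] R N] [Algebra.IsIntegral k[X] R]

/-- The same with a fixed embedding of `N` in the separable closure. -/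
theorem baseN [Algebra N (Sep F)] [IsScalarTower K N (Sep F)] (hp : p.Prime) (hpm : ℓ = p ^ m)
    (H : Hyps) (HL : LHyps)
    (hT : IsTower k k' K F) {f : k[X][X]} {ζ : K}
    (hg : Good ℓ ζ (f.map (algebraMap k[X] K))) (hfm : f.Monic) (hℓk : (ℓ : k') ≠ 0)
    {D : k[X]} {md : ℕ} (hS : SmS f D md) (hirr : Irreducible ((f.map (algebraMap k[X] K)).map (algebraMap K F)))
    {θ : N} (hθ : aeval θ (f.map (algebraMap k[X] K)) = 0)
    (hNtop : IntermediateField.adjoin K {θ} = ⊤)
    (hpts : ∀ z : N, z ≠ 0 → (∀ v : HeightOneSpectrum R, algebraMap k[X] R D ∉ v.asIdeal →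
      IsPw ℓ (v.valuation N z)) → (∃ y : K, Algebra.norm K z = y ^ ℓ) →
      ∃ g : N, g ≠ 0 ∧ z = g ^ ℓ)
    {d : (Sep F ≃ₐ[F] Sep F) → Jac ℓ (f.map (algebraMap k[X] K)) (Sep F)} (hd : IsCoc ℓ _ d)
    (hd2 : ∀ σ, Tor hg (d σ))
    (hdl : ∀ v : HeightOneSpectrum k'[X], D.map (algebraMap k k') ∉ v.asIdeal →
      LocTriv ℓ (f.map (algebraMap k[X] K)) (Comp k'[X] F v) (Sep (Comp k'[X] F v)) d)
    (hdi : InvOne hg d) :
    ∃ R' : Jac ℓ (f.map (algebraMap k[X] K)) (Sep F), Tor hg R' ∧
      ∀ σ, d σ = jm ℓ (f.map (algebraMap k[X] K)) (rs K σ) R' - R' := by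
  haveI := hT.sep
  haveI := hT.fracK
  haveI : IsGalois k k' := inferInstance
  have hKF := hT.map
  haveI : IsSepClosure K (Sep F) := sepKΩ hKF
  haveI : Algebra.IsSeparable K (Sep F) := IsSepClosure.separable
  haveI : IsGalois K (Sep F) := inferInstance
  set a : Sep F := algebraMap N (Sep F) θ with ha
  have haR : Rt (f.map (algebraMap k[X] K)) a := by
    have h1 : aeval a (f.map (algebraMap k[X] K)) = 0 := by
      rw [ha, aeval_algebraMap_apply, hθ, map_zero]
    exact h1
  have hKN : ∀ x : K, algebraMap N (Sep F) (algebraMap K N x) =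
      algebraMap F (Sep F) (algebraMap K F x) := fun x => by
    rw [← IsScalarTower.algebraMap_apply K N (Sep F), ← IsScalarTower.algebraMap_apply K F (Sep F)]
  -- the field `M`
  let S : IntermediateField F (Sep F) := IntermediateField.adjoin F {a}
  haveI : FiniteDimensional F S := IntermediateField.adjoin.finiteDimensional
    (Algebra.IsIntegral.isIntegral (R := F) a)
  haveI : Algebra.IsSeparable F S := inferInstance
  have hmem : ∀ x : N, algebraMap N (Sep F) x ∈ S := by
    intro x
    have hx : x ∈ (⊤ : IntermediateField K N) := trivial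
    rw [← hNtop] at hx
    refine IntermediateField.adjoin_induction K
      (p := fun x _ => algebraMap N (Sep F) x ∈ S) ?_ ?_ ?_ ?_ ?_ hx
    · intro y hy
      rw [Set.mem_singleton_iff] at hy
      subst hy
      exact IntermediateField.mem_adjoin_simple_self F a
    · intro y
      rw [hKN]
      exact S.algebraMap_mem _
    · intro x y _ _ hx hy
      rw [map_add]; exact add_mem hx hy
    · intro x _ hx
      rw [map_inv₀]; exact inv_mem hx
    · intro x y _ _ hx hy
      rw [map_mul]; exact mul_mem hx hy
  let M : Type := S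
  letI : Algebra N M := ((algebraMap N (Sep F)).codRestrict S hmem).toAlgebra
  haveI : IsScalarTower N M (Sep F) := IsScalarTower.of_algebraMap_eq fun x => rfl
  haveI : IsScalarTower K F M := IsScalarTower.of_algebraMap_eq fun x => Subtype.ext
    (IsScalarTower.algebraMap_apply K F (Sep F) x)
  letI : Algebra k N := ((algebraMap k[X] N).comp C).toAlgebra
  letI : Algebra k' M := ((algebraMap F M).comp ((algebraMap k'[X] F).comp C)).toAlgebra
  letI : Algebra k M := ((algebraMap k' M).comp (algebraMap k k')).toAlgebra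
  haveI : IsScalarTower k k' M := IsScalarTower.of_algebraMap_eq fun x => rfl
  have hkX : ∀ p : k[X], algebraMap N (Sep F) (algebraMap k[X] N p) =
      algebraMap F (Sep F) (algebraMap k'[X] F (p.map (algebraMap k k'))) := by
    intro p
    rw [IsScalarTower.algebraMap_apply k[X] K N, hKN, hKF]
  have hkN : ∀ x : k, algebraMap N (Sep F) (algebraMap k N x) =
      algebraMap F (Sep F) (algebraMap k'[X] F (C (algebraMap k k' x))) := by
    intro x
    have := hkX (C x)
    rwa [map_C] at this
  haveI : IsScalarTower k N M := IsScalarTower.of_algebraMap_eq fun x => Subtype.ext (hkN x).symm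
  letI : Algebra k'[X] M := ((algebraMap F M).comp (algebraMap k'[X] F)).toAlgebra
  haveI : IsScalarTower k'[X] F M := IsScalarTower.of_algebraMap_eq fun x => rfl
  -- the ring `R`
  haveI : FiniteDimensional K N := by
    have hint : IsIntegral K θ := by
      have h1 : IsIntegral K a := Algebra.IsIntegral.isIntegral a
      exact (isIntegral_algebraMap_iff (algebraMap N (Sep F)).injective).1 h1
    haveI := IntermediateField.adjoin.finiteDimensional hint
    rw [hNtop] at this
    exact (IntermediateField.topEquiv (F := K) (E := N)).toLinearEquiv.finiteDimensional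
  haveI : Algebra.IsSeparable K N := Algebra.isSeparable_tower_bot_of_isSeparable K N (Sep F)
  haveI : IsDedekindDomain (integralClosure k'[X] M) := integralClosure.isDedekindDomain k'[X] F M
  haveI : IsFractionRing (integralClosure k'[X] M) M :=
    integralClosure.isFractionRing_of_finite_extension F M
  letI : Algebra R M := ((algebraMap N M).comp (algebraMap R N)).toAlgebra
  haveI : IsScalarTower R N M := IsScalarTower.of_algebraMap_eq fun x => rfl
  have hRB : ∀ r : R, algebraMap N M (algebraMap R N r) ∈ integralClosure k'[X] M := by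
    intro r
    have h1 : IsIntegral k[X] (algebraMap R N r) :=
      (Algebra.IsIntegral.isIntegral (R := k[X]) r).algebraMap
    exact IsIntegral.map_of_comp_eq (mapRingHom (algebraMap k k')) (algebraMap N M) (by
      ext p
      · exact (hkX (C p)).symm
      · exact (hkX X).symm) h1
  letI : Algebra R (integralClosure k'[X] M) :=
    (((algebraMap N M).comp (algebraMap R N)).codRestrict
      (integralClosure k'[X] M) hRB).toAlgebra
  haveI : IsScalarTower R (integralClosure k'[X] M) M :=
    IsScalarTower.of_algebraMap_eq fun x => rfl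
  letI : Algebra k' (integralClosure k'[X] M) :=
    ((algebraMap k'[X] (integralClosure k'[X] M)).comp C).toAlgebra
  haveI : IsScalarTower k' (integralClosure k'[X] M) M :=
    IsScalarTower.of_algebraMap_eq fun x => rfl
  haveI : Algebra.IsIntegral R (integralClosure k'[X] M) := by
    have h1 : (mapRingHom (algebraMap k k')).IsIntegral := poly_integral
    have h3 : (algebraMap k'[X] (integralClosure k'[X] M)).IsIntegral := fun x =>
      Algebra.IsIntegral.isIntegral (R := k'[X]) x
    have h4 := RingHom.IsIntegral.trans _ _ h1 h3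
    have h5 : (algebraMap k'[X] (integralClosure k'[X] M)).comp (mapRingHom (algebraMap k k')) =
        (algebraMap R (integralClosure k'[X] M)).comp
          (algebraMap k[X] R) := by
      apply RingHom.ext
      intro p
      apply Subtype.ext
      apply Subtype.ext
      show algebraMap F (Sep F) (algebraMap k'[X] F (p.map (algebraMap k k'))) =
        algebraMap N (Sep F) (algebraMap R N (algebraMap k[X] R p))
      rw [← IsScalarTower.algebraMap_apply k[X] R N]
      exact (hkX p).symm
    rw [h5] at h4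
    exact ⟨RingHom.IsIntegral.tower_top _ _ h4⟩
  haveI : Module.IsTorsionFree R (integralClosure k'[X] M) := by
    rw [Module.isTorsionFree_iff_algebraMap_injective]
    intro x y h
    have h1 := congrArg (algebraMap (integralClosure k'[X] M) M) h
    rw [← IsScalarTower.algebraMap_apply R (integralClosure k'[X] M) M,
      ← IsScalarTower.algebraMap_apply R (integralClosure k'[X] M) M] at h1
    exact IsFractionRing.injective R N ((algebraMap N M).injective h1)
  haveI : Module.IsTorsionFree k'[X] (integralClosure k'[X] M) := by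
    rw [Module.isTorsionFree_iff_algebraMap_injective]
    intro x y h
    have h1 := congrArg (algebraMap (integralClosure k'[X] M) M) h
    apply IsFractionRing.injective k'[X] F
    exact (algebraMap F M).injective h1
  -- `M` is generated by the constants
  have htop : IntermediateField.adjoin N (Set.range (algebraMap k' M)) = ⊤ := by
    set T : IntermediateField N M := IntermediateField.adjoin N (Set.range (algebraMap k' M)) with hT'
    have hpoly : ∀ p : k'[X], algebraMap F M (algebraMap k'[X] F p) ∈ T := by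
      intro p
      induction p using Polynomial.induction_on' with
      | add p q hp hq => rw [map_add, map_add]; exact add_mem hp hq
      | monomial n c =>
        rw [← C_mul_X_pow_eq_monomial, map_mul, map_mul, map_pow, map_pow]
        refine mul_mem (IntermediateField.subset_adjoin N _ ⟨c, rfl⟩) (pow_mem ?_ n)
        have h1 : algebraMap F M (algebraMap k'[X] F X) = algebraMap N M (algebraMap k[X] N X) := by
          apply Subtype.ext
          have := hkX X
          rw [map_X] at this
          exact this.symm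
        rw [h1]
        exact T.algebraMap_mem _
    have hF : ∀ x : F, algebraMap F M x ∈ T := by
      intro x
      obtain ⟨n, d, hd, rfl⟩ := IsFractionRing.div_surjective (A := k'[X]) x
      rw [map_div₀]
      exact div_mem (hpoly n) (hpoly d)
    rw [eq_top_iff]
    rintro ⟨x, hx⟩ -
    refine IntermediateField.adjoin_induction F
      (p := fun x hx => (⟨x, hx⟩ : M) ∈ T) ?_ ?_ ?_ ?_ ?_ hx
    · intro y hy
      rw [Set.mem_singleton_iff] at hy
      subst hy
      exact T.algebraMap_mem θ
    · intro y
      exact hF y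
    · intro x y _ _ hx hy
      exact add_mem hx hy
    · intro x _ hx
      exact inv_mem hx
    · intro x y _ _ hx hy
      exact mul_mem hx hy
  have e1 : algebraMap k'[X] (integralClosure k'[X] M) (D.map (algebraMap k k')) =
      algebraMap R (integralClosure k'[X] M) (algebraMap k[X] R D) := by
    apply Subtype.ext
    apply Subtype.ext
    show algebraMap F (Sep F) (algebraMap k'[X] F (D.map (algebraMap k k'))) =
      algebraMap N (Sep F) (algebraMap R N (algebraMap k[X] R D))
    rw [← IsScalarTower.algebraMap_apply k[X] R N]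
    exact (hkX D).symm
  refine baseM (M := M) (R := R) (integralClosure k'[X] M) hp hpm H HL hT hg hfm hℓk hS hirr haR rfl
    hNtop htop (fun z hz hev hnm => hpts z hz (fun v hv => hev v fun w hw hDw => hv ?_) hnm)
    hd hd2 hdl hdi
  rw [e1] at hDw
  rw [← hw]
  exact hDw

end critN

end Pool.Agent.K6.H71.PS
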