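import Pool.Agent.K6.H71.PS.Ex
import Pool.Agent.K6.H71.PG.Count

/-!
# One third of the primes are inert for cubic polynomials
-/

set_option autoImplicit false
set_option linter.all false

open Polynomial IsDedekindDomain
open scoped Classical

namespace Pool.Agent.K6.H71.PS

open Pool.Agent.K6.H71.PT (IsInertProduct cubic)

variable {k : Type} [Field k]

theorem inert_assoc {f : k[X][X]} {D : k[X]} (hD : Irreducible D)
    (h : Irreducible (f.map (AdjoinRoot.mk D))) : IsInertProduct f D := by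
  intro P hP hd
  have hass : Associated P D := hP.associated_of_dvd hD hd
  have hsp : Ideal.span {D} = Ideal.span {P} := (Ideal.span_singleton_eq_span_singleton).2 hass.symm
  let e : AdjoinRoot D ≃+* AdjoinRoot P := Ideal.quotEquivOfEq hsp
  have e1 : AdjoinRoot.mk P = (e : AdjoinRoot D →+* AdjoinRoot P).comp (AdjoinRoot.mk D) := by
    apply RingHom.ext
    intro x
    exact (Ideal.quotEquivOfEq_mk hsp x).symm
  haveI : Fact (Irreducible D) := ⟨hD⟩
  haveI : Fact (Irreducible P) := ⟨hP⟩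
  rw [e1, ← Polynomial.map_map]
  exact (MulEquiv.irreducible_iff (Polynomial.mapEquiv e)).2 h

theorem third [Fintype k] (hk : ringChar k ≠ 2) (h3 : (3 : k) ≠ 0) {a b c : k}
    (hab : a ^ 2 ≠ 3 * b) {η : ℝ} (hη : 0 < η) :
    ∃ n0 : ℕ, ∀ n : ℕ, n0 ≤ n → ∃ T : Finset k[X],
      (∀ D ∈ T, D.Monic ∧ Irreducible D ∧ D.natDegree = n ∧
        IsInertProduct ((cubic a b c).map C - C X) D) ∧
      (1 / 3 - η) * (Fintype.card k : ℝ) ^ n ≤ n * T.card := by
  obtain ⟨n0, h⟩ := Pool.Agent.K6.H71.PG.exists_third hk h3 (c := c) hab hη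
  refine ⟨n0, fun n hn => ?_⟩
  obtain ⟨T, hT, hc⟩ := h n hn
  refine ⟨T, fun D hD => ?_, hc⟩
  obtain ⟨h1, h2, h4⟩ := hT D hD
  refine ⟨h1, h2.1, h4, inert_assoc h2.1 ?_⟩
  have e : ((cubic a b c).map C - C X : k[X][X]) =
      Pool.Agent.K6.H71.PG.cubT (C a) (C b) (C c - X) := by
    simp [cubic, Pool.Agent.K6.H71.PG.cubT]
    ring
  rw [e]
  exact h2.2

end Pool.Agent.K6.H71.PS
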