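import Pool.Agent.K6.H71.PS.Hand

/-!
# The elliptic branch curves, and an example over the field with five elements
-/

set_option autoImplicit false
set_option linter.all false

open Polynomial IsDedekindDomain
open scoped Classical

namespace Pool.Agent.K6.H71.PS

open Pool.Agent.K6.H71.PT (IsBranchCurve pcomp cubic)

/-- Follows `cubic_branch` of the starting file `Pool.Agent.Results.MP_677d84_ag.InertTwists`. -/
theorem cubic_branch {k : Type} [Field k] {p : ℕ} (hp : p.Prime) (h3 : p ≠ 3) {a b c : k}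
    (h2 : (2 : k) ≠ 0) (hs : (cubic a b c).Separable)
    (hP : ∀ P : (⟨0, a, 0, b, c⟩ : WeierstrassCurve k).toAffine.Point, p • P = 0 → P = 0) :
    IsBranchCurve p ((cubic a b c).map C - C (X ^ 2)) := by
  have hd : 0 < (Pool.Agent.X261.BC.cub a b c).natDegree := by
    rw [Pool.Agent.X261.BC.cub_deg]
    norm_num
  have hm := Pool.Agent.X261.BC.cub_monic a b c
  obtain ⟨r1, r2, r3⟩ := Pool.Agent.X261.BC.ell_ring h2 hs hp.pos hP
  refine ⟨Pool.Agent.X261.BC.monic_sup hm hd 2, ?_, ?_, ?_, ?_, r1, r2, r3⟩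
  · show p.Coprime (Pool.Agent.X261.BC.sup (Pool.Agent.X261.BC.cub a b c) 2).natDegree
    rw [Pool.Agent.X261.BC.natDegree_sup, Pool.Agent.X261.BC.cub_deg]
    exact (Nat.coprime_primes hp Nat.prime_three).2 h3
  · intro k' _ _
    exact Pool.Agent.X261.BC.irr_closure hs hd one_lt_two k'
  · show derivative (Pool.Agent.X261.BC.sup (Pool.Agent.X261.BC.cub a b c) 2) ≠ 0
    rw [Pool.Agent.X261.BC.derivative_sup, Polynomial.map_ne_zero_iff C_injective]
    intro h0
    rw [Polynomial.Separable] at hs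
    have h1 : IsUnit (Pool.Agent.X261.BC.cub a b c) := by
      have h4 : IsCoprime (Pool.Agent.X261.BC.cub a b c) 0 := by
        rw [← h0]
        exact hs
      exact isCoprime_zero_right.1 h4
    have h5 := natDegree_eq_zero_of_isUnit h1
    omega
  · exact Pool.Agent.X261.BC.smooth_sup hs (by exact_mod_cast h2)

section five

instance fact5 : Fact (Nat.Prime 5) := ⟨by norm_num⟩

/-- The critical orbit of `X ^ 2 + 3` over the field with five elements. -/
theorem orbit5 (n : ℕ) : ∀ m : ZMod 5, (m = 2 ∨ m = 3) →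
    (pcomp 2 (fun _ => (1 : ZMod 5)) (fun _ => 3) n).eval m = 2 ∨
      (pcomp 2 (fun _ => (1 : ZMod 5)) (fun _ => 3) n).eval m = 3 := by
  induction n with
  | zero =>
    intro m hm
    simpa [pcomp] using hm
  | succ n ih =>
    intro m hm
    have h1 : (pcomp 2 (fun _ => (1 : ZMod 5)) (fun _ => 3) (n + 1)).eval m =
        (pcomp 2 (fun _ => (1 : ZMod 5)) (fun _ => 3) n).eval (m ^ 2 + 3) := by
      simp [pcomp]
    rw [h1]
    apply ih
    rcases hm with rfl | rfl
    · left; decide
    · left; decide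

theorem g5 : (X ^ 3 + C 3 * X : (ZMod 5)[X]).Monic ∧
    (X ^ 3 + C 3 * X : (ZMod 5)[X]).natDegree = 3 := by
  constructor
  · monicity!
  · compute_degree!

theorem irr5 {β : ZMod 5} (h : β = 2 ∨ β = 3) :
    Irreducible ((X ^ 3 + C 3 * X : (ZMod 5)[X]) - C β) := by
  have hd : ((X ^ 3 + C 3 * X : (ZMod 5)[X]) - C β).natDegree = 3 := by
    rw [natDegree_sub_C, g5.2]
  have hm : ((X ^ 3 + C 3 * X : (ZMod 5)[X]) - C β).Monic := by
    apply g5.1.sub_of_left
    rw [degree_eq_natDegree g5.1.ne_zero, g5.2]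
    exact lt_of_le_of_lt degree_C_le (by norm_num)
  rw [hm.irreducible_iff_roots_eq_zero_of_degree_le_three (by rw [hd]; norm_num) (by rw [hd]),
    Multiset.eq_zero_iff_forall_notMem]
  intro x hx
  rw [mem_roots hm.ne_zero, IsRoot.def] at hx
  have h3 : x ^ 3 + 3 * x - β = 0 := by simpa using hx
  have key : ∀ (x β : ZMod 5), (β = 2 ∨ β = 3) → x ^ 3 + 3 * x - β ≠ 0 := by decide
  exact key x β h h3

theorem prim5 : IsPrimitiveRoot (4 : ZMod 5) (2 ^ (0 + 1)) ∧
    IsPrimitiveRoot (2 : ZMod 5) (2 ^ (1 + 1)) := by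
  constructor
  · refine IsPrimitiveRoot.mk_of_lt _ (by norm_num) (by decide) fun l h1 h2 => ?_
    have : l = 1 := by norm_num at h2; omega
    subst this
    decide
  · refine IsPrimitiveRoot.mk_of_lt _ (by norm_num) (by decide) fun l h1 h2 => ?_
    have h3 : l < 4 := by norm_num at h2; exact h2
    interval_cases l <;> decide

end five

end Pool.Agent.K6.H71.PS
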