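import Pool.Agent.K6.H71.PS.Ell

/-!
# Superelliptic base curves, and compositions with good reduction
-/

set_option autoImplicit false
set_option linter.all false

open Polynomial IsDedekindDomain
open scoped Classical

namespace Pool.Agent.K6.H71.PS

open Pool.Agent.TH115.GD
open Pool.Agent.K6.H71.PG (Unramified VSet wv_poly val_sub_le)
open Pool.Agent.K6.H71.PT (IsBranchCurve IsInertProduct twist pcomp cstk IsRootOf UnramifiedOutside
  HoldsFor AllCovers AllCompositions AllRootTowers IsRootTower tate_conv div_conv)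

section val

variable {k k' K F : Type} [Field k] [Field k'] [Algebra k k'] [Field K] [Algebra k[X] K]
  [Field F] [Algebra k'[X] F] [IsFractionRing k'[X] F] [Algebra K F] {p : ℕ}

theorem unramified_root (hT : IsTower k k' K F) (hp : p.Prime) {ζ : K} (hζ : IsPrimitiveRoot ζ p)
    (h2 : (p : k) ≠ 0) {P : k[X]} {δ : Sep F}
    (hδ : δ ^ p = algebraMap K (Sep F) (algebraMap k[X] K P)) :
    UnramifiedOutside k' K F P (IntermediateField.adjoin K {δ}) := by
  haveI := hT.sep
  haveI : IsSepClosed k' := IsSepClosure.sep_closed k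
  have hKF := hT.map
  have h2' : (p : k') ≠ 0 := by
    intro h
    apply h2
    apply (algebraMap k k').injective
    rw [map_natCast, h, map_zero]
  intro v hv ι x hx
  have hu : wv v (algebraMap F (Comp k'[X] F v)
      (algebraMap k'[X] F (P.map (algebraMap k k')))) = 1 := by
    refine le_antisymm (wv_poly v _) (not_lt.1 fun hlt => hv ?_)
    rwa [wv_coe, v.valuation_lt_one_iff_mem] at hlt
  obtain ⟨z, hz⟩ := unit_pow v hp h2' _ hu
  have hz0 : z ≠ 0 := by
    rintro rfl
    rw [zero_pow hp.ne_zero] at hz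
    rw [← hz, map_zero] at hu
    exact zero_ne_one hu
  have h4 : ι δ ^ p = (algebraMap _ (Sep (Comp k'[X] F v)) z) ^ p := by
    rw [← map_pow, hδ, ← map_pow, hz, IsScalarTower.algebraMap_apply K F (Sep F), ι.commutes,
      IsScalarTower.algebraMap_apply F (Comp k'[X] F v) (Sep (Comp k'[X] F v)), hKF]
  have hzS : algebraMap (Comp k'[X] F v) (Sep (Comp k'[X] F v)) z ≠ 0 :=
    (_root_.map_ne_zero _).2 hz0
  have h5 : (ι δ / algebraMap _ (Sep (Comp k'[X] F v)) z) ^ p = 1 := by
    rw [div_pow, h4, div_self (pow_ne_zero _ hzS)]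
  haveI : NeZero p := ⟨hp.ne_zero⟩
  obtain ⟨i, -, hi⟩ := (hζ.map_of_injective
    (algebraMap K (Sep (Comp k'[X] F v))).injective).eq_pow_of_pow_eq_one h5
  have hξ : algebraMap K (Sep (Comp k'[X] F v)) ζ =
      algebraMap _ (Sep (Comp k'[X] F v)) (algebraMap F (Comp k'[X] F v) (algebraMap K F ζ)) := by
    rw [IsScalarTower.algebraMap_apply K F (Sep (Comp k'[X] F v)),
      IsScalarTower.algebraMap_apply F (Comp k'[X] F v) (Sep (Comp k'[X] F v))]
  have hy : ∃ y : Comp k'[X] F v, ι δ = algebraMap (Comp k'[X] F v) (Sep (Comp k'[X] F v)) y := by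
    refine ⟨(algebraMap F (Comp k'[X] F v) (algebraMap K F ζ)) ^ i * z, ?_⟩
    rw [map_mul, map_pow, ← hξ, hi, div_mul_cancel₀ _ hzS]
  refine IntermediateField.adjoin_induction K (p := fun x _ => ∃ y : Comp k'[X] F v,
    ι x = algebraMap (Comp k'[X] F v) (Sep (Comp k'[X] F v)) y) ?_ ?_ ?_ ?_ ?_ hx
  · intro w hw
    rw [Set.mem_singleton_iff] at hw
    rw [hw]
    exact hy
  · intro w
    refine ⟨algebraMap F _ (algebraMap K F w), ?_⟩
    rw [IsScalarTower.algebraMap_apply K F (Sep F), ι.commutes,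
      IsScalarTower.algebraMap_apply F (Comp k'[X] F v) (Sep (Comp k'[X] F v))]
  · rintro a b - - ⟨a', ha⟩ ⟨b', hb⟩
    exact ⟨a' + b', by rw [map_add, map_add, ha, hb]⟩
  · rintro a - ⟨a', ha⟩
    exact ⟨a'⁻¹, by rw [map_inv₀, map_inv₀, ha]⟩
  · rintro a b - - ⟨a', ha⟩ ⟨b', hb⟩
    exact ⟨a' * b', by rw [map_mul, map_mul, ha, hb]⟩

/-- The superelliptic base curves `δ ^ p = P(t)`. -/
theorem allSuper (hT : IsTower k k' K F) (hp : p.Prime) {s : ℕ} {ζ : k}
    (hζ : IsPrimitiveRoot ζ (p ^ (s + 1))) {f : k[X][X]} (h : IsBranchCurve p f) {P : k[X]}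
    (hP : P ≠ 0) (hPi : IsInertProduct f P) {δ : Sep F}
    (hδ : δ ^ p = algebraMap K (Sep F) (algebraMap k[X] K P)) :
    HoldsFor k' K F p (p ^ (s + 1)) f (IntermediateField.adjoin K {δ}) := by
  haveI := hT.fracK
  have hpk : (p : k) ≠ 0 := Pool.Agent.Y160.FT.p_ne hp rfl hζ
  have hξ : IsPrimitiveRoot (algebraMap k[X] K (C (ζ ^ (p ^ s)))) p := by
    have h5 : IsPrimitiveRoot (ζ ^ (p ^ s)) p := hζ.pow (pow_pos hp.pos _) (by rw [pow_succ])
    exact h5.map_of_injective (f := (algebraMap k[X] K).comp C)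
      ((IsFractionRing.injective k[X] K).comp C_injective)
  refine allRoots hT hp hζ h _ P ?_ hP hPi (unramified_root hT hp hξ hpk hδ)
  have h1 := IsRootTower.step (p := p) (K := K) (Ω := Sep F) ⊥ δ IsRootTower.base (by
    rw [hδ]
    exact IntermediateField.algebraMap_mem _ _)
  rwa [bot_sup_eq] at h1

end val

section red

variable {A k κ : Type} [CommRing A] [IsDomain A] [Field k] [Algebra A k]
  [IsFractionRing A k] [Field κ]

theorem irr_red [IsIntegrallyClosed A] (φ : A →+* κ) {f₀ : A[X]} (hm : f₀.Monic) {γ : κ}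
    (hi : Irreducible (f₀.map φ - C γ)) {β : A} (hβ : φ β = γ) :
    Irreducible (f₀.map (algebraMap A k) - C (algebraMap A k β)) := by
  have hn : 0 < f₀.natDegree := by
    rcases Nat.eq_zero_or_pos f₀.natDegree with h0 | h0
    · exfalso
      have h1 := hm.natDegree_eq_zero.1 h0
      rw [h1, Polynomial.map_one, ← C_1, ← C_sub] at hi
      rcases eq_or_ne (1 - γ) 0 with h2 | h2
      · rw [h2, C_0] at hi
        exact not_irreducible_zero hi
      · exact hi.not_isUnit (h2.isUnit.map C)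
    · exact h0
  have hmm : (f₀ - C β).Monic := by
    apply hm.sub_of_left
    exact lt_of_le_of_lt degree_C_le (natDegree_pos_iff_degree_pos.1 hn)
  have h1 : Irreducible (f₀ - C β) := by
    refine Polynomial.Monic.irreducible_of_irreducible_map φ _ hmm ?_
    rw [Polynomial.map_sub, map_C, hβ]
    exact hi
  have h2 := (hmm.irreducible_iff_irreducible_map_fraction_map (K := k)).1 h1
  rwa [Polynomial.map_sub, map_C] at h2

theorem pcomp_red {p : ℕ} (hp : p ≠ 0) (φ : A →+* κ) {γ : κ} {e c : ℕ → A}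
    (he : ∀ i, φ (e i) = 0) (hc : ∀ i, φ (c i) = γ) (n : ℕ) : ∀ r : A, φ r = γ →
    ∃ r' : A, φ r' = γ ∧ (pcomp p (fun i => algebraMap A k (e i))
      (fun i => algebraMap A k (c i)) n).eval (algebraMap A k r) = algebraMap A k r' := by
  induction n with
  | zero =>
    intro r hr
    exact ⟨r, hr, by simp [pcomp]⟩
  | succ n ih =>
    intro r hr
    obtain ⟨r', h1, h2⟩ := ih (e n * r ^ p + c n) (by
      rw [map_add, map_mul, he, zero_mul, zero_add, hc])
    refine ⟨r', h1, ?_⟩
    rw [← h2]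
    simp [pcomp]

/-- Compositions with reduction `c`. -/
theorem allRed {k' K F : Type} [Field k'] [Algebra k k'] [Field K] [Algebra k[X] K]
    [Field F] [Algebra k'[X] F] [IsFractionRing k'[X] F] [Algebra K F] [IsIntegrallyClosed A]
    (hT : IsTower k k' K F) {p : ℕ} (hp : p.Prime) {s : ℕ} {ζ : k}
    (hζ : IsPrimitiveRoot ζ (p ^ (s + 1))) (φ : A →+* κ) {γ : κ} {f₀ : A[X]} (hm : f₀.Monic)
    (hco : p.Coprime f₀.natDegree) (hd : derivative f₀ ≠ 0) (hi : Irreducible (f₀.map φ - C γ))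
    {e c : ℕ → A} (he0 : ∀ i, e i ≠ 0) (he : ∀ i, φ (e i) = 0) (hc : ∀ i, φ (c i) = γ) (n : ℕ)
    {z : Sep F} (hz : IsRootOf (K := K) (pcomp p (fun i => algebraMap A k (e i))
      (fun i => algebraMap A k (c i)) n) z) :
    HoldsFor k' K F p (p ^ (s + 1)) ((f₀.map (algebraMap A k)).map C - C X)
      (IntermediateField.adjoin K {z}) := by
  have hinj := IsFractionRing.injective A k
  have hpk : (p : k) ≠ 0 := Pool.Agent.Y160.FT.p_ne hp rfl hζ
  have hB : IsBranchCurve p ((f₀.map (algebraMap A k)).map C - C X) :=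
    graph_branch hp hpk (hm.map _) (by
      rwa [natDegree_map_eq_of_injective hinj]) (by
      rw [derivative_map, Polynomial.map_ne_zero_iff hinj]
      exact hd)
  refine allComp hT hp hζ hB _ _ n (fun i => ?_) (fun i _ => ?_) z hz
  · rw [Ne, map_eq_zero_iff _ hinj]
    exact he0 i
  · obtain ⟨r, hr1, hr2⟩ := pcomp_red (k := k) hp.ne_zero φ he hc i (c i) (hc i)
    have h1 := irr_red (k := k) φ hm hi hr1
    have h2 : ((f₀.map (algebraMap A k)).map C - C X).map
        (evalRingHom (algebraMap A k r)) = f₀.map (algebraMap A k) - C (algebraMap A k r) := by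
      have h3 : (evalRingHom (algebraMap A k r)).comp (C : k →+* k[X]) = RingHom.id k := by
        ext x
        simp
      rw [Polynomial.map_sub, Polynomial.map_map, h3, Polynomial.map_id, map_C, coe_evalRingHom,
        eval_X]
    rw [hr2, h2]
    exact h1

end red

theorem key_two : ∀ x : ZMod 2, x ^ 3 + x - 1 ≠ 0 := by decide

instance fact_two : Fact (Nat.Prime 2) := ⟨Nat.prime_two⟩

/-- `X ^ 3 + X - 1` is irreducible modulo two. -/
theorem irr_two : (X ^ 3 + X : ℤ[X]).Monic ∧ (X ^ 3 + X : ℤ[X]).natDegree = 3 ∧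
    Irreducible ((X ^ 3 + X : ℤ[X]).map (Int.castRingHom (ZMod 2)) - C 1) := by
  refine ⟨by monicity!, by compute_degree!, ?_⟩
  have e : (X ^ 3 + X : ℤ[X]).map (Int.castRingHom (ZMod 2)) - C 1 =
      (X ^ 3 + X - C 1 : (ZMod 2)[X]) := by simp
  have hm : (X ^ 3 + X - C 1 : (ZMod 2)[X]).Monic := by monicity!
  have hd : (X ^ 3 + X - C 1 : (ZMod 2)[X]).natDegree = 3 := by compute_degree!
  rw [e, hm.irreducible_iff_roots_eq_zero_of_degree_le_three (by rw [hd]; norm_num) (by rw [hd]),
    Multiset.eq_zero_iff_forall_notMem]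
  intro x hx
  rw [mem_roots hm.ne_zero, IsRoot.def] at hx
  have h3 : x ^ 3 + x - 1 = 0 := by simpa using hx
  exact key_two x h3

end Pool.Agent.K6.H71.PS
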