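import Pool.Agent.K6.H71.PS.Hand

/-!
# The generic iterates

`k = k₀(u)`. The polynomial `f₀(x) - g(u)` is irreducible over `k` if the degrees of `f₀` and `g` are
relatively prime (`irr_diff`).
-/

set_option autoImplicit false
set_option linter.all false

open Polynomial
open scoped Classical

namespace Pool.Agent.K6.H71.PS

open Pool.Agent.K6.H71.PT (IsBranchCurve pcomp)

section gen

variable {k₀ : Type} [Field k₀]

/-- `f(x) - a T` is irreducible over `k₀(T)`. -/
theorem irr_lin (k₁ : Type) [Field k₁] [Algebra k₀[X] k₁] [IsFractionRing k₀[X] k₁] {f : k₀[X]}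
    (hm : f.Monic) (hn : 0 < f.natDegree) {a : k₀} (ha : a ≠ 0) :
    Irreducible (f.map ((algebraMap k₀[X] k₁).comp C) - C (algebraMap k₀[X] k₁ (C a * X))) := by
  have hmG : ((f.map C : k₀[X][X]) - C (C a * X)).Monic := by
    apply (hm.map C).sub_of_left
    rw [degree_map_eq_of_injective C_injective]
    exact lt_of_le_of_lt degree_C_le (natDegree_pos_iff_degree_pos.1 hn)
  have h1 : Irreducible ((f.map C : k₀[X][X]) - C (C a * X)) := by
    have e1 : Bivariate.swap ((f.map C : k₀[X][X]) - C (C a * X)) =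
        C (C (-a)) * (X - C (C a⁻¹ * f)) := by
      have h2 : Bivariate.swap ((f.map C : k₀[X][X])) = C f := by
        rw [← Bivariate.swap_C (R := k₀)]
        exact Bivariate.swap.apply_symm_apply _
      have h3 : Bivariate.swap (C (C a * X) : k₀[X][X]) = C (C a) * X := by
        rw [Bivariate.swap_C]
        simp
      have h4 : (C (C (-a)) * (X - C (C a⁻¹ * f)) : k₀[X][X]) = C f - C (C a) * X := by
        have h5 : (C (C a) * C (C a⁻¹) : k₀[X][X]) = 1 := by
          rw [← C_mul, ← C_mul, mul_inv_cancel₀ ha, C_1, C_1]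
        rw [C_neg, C_neg, C_mul]
        linear_combination (C f : k₀[X][X]) * h5
      rw [map_sub, h2, h3, h4]
    refine (MulEquiv.irreducible_iff (Bivariate.swap (R := k₀)).toRingEquiv.toMulEquiv).1 ?_
    show Irreducible (Bivariate.swap ((f.map C : k₀[X][X]) - C (C a * X)))
    rw [e1]
    have hu : IsUnit (C (C (-a)) : k₀[X][X]) := (((neg_ne_zero.2 ha).isUnit.map C).map C)
    exact (irreducible_isUnit_mul hu).2 (irreducible_X_sub_C _)
  have h2 := (hmG.irreducible_iff_irreducible_map_fraction_map (K := k₁)).1 h1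
  rwa [Polynomial.map_sub, Polynomial.map_map, map_C] at h2

variable {k : Type} [Field k] [Algebra k₀[X] k] [IsFractionRing k₀[X] k]

/-- `f(x) - g(u)` is irreducible over `k₀(u)` if the degrees are relatively prime. -/
theorem irr_diff {f g : k₀[X]} (hm : f.Monic) (hn : 0 < f.natDegree) (hg : 0 < g.natDegree)
    (hco : Nat.Coprime f.natDegree g.natDegree) :
    Irreducible (f.map ((algebraMap k₀[X] k).comp C) - C (algebraMap k₀[X] k g)) := by
  have hg0 : g ≠ 0 := by
    rintro rfl
    simp at hg
  set a := g.leadingCoeff with ha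
  have ha0 : a ≠ 0 := leadingCoeff_ne_zero.2 hg0
  set g₁ : k₀[X] := C a⁻¹ * g with hg1
  have hmg : g₁.Monic := by
    unfold Monic
    rw [hg1, leadingCoeff_mul, leadingCoeff_C, inv_mul_cancel₀ ha0]
  have hdg : g₁.natDegree = g.natDegree := natDegree_C_mul (inv_ne_zero ha0)
  have hgg : g = C a * g₁ := by
    rw [hg1, ← mul_assoc, ← C_mul, mul_inv_cancel₀ ha0, C_1, one_mul]
  let k₁ := FractionRing k₀[X]
  let φ : k₀[X] →+* k := (algebraMap k₀[X] k).comp (compRingHom g₁)
  have hφ : Function.Injective φ := by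
    refine (IsFractionRing.injective k₀[X] k).comp ?_
    rw [injective_iff_map_eq_zero]
    intro y hy
    rw [coe_compRingHom_apply] at hy
    rcases comp_eq_zero_iff.1 hy with h | ⟨-, h⟩
    · exact h
    · rw [h, natDegree_C] at hdg
      omega
  let ψ : k₁ →+* k := IsFractionRing.lift hφ
  have hψ : ∀ y, ψ (algebraMap k₀[X] k₁ y) = algebraMap k₀[X] k (y.comp g₁) := fun y =>
    IsFractionRing.lift_algebraMap hφ y
  letI : Algebra k₁ k := ψ.toAlgebra
  have hal : algebraMap k₁ k = ψ := rfl
  -- the polynomials over `k₁`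
  let P : k₁[X] := f.map ((algebraMap k₀[X] k₁).comp C) - C (algebraMap k₀[X] k₁ (C a * X))
  have hPi : Irreducible P := irr_lin k₁ hm hn ha0
  have hPm : P.Monic := by
    apply (hm.map _).sub_of_left
    rw [degree_map]
    exact lt_of_le_of_lt degree_C_le (natDegree_pos_iff_degree_pos.1 hn)
  have hPd : P.natDegree = f.natDegree := by
    show (f.map ((algebraMap k₀[X] k₁).comp C) - C (algebraMap k₀[X] k₁ (C a * X))).natDegree = _
    rw [natDegree_sub_C, natDegree_map]
  let Q : k₁[X] := g₁.map ((algebraMap k₀[X] k₁).comp C) - C (algebraMap k₀[X] k₁ (C 1 * X))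
  have hQi : Irreducible Q := irr_lin k₁ hmg (by omega) one_ne_zero
  have hQm : Q.Monic := by
    apply (hmg.map _).sub_of_left
    rw [degree_map]
    exact lt_of_le_of_lt degree_C_le (natDegree_pos_iff_degree_pos.1 (by omega))
  have hQd : Q.natDegree = g.natDegree := by
    show (g₁.map ((algebraMap k₀[X] k₁).comp C) - C (algebraMap k₀[X] k₁ (C 1 * X))).natDegree = _
    rw [natDegree_sub_C, natDegree_map, hdg]
  have hcst : ψ.comp ((algebraMap k₀[X] k₁).comp C) = (algebraMap k₀[X] k).comp C := by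
    apply RingHom.ext
    intro c
    show ψ (algebraMap k₀[X] k₁ (C c)) = _
    rw [hψ, C_comp]
    rfl
  -- the image of `P` over `k`
  have hPk : P.map ψ = f.map ((algebraMap k₀[X] k).comp C) - C (algebraMap k₀[X] k g) := by
    show (f.map ((algebraMap k₀[X] k₁).comp C) - C (algebraMap k₀[X] k₁ (C a * X))).map ψ = _
    rw [Polynomial.map_sub, Polynomial.map_map, hcst, map_C, hψ, mul_comp, C_comp, X_comp, ← hgg]
  -- `u` is a root of `Q`
  set u : k := algebraMap k₀[X] k X with hu
  have hev : ∀ h : k₀[X], h.eval₂ ((algebraMap k₀[X] k).comp C) u = algebraMap k₀[X] k h := by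
    intro h
    have h1 := hom_eval₂ h C (algebraMap k₀[X] k) X
    rw [eval₂_C_X] at h1
    exact h1.symm
  have hQu : aeval u Q = 0 := by
    show aeval u (g₁.map ((algebraMap k₀[X] k₁).comp C) - C (algebraMap k₀[X] k₁ (C 1 * X))) = 0
    rw [map_sub, aeval_C, aeval_def, eval₂_map, hal, hcst, hev, hψ, mul_comp, C_comp, X_comp,
      C_1, one_mul, sub_self]
  have huint : IsIntegral k₁ u := ⟨Q, hQm, hQu⟩
  have hutop : IntermediateField.adjoin k₁ {u} = ⊤ := by
    rw [eq_top_iff]
    rintro z -
    have hR : ∀ r : k₀[X], algebraMap k₀[X] k r ∈ IntermediateField.adjoin k₁ {u} := by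
      intro r
      have h1 : algebraMap k₀[X] k r =
          aeval u (r.map ((algebraMap k₀[X] k₁).comp C)) := by
        rw [aeval_def, eval₂_map, hal, hcst, hev]
      rw [h1]
      exact IntermediateField.algebra_adjoin_le_adjoin k₁ {u} (aeval_mem_adjoin_singleton k₁ u)
    obtain ⟨x, y, hy, rfl⟩ := IsFractionRing.div_surjective (A := k₀[X]) z
    exact div_mem (hR x) (hR y)
  haveI : FiniteDimensional k₁ k := by
    have h1 : FiniteDimensional k₁ (IntermediateField.adjoin k₁ {u}) :=
      IntermediateField.adjoin.finiteDimensional huint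
    rw [hutop] at h1
    exact LinearEquiv.finiteDimensional
      (IntermediateField.topEquiv (F := k₁) (E := k)).toLinearEquiv
  have hrank : Module.finrank k₁ k = g.natDegree := by
    have h1 := IntermediateField.adjoin.finrank huint
    rw [hutop, IntermediateField.finrank_top'] at h1
    rw [h1, ← minpoly.eq_of_irreducible_of_monic hQi hQu hQm, hQd]
  -- a root of `P`
  have hPk0 : (P.map ψ).natDegree ≠ 0 := by
    rw [natDegree_map, hPd]
    omega
  obtain ⟨π, hπ, hπP⟩ : ∃ π : k[X], Irreducible π ∧ π ∣ P.map ψ :=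
    exists_irreducible_of_natDegree_ne_zero hPk0
  haveI : Fact (Irreducible π) := ⟨hπ⟩
  let M := AdjoinRoot π
  let θ : M := AdjoinRoot.root π
  haveI : FiniteDimensional k M := (AdjoinRoot.powerBasis hπ.ne_zero).finite
  haveI : FiniteDimensional k₁ M := FiniteDimensional.trans k₁ k M
  have hθ : aeval θ P = 0 := by
    have h1 : aeval θ P = aeval θ (P.map ψ) := by
      rw [← hal, aeval_map_algebraMap]
    rw [h1]
    obtain ⟨r, hr⟩ := hπP
    rw [hr, map_mul]
    have h2 : aeval θ π = 0 := AdjoinRoot.aeval_eq π ▸ AdjoinRoot.mk_self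
    rw [h2, zero_mul]
  have hmin : minpoly k₁ θ = P := (minpoly.eq_of_irreducible_of_monic hPi hθ hPm).symm
  have hdvd := minpoly.degree_dvd (K := k₁) (x := θ) (Algebra.IsIntegral.isIntegral θ)
  rw [hmin, hPd, ← Module.finrank_mul_finrank k₁ k M, hrank,
    (AdjoinRoot.powerBasis hπ.ne_zero).finrank, AdjoinRoot.powerBasis_dim] at hdvd
  have hd2 : f.natDegree ∣ π.natDegree := hco.dvd_of_dvd_mul_left hdvd
  have hd3 : (P.map ψ).natDegree ≤ π.natDegree := by
    rw [natDegree_map, hPd]
    exact Nat.le_of_dvd hπ.natDegree_pos hd2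
  have hPk1 : P.map ψ ≠ 0 := (hPm.map ψ).ne_zero
  have hass : Associated π (P.map ψ) :=
    associated_of_dvd_of_natDegree_le hπP hPk1 hd3
  rw [← hPk]
  exact hass.irreducible hπ

/-- The values of the compositions. -/
theorem pcomp_deg {p : ℕ} (hp : 1 < p) {e : ℕ → k₀} (he : ∀ i, e i ≠ 0) {c : ℕ → k₀[X]} {d : ℕ}
    (hd : 0 < d) (hc : ∀ i, (c i).natDegree = d) (n : ℕ) : ∀ r : k₀[X], d ≤ r.natDegree →
    ∃ g : k₀[X], g.natDegree = p ^ n * r.natDegree ∧
      (pcomp p (fun i => algebraMap k₀[X] k (C (e i))) (fun i => algebraMap k₀[X] k (c i)) n).eval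
        (algebraMap k₀[X] k r) = algebraMap k₀[X] k g := by
  induction n with
  | zero =>
    intro r hr
    exact ⟨r, by rw [pow_zero, one_mul], by simp [pcomp]⟩
  | succ n ih =>
    intro r hr
    have hdeg : (C (e n) * r ^ p).natDegree = p * r.natDegree := by
      rw [natDegree_C_mul (he n), natDegree_pow]
    have hlt : (c n).natDegree < (C (e n) * r ^ p).natDegree := by
      rw [hdeg, hc n]
      calc d < p * d := by nlinarith
        _ ≤ p * r.natDegree := Nat.mul_le_mul_left p hr
    have hdeg2 : (C (e n) * r ^ p + c n).natDegree = p * r.natDegree := by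
      rw [natDegree_add_eq_left_of_natDegree_lt hlt, hdeg]
    obtain ⟨g, hg1, hg2⟩ := ih (C (e n) * r ^ p + c n) (by
      rw [hdeg2]
      nlinarith)
    refine ⟨g, by rw [hg1, hdeg2, pow_succ, mul_assoc], ?_⟩
    rw [← hg2]
    simp [pcomp]

end gen

end Pool.Agent.K6.H71.PS
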