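import Pool.Agent.K6.H71.PG.Pl
import Pool.Agent.K6.H71.PS.Base

/-!
# The Tate conjecture for `w ^ q = D ^ n f(x / D, t)` over the `p`-extensions ramified at inert primes
-/

set_option autoImplicit false
set_option linter.all false

open Polynomial IsDedekindDomain WithZero
open scoped nonZeroDivisors Classical

namespace Pool.Agent.K6.H71.PS

open Pool.Agent.Y160
open Pool.Agent.Y160.SQ Pool.Agent.X261.TS
open Pool.Agent.TH115.GD (incl rs ak Sep Comp CompInf IsTower rs_mul Preserves exists_conj sepKΩ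
  preserves)
open Pool.Agent.Y160.SE (SmoothC IsPw)
open Pool.Agent.Y160.FT (Pres)
open Pool.Agent.Y160.T7
open Pool.Agent.K6.H71.PG (IsAct conj_N rK rK_apply rK_inj NK rK_mem mem_NK_iff nk_normal Stable
  Unramified VSet stable_vset)

section cont

variable {k K : Type} [Field k] [Field K] [Algebra k[X] K] [IsFractionRing k[X] K]

/-- Follows `contS` of `Pool.Agent.X261.TS.Cont` (a starting file). -/
theorem contV {Goal : Prop} {p q s : ℕ} (hp : p.Prime) (hq : q = p ^ (s + 1)) {f : k[X][X]}
    (hmon : f.Monic) (hcop : p.Coprime f.natDegree)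
    (hirrK : Irreducible (f.map (algebraMap k[X] K))) {D E : k[X]} (hD : D ≠ 0) (hE : E ≠ 0)
    (hR : ∃ (R : Type) (_ : CommRing R) (_ : IsDedekindDomain R) (_ : Algebra k R) (t x : R),
      Pres t x f ∧ PropT p k R ∧ ∀ P : k[X], Irreducible P → P ∣ E → Prime (aeval t P))
    (cont : ∀ (R N : Type) [CommRing R] [IsDedekindDomain R] [Field N] [Algebra K N]
      [Algebra k[X] N] [IsScalarTower k[X] K N] [Algebra R N] [IsFractionRing R N]
      [Algebra k[X] R] [IsScalarTower k[X] R N] [Algebra.IsIntegral k[X] R] (θ : N),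
      aeval θ ((f.scaleRoots D).map (algebraMap k[X] K)) = 0 →
      IntermediateField.adjoin K {θ} = ⊤ →
      (∀ z : N, z ≠ 0 → (∀ v : HeightOneSpectrum R, algebraMap k[X] R E ∉ v.asIdeal →
        IsPw q (v.valuation N z)) → (∃ y : K, Algebra.norm K z = y ^ q) →
        ∃ g : N, g ≠ 0 ∧ z = g ^ q) → Goal) :
    Goal := by
  obtain ⟨R, _, _, _, u, x, hP, hsel, hprime⟩ := hR
  have hsurj := hP.surj
  have hker := hP.ker
  have hn : f.natDegree ≠ 0 := by
    intro h0
    rw [h0, Nat.coprime_zero_right] at hcop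
    exact hp.one_lt.ne' hcop
  -- the algebra structures
  let φ : k[X] →+* R := ((aeval u : k[X] →ₐ[k] R) : k[X] →+* R)
  letI : Algebra k[X] R := φ.toAlgebra
  haveI : IsDomain R := inferInstance
  have hinjR : Function.Injective (algebraMap k[X] R) := by
    rw [injective_iff_map_eq_zero]
    intro y hy
    have h1 : eval₂ φ x (C y) = 0 := by rw [eval₂_C]; exact hy
    have h2 := (hker _).1 h1
    by_contra hy0
    have h3 := natDegree_le_of_dvd h2 (C_ne_zero.2 hy0)
    rw [natDegree_C] at h3
    exact hn (Nat.le_zero.1 h3)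
  have hkX : ∀ y : k[X], algebraMap k[X] (FractionRing R) y = algebraMap R (FractionRing R) (φ y) :=
    fun y => IsScalarTower.algebraMap_apply k[X] R (FractionRing R) y
  have hinjN : Function.Injective (algebraMap k[X] (FractionRing R)) := by
    intro y y' h
    rw [hkX, hkX] at h
    exact hinjR (IsFractionRing.injective R (FractionRing R) h)
  letI : Algebra K (FractionRing R) := (IsFractionRing.lift hinjN : K →+* FractionRing R).toAlgebra
  haveI : IsScalarTower k[X] K (FractionRing R) := IsScalarTower.of_algebraMap_eq fun y =>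
    (IsFractionRing.lift_algebraMap hinjN y).symm
  have hroot : eval₂ φ x f = 0 := (hker _).2 dvd_rfl
  haveI : Algebra.IsIntegral k[X] R := by
    refine ⟨fun z => ?_⟩
    obtain ⟨P, rfl⟩ := hsurj z
    have hx : IsIntegral k[X] x := ⟨f, hmon, hroot⟩
    have : eval₂ φ x P = aeval x P := rfl
    rw [this]
    exact adjoin_le_integralClosure hx (aeval_mem_adjoin_singleton k[X] x)
  let θ : FractionRing R := algebraMap R (FractionRing R) x
  have hθev : ∀ P : k[X][X], aeval θ (P.map (algebraMap k[X] K)) =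
      algebraMap R (FractionRing R) (eval₂ φ x P) := by
    intro P
    rw [aeval_map_algebraMap]
    have h1 : algebraMap k[X] (FractionRing R) = (algebraMap R (FractionRing R)).comp φ :=
      RingHom.ext hkX
    rw [aeval_def, h1]
    exact (hom_eval₂ P φ (algebraMap R (FractionRing R)) x).symm
  have hθ : aeval θ (f.map (algebraMap k[X] K)) = 0 := by
    rw [hθev, hroot, map_zero]
  have htop : IntermediateField.adjoin K {θ} = ⊤ := by
    rw [eq_top_iff]
    rintro z -
    have hR : ∀ r : R, algebraMap R (FractionRing R) r ∈ IntermediateField.adjoin K {θ} := by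
      intro r
      obtain ⟨P, rfl⟩ := hsurj r
      rw [← hθev]
      exact IntermediateField.algebra_adjoin_le_adjoin K {θ}
        (aeval_mem_adjoin_singleton K θ)
    obtain ⟨a, b, hb, rfl⟩ := IsFractionRing.div_surjective (A := R) z
    exact div_mem (hR a) (hR b)
  -- the degree
  have hθint : IsIntegral K θ := ⟨f.map (algebraMap k[X] K), hmon.map _, hθ⟩
  haveI : FiniteDimensional K (FractionRing R) := by
    have h1 : FiniteDimensional K (IntermediateField.adjoin K {θ}) :=
      IntermediateField.adjoin.finiteDimensional hθint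
    rw [htop] at h1
    exact LinearEquiv.finiteDimensional
      (IntermediateField.topEquiv (F := K) (E := FractionRing R)).toLinearEquiv
  have hrank : Module.finrank K (FractionRing R) = f.natDegree := by
    have h1 := IntermediateField.adjoin.finrank hθint
    rw [htop, IntermediateField.finrank_top'] at h1
    rw [h1, ← minpoly.eq_of_irreducible_of_monic hirrK hθ (hmon.map _), hmon.natDegree_map]
  have hq1 : 1 < q := by
    rw [hq]
    exact Nat.one_lt_pow (Nat.succ_ne_zero s) hp.one_lt
  -- the root of the twisted polynomial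
  have hDK : algebraMap k[X] K D ≠ 0 := fun h0 => hD (IsFractionRing.injective k[X] K
    (by rw [h0, map_zero]))
  have hscale : (f.scaleRoots D).map (algebraMap k[X] K) =
      (f.map (algebraMap k[X] K)).scaleRoots (algebraMap k[X] K D) :=
    map_scaleRoots f D (algebraMap k[X] K) (by
      rw [hmon.leadingCoeff, map_one]
      exact one_ne_zero)
  have hDN : algebraMap K (FractionRing R) (algebraMap k[X] K D) ≠ 0 :=
    (_root_.map_ne_zero _).2 hDK
  refine cont R (FractionRing R) (algebraMap K (FractionRing R) (algebraMap k[X] K D) * θ) ?_ ?_ ?_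
  · rw [hscale]
    exact scaleRoots_aeval_eq_zero hθ
  · rw [eq_top_iff, ← htop, IntermediateField.adjoin_simple_le_iff]
    have h1 := IntermediateField.mem_adjoin_simple_self K
      (algebraMap K (FractionRing R) (algebraMap k[X] K D) * θ)
    have h2 := mul_mem (inv_mem (IntermediateField.algebraMap_mem
      (IntermediateField.adjoin K {algebraMap K (FractionRing R) (algebraMap k[X] K D) * θ})
      (algebraMap k[X] K D))) h1
    rwa [inv_mul_cancel_left₀ hDN] at h2
  · intro z hz hv hnm
    refine solve (R := R) (K := K) hq1 ?_ hE ?_ ?_ hz hv hnm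
    · rw [hrank, hq]
      exact (Nat.Coprime.pow_left (s + 1) hcop).symm
    · intro P hPi hPD
      exact hprime P hPi hPD
    · intro z hz hv
      obtain ⟨c, w, hc, hw, e⟩ := propT_pow hp.ne_zero hsel (FractionRing R) (s + 1) z hz
        (by rw [← hq]; exact hv)
      refine ⟨c, w, hc, hw, ?_⟩
      rw [e, hkX, hq]
      congr 2
      show _ = aeval u (C c)
      rw [aeval_C]

end cont

section main

variable {k k' K F : Type} [Field k] [Field k'] [Algebra k k'] [Field K] [Algebra k[X] K]
  [Field F] [Algebra k'[X] F] [IsFractionRing k'[X] F] [Algebra K F]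

theorem smS_mono {f : k[X][X]} {D E : k[X]} {m : ℕ} (h : SmS f D m) (hDE : D ∣ E) : SmS f E m := by
  obtain ⟨c, rfl⟩ := hDE
  unfold SmS at h ⊢
  rw [C_mul, mul_pow]
  exact Ideal.mul_mem_right _ _ h

/-- The classes over `K`. -/
theorem triv_top (hT : IsTower k k' K F) {f : K[X]} {ℓ : ℕ} {ζ : K} (hg : Good ℓ ζ f)
    {V : Set (HeightOneSpectrum k'[X])}
    (h : ∀ d : (Sep F ≃ₐ[F] Sep F) → Jac ℓ f (Sep F), IsCoc ℓ f d → (∀ σ, Tor hg (d σ)) →
      (∀ v ∈ V, LocTriv ℓ f (Comp k'[X] F v) (Sep (Comp k'[X] F v)) d) → InvOne (K := K) hg d →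
      ∃ R, Tor hg R ∧ ∀ σ, d σ = jm ℓ f (rs K σ) R - R) :
    Triv hg V (⊤ : Subgroup (Sep F ≃ₐ[K] Sep F)) := by
  intro c hc
  have c1 : c 1 = 0 := hc.coc.one (aj_isAct ℓ f)
  have hmul : ∀ σ τ : Sep F ≃ₐ[F] Sep F, c (rK K F (σ * τ)) =
      c (rK K F σ) + jm ℓ f (rs K σ) (c (rK K F τ)) := fun σ τ => by
    rw [map_mul]
    exact hc.coc.mul _ trivial (rK_mem σ) _ trivial (rK_mem τ)
  have hlc : IsLocallyConstant (fun σ : Sep F ≃ₐ[F] Sep F => c (rK K F σ)) := by
    rw [IsLocallyConstant.iff_exists_open]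
    intro σ
    obtain ⟨O, h1, h2, h3⟩ := hc.cont
    refine ⟨(fun x => σ⁻¹ * x) ⁻¹' O, h1.preimage (continuous_const.mul continuous_id), ?_, ?_⟩
    · show σ⁻¹ * σ ∈ O
      rw [inv_mul_cancel]
      exact h2
    · intro τ hτ
      have h4 := h3 _ hτ trivial
      have h5 := hmul σ (σ⁻¹ * τ)
      rw [h4, map_zero, add_zero, mul_inv_cancel_left] at h5
      exact h5
  obtain ⟨R, hR, hr⟩ := h (fun σ => c (rK K F σ)) ⟨hlc, hmul⟩
    (fun σ => hc.coc.tor _ trivial (rK_mem σ)) (fun v hv => by
      let ι : Sep F →ₐ[F] Sep (Comp k'[X] F v) := IsSepClosed.lift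
      obtain ⟨P, hP⟩ := hc.loc v hv ι
      exact ⟨ι, P, fun τ σ h => hP τ σ trivial h⟩) (fun τ => by
      obtain ⟨Q, hQ, h1⟩ := hc.coc.inv τ trivial
      refine ⟨Q, hQ, fun σ σ' h => ?_⟩
      have h2 := h1 _ trivial (rK_mem σ)
      rw [conj_rel τ h] at h2
      exact h2)
  refine ⟨R, hR, ?_⟩
  rintro _ - ⟨σ, rfl⟩
  exact hr σ

variable {p q s : ℕ}

/-- Everything over `K`. -/
theorem setupS [IsFractionRing k[X] K] (hT : IsTower k k' K F) (hp : p.Prime)
    (hq : q = p ^ (s + 1)) {ζ : k}
    (hζ : IsPrimitiveRoot ζ q) {f : k[X][X]} (hmon : f.Monic) (hcop : p.Coprime f.natDegree)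
    {D E : k[X]} (hD : D ≠ 0) (hE : E ≠ 0) (hDE : D ∣ E)
    (hR : ∃ (R : Type) (_ : CommRing R) (_ : IsDedekindDomain R) (_ : Algebra k R) (t x : R),
      Pres t x f ∧ PropT p k R ∧ ∀ P : k[X], Irreducible P → P ∣ E → Prime (aeval t P))
    (hsep : (f.map (algebraMap k[X] K)).Separable) (hsm : SmoothC f)
    (hirr : Irreducible ((f.map (algebraMap k[X] K)).map (algebraMap K F))) :
    ∃ hg : Good q (algebraMap k[X] K (C ζ)) ((f.scaleRoots D).map (algebraMap k[X] K)),
      NT (aj q ((f.scaleRoots D).map (algebraMap k[X] K))) (lm F hg) (NK K F) ⊤ ∧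
      Triv hg (VSet (k := k) (k' := k') (fun P => P = E))
        (⊤ : Subgroup (Sep F ≃ₐ[K] Sep F)) := by
  haveI := hT.sep
  haveI := hT.fracK
  haveI : IsSepClosure K (Sep F) := sepKΩ hT.map
  have hirrK : Irreducible (f.map (algebraMap k[X] K)) :=
    Polynomial.Monic.irreducible_of_irreducible_map (algebraMap K F) _ (hmon.map _) hirr
  have hDK : algebraMap k[X] K D ≠ 0 := fun h0 => hD (IsFractionRing.injective k[X] K
    (by rw [h0, map_zero]))
  have hscale : (f.scaleRoots D).map (algebraMap k[X] K) =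
      (f.map (algebraMap k[X] K)).scaleRoots (algebraMap k[X] K D) :=
    map_scaleRoots f D (algebraMap k[X] K) (by
      rw [hmon.leadingCoeff, map_one]
      exact one_ne_zero)
  have hscale2 : ((f.scaleRoots D).map (algebraMap k[X] K)).map (algebraMap K F) =
      ((f.map (algebraMap k[X] K)).map (algebraMap K F)).scaleRoots
        (algebraMap K F (algebraMap k[X] K D)) := by
    rw [hscale]
    refine map_scaleRoots _ _ (algebraMap K F) ?_
    rw [(hmon.map _).leadingCoeff, map_one]
    exact one_ne_zero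
  have hmonS : (f.scaleRoots D).Monic := (monic_scaleRoots_iff D).2 hmon
  have hcopS : p.Coprime (f.scaleRoots D).natDegree := by rwa [natDegree_scaleRoots]
  have hsepS : ((f.scaleRoots D).map (algebraMap k[X] K)).Separable := by
    rw [hscale]
    exact sep_scale hDK hsep
  have hirrS : Irreducible (((f.scaleRoots D).map (algebraMap k[X] K)).map (algebraMap K F)) := by
    rw [hscale2]
    exact irr_scale ((_root_.map_ne_zero _).2 hDK) hirr
  obtain ⟨md, hsmS⟩ := smooth_scale hsm hD
  have hg := (SH.good_of hp (Nat.succ_pos s) hq hT hζ hmonS hcopS hsepS).1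
  haveI : NeZero q := ⟨hg.ne⟩
  have hℓk : (q : k') ≠ 0 := by
    have h1 := hζ.neZero'
    have h3 : ((q : ℕ) : k') = algebraMap k k' (q : k) := (map_natCast _ _).symm
    rw [h3]
    exact (_root_.map_ne_zero _).2 h1.out
  refine ⟨hg, ?_, ?_⟩
  · intro Q hQ hf
    refine no_tor (F := F) hyps hg hirrS (x := Q) hQ fun σ => ?_
    exact hf (rK K F σ) trivial (rK_mem σ)
  · refine triv_top hT hg fun d hd hd2 hdl hdi => ?_
    refine contV (K := K) hp hq hmon hcop hirrK hD hE hR ?_
    intro R N _ _ _ _ _ _ _ _ _ _ _ θ hθ htop hpts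
    have hint : IsIntegral K θ := ⟨_, hmonS.map _, hθ⟩
    have hs : IsSeparable K θ := hsepS.of_dvd (minpoly.dvd K θ hθ)
    have f3 : Algebra.IsSeparable K (IntermediateField.adjoin K {θ}) :=
      (IntermediateField.isSeparable_adjoin_simple_iff_isSeparable K N).2 hs
    rw [htop] at f3
    haveI : Algebra.IsSeparable K N :=
      Algebra.IsSeparable.of_algHom K (⊤ : IntermediateField K N)
        (IntermediateField.topEquiv (F := K) (E := N)).symm.toAlgHom
    let i : N →ₐ[K] Sep F := IsSepClosed.lift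
    letI : Algebra N (Sep F) := i.toRingHom.toAlgebra
    haveI : IsScalarTower K N (Sep F) := IsScalarTower.of_algebraMap_eq fun x => (i.commutes x).symm
    refine baseN (R := R) hp hq hyps lhyps hT hg hmonS hℓk (smS_mono hsmS hDE) hirrS hθ htop hpts
      hd hd2 (fun v hv => hdl v fun π hπ => ?_) hdi
    rw [hπ]
    exact hv

/-- Galois extensions. -/
theorem mainG [IsFractionRing k[X] K] (hT : IsTower k k' K F) (hp : p.Prime)
    (hq : q = p ^ (s + 1)) {ζ : k}
    (hζ : IsPrimitiveRoot ζ q) {f : k[X][X]} (hmon : f.Monic) (hcop : p.Coprime f.natDegree)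
    {D E : k[X]} (hD : D ≠ 0) (hE : E ≠ 0) (hDE : D ∣ E)
    (hR : ∃ (R : Type) (_ : CommRing R) (_ : IsDedekindDomain R) (_ : Algebra k R) (t x : R),
      Pres t x f ∧ PropT p k R ∧ ∀ P : k[X], Irreducible P → P ∣ E → Prime (aeval t P))
    (hsep : (f.map (algebraMap k[X] K)).Separable) (hsm : SmoothC f)
    (hirr : Irreducible ((f.map (algebraMap k[X] K)).map (algebraMap K F)))
    {N L : IntermediateField K (Sep F)} [IsGalois K N] [FiniteDimensional K N] {e : ℕ}
    (hd : Module.finrank K N = p ^ e)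
    (hu : Unramified (VSet (k := k) (k' := k') (fun P => P = E)) N) (hL : L ≤ N) :
    TateOver p q ((f.scaleRoots D).map (algebraMap k[X] K)) L k' ∧
      Divisible p q ((f.scaleRoots D).map (algebraMap k[X] K)) L := by
  haveI := hT.sep
  haveI := hT.fracK
  haveI : IsGalois k k' := inferInstance
  haveI : IsSepClosure K (Sep F) := sepKΩ hT.map
  haveI : Algebra.IsSeparable K (Sep F) := IsSepClosure.separable
  haveI : IsGalois K (Sep F) := inferInstance
  obtain ⟨hg, h1, h2⟩ := setupS hT hp hq hζ hmon hcop hD hE hDE hR hsep hsm hirr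
  have hPr : Preserves K F (Sep F) := preserves hT.map
  obtain ⟨h3, h4⟩ := fld hp hq hPr (stable_vset hT (fun P => P = E)) h1 h2 hd hu hL
  exact ⟨tate_of hp hq hPr h3 h4, div_p hp hq hPr h3 h4⟩

/-- Towers of `p`-th roots. -/
theorem mainR [IsFractionRing k[X] K] (hT : IsTower k k' K F) (hp : p.Prime)
    (hq : q = p ^ (s + 1)) {ζ : k}
    (hζ : IsPrimitiveRoot ζ q) {f : k[X][X]} (hmon : f.Monic) (hcop : p.Coprime f.natDegree)
    {D E : k[X]} (hD : D ≠ 0) (hE : E ≠ 0) (hDE : D ∣ E)
    (hR : ∃ (R : Type) (_ : CommRing R) (_ : IsDedekindDomain R) (_ : Algebra k R) (t x : R),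
      Pres t x f ∧ PropT p k R ∧ ∀ P : k[X], Irreducible P → P ∣ E → Prime (aeval t P))
    (hsep : (f.map (algebraMap k[X] K)).Separable) (hsm : SmoothC f)
    (hirr : Irreducible ((f.map (algebraMap k[X] K)).map (algebraMap K F)))
    {L : IntermediateField K (Sep F)} (hL : RootTower p K L)
    (hu : Unramified (VSet (k := k) (k' := k') (fun P => P = E)) L) :
    TateOver p q ((f.scaleRoots D).map (algebraMap k[X] K)) L k' ∧
      Divisible p q ((f.scaleRoots D).map (algebraMap k[X] K)) L := by
  haveI := hT.sep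
  haveI := hT.fracK
  haveI : IsGalois k k' := inferInstance
  haveI : IsSepClosure K (Sep F) := sepKΩ hT.map
  haveI : Algebra.IsSeparable K (Sep F) := IsSepClosure.separable
  haveI : IsGalois K (Sep F) := inferInstance
  obtain ⟨hg, h1, h2⟩ := setupS hT hp hq hζ hmon hcop hD hE hDE hR hsep hsm hirr
  have hPr : Preserves K F (Sep F) := preserves hT.map
  have hξ : IsPrimitiveRoot (algebraMap k[X] K (C (ζ ^ (p ^ s)))) p := by
    have h5 : IsPrimitiveRoot (ζ ^ (p ^ s)) p := hζ.pow (by rw [hq]; exact pow_pos hp.pos _)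
      (by rw [hq, pow_succ])
    exact h5.map_of_injective (f := (algebraMap k[X] K).comp C)
      ((IsFractionRing.injective k[X] K).comp C_injective)
  obtain ⟨-, h3, h4⟩ := tower hp hq hξ hPr (stable_vset hT (fun P => P = E)) h1 h2 hL hu
  exact ⟨tate_of hp hq hPr h3 h4, div_p hp hq hPr h3 h4⟩

end main

end Pool.Agent.K6.H71.PS
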