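import Pool.Agent.K6.H71.PG.Pl
import Pool.Agent.TH115.SD.Cpl

/-!
# `p`-th roots in the completions

`root_one_unit` follows `sqrt_one_unit` in `Pool.Agent.TH115.SD.Hensel` (a starting file).
-/

set_option autoImplicit false
set_option linter.all false

open Polynomial IsDedekindDomain WithZero Filter Topology
open scoped Classical

namespace Pool.Agent.K6.H71.PS

open Pool.Agent.TH115.GD
open Pool.Agent.K6.H71.PG

section hensel

variable {L : Type*} [Field L] [Valued L (WithZero (Multiplicative ℤ))]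

theorem one_sub_mul_le {δ : WithZero (Multiplicative ℤ)} (hδ : δ ≤ 1) {a b : L}
    (ha : Valued.v (a - 1) ≤ δ) (hb : Valued.v (b - 1) ≤ δ) : Valued.v (a * b - 1) ≤ δ := by
  have ha1 : Valued.v a ≤ 1 := by
    have e : a = (a - 1) + 1 := by ring
    rw [e]
    exact (Valued.v.map_add _ _).trans (max_le (ha.trans hδ) (by rw [map_one]))
  have e : a * b - 1 = a * (b - 1) + (a - 1) := by ring
  rw [e]
  refine (Valued.v.map_add _ _).trans (max_le ?_ ha)
  rw [map_mul]
  exact mul_le_of_le_one_of_le ha1 hb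

theorem one_sub_pow_le {δ : WithZero (Multiplicative ℤ)} (hδ : δ ≤ 1) {a : L}
    (ha : Valued.v (a - 1) ≤ δ) (n : ℕ) : Valued.v (a ^ n - 1) ≤ δ := by
  induction n with
  | zero => rw [pow_zero, sub_self, map_zero]; exact zero_le
  | succ n ih => rw [pow_succ]; exact one_sub_mul_le hδ ih ha

/-- The `p`-th roots of principal units. -/
theorem root_one_unit [CompleteSpace L] [T0Space L] {p : ℕ} (hp : Valued.v (p : L) = 1) (x : L)
    (hx : Valued.v (x - 1) < 1) : ∃ z : L, z ^ p = x ∧ Valued.v (z - 1) < 1 := by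
  have hp0 : (p : L) ≠ 0 := by
    intro h
    rw [h, map_zero] at hp
    exact zero_ne_one hp
  let T : L → L := fun z => z - (z ^ p - x) / p
  obtain ⟨z, z0, zs⟩ : ∃ z : ℕ → L, z 0 = 1 ∧ ∀ n, z (n + 1) = T (z n) :=
    ⟨fun n => Nat.rec 1 (fun _ y => T y) n, rfl, fun _ => rfl⟩
  set δ := Valued.v (x - 1) with hδ
  have hT : ∀ y y' : L, Valued.v (y - 1) ≤ δ → Valued.v (y' - 1) ≤ δ →
      Valued.v (T y - T y') ≤ δ * Valued.v (y - y') := by
    intro y y' hy hy'
    have h1 := geom_sum₂_mul y y' p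
    set S := ∑ i ∈ Finset.range p, y ^ i * y' ^ (p - 1 - i) with hS
    have e : T y - T y' = ((-(S - p)) / p) * (y - y') := by
      simp only [T]
      have h2 : y ^ p = S * (y - y') + y' ^ p := by rw [h1]; ring
      rw [h2]
      field_simp
      ring
    rw [e, map_mul, map_div₀, hp, div_one, Valuation.map_neg]
    refine mul_le_mul_left ?_ _
    have e2 : S - p = ∑ i ∈ Finset.range p, (y ^ i * y' ^ (p - 1 - i) - 1) := by
      rw [Finset.sum_sub_distrib, hS]
      simp
    rw [e2]
    refine Valuation.map_sum_le _ fun i _ => ?_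
    exact one_sub_mul_le hx.le (one_sub_pow_le hx.le hy i) (one_sub_pow_le hx.le hy' _)
  have h4 : T 1 - 1 = (x - 1) / p := by
    simp only [T]
    rw [one_pow]
    ring
  have hA : ∀ n, Valued.v (z n - 1) ≤ δ := by
    intro n
    induction n with
    | zero => rw [z0, sub_self, map_zero]; exact zero_le
    | succ n ih =>
      have h1 : Valued.v ((1 : L) - 1) ≤ δ := by rw [sub_self, map_zero]; exact zero_le
      have h3 := hT (z n) 1 ih h1
      have e : z (n + 1) - 1 = (T (z n) - T 1) + (T 1 - 1) := by rw [zs]; ring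
      rw [e]
      refine (Valued.v.map_add _ _).trans (max_le ?_ ?_)
      · refine h3.trans ?_
        exact mul_le_of_le_one_right' (ih.trans hx.le)
      · rw [h4, map_div₀, hp, div_one]
  have hB : ∀ n, Valued.v (z (n + 1) - z n) ≤ Valued.v ((x - 1) ^ (n + 1)) := by
    intro n
    induction n with
    | zero =>
      rw [zero_add, pow_one, zs, z0, h4, map_div₀, hp, div_one]
    | succ n ih =>
      have h3 := hT (z (n + 1)) (z n) (hA _) (hA _)
      rw [← zs, ← zs] at h3
      refine h3.trans ?_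
      rw [pow_succ' (x - 1), map_mul]
      exact mul_le_mul_right ih _
  haveI := nonarch (L := L)
  have hlim : Tendsto (fun n => z (n + 1) - z n) atTop (𝓝 0) := by
    have h3 : Tendsto (fun n : ℕ => (x - 1) ^ (n + 1)) atTop (𝓝 0) :=
      (Valued.tendsto_zero_pow_of_v_lt_one hx).comp (tendsto_add_atTop_nat 1)
    rw [(Valued.hasBasis_nhds_zero L _).tendsto_right_iff] at h3 ⊢
    intro γ hγ
    filter_upwards [h3 γ hγ] with n hn
    have h4 : (Valued.v (R := L)).restrict (z (n + 1) - z n) ≤
        (Valued.v (R := L)).restrict ((x - 1) ^ (n + 1)) :=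
      (Valuation.restrict_le_iff _).2 (hB n)
    exact lt_of_le_of_lt h4 hn
  have hcau : CauchySeq z := NonarchimedeanAddGroup.cauchySeq_of_tendsto_sub_nhds_zero hlim
  obtain ⟨w, hw⟩ := cauchySeq_tendsto_of_complete hcau
  have hTc : Continuous T := by
    have : Continuous fun y : L => y - (y ^ p - x) * (p : L)⁻¹ := by fun_prop
    simpa only [T, div_eq_mul_inv] using this
  have hw1 : Tendsto (fun n => z (n + 1)) atTop (𝓝 w) := hw.comp (tendsto_add_atTop_nat 1)
  have hw2 : Tendsto (fun n => z (n + 1)) atTop (𝓝 (T w)) := by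
    simp only [zs]
    exact (hTc.tendsto w).comp hw
  haveI : T2Space L := inferInstance
  have hfix : T w = w := tendsto_nhds_unique hw2 hw1
  refine ⟨w, ?_, ?_⟩
  · have h5 : (w ^ p - x) / p = 0 := by
      have : w - (w ^ p - x) / p = w := hfix
      linear_combination -this
    rcases div_eq_zero_iff.1 h5 with h6 | h6
    · linear_combination h6
    · exact absurd h6 hp0
  · have hcl : IsClosed {y : L | (Valued.v (R := L)).restrict (y - 1) < 1} := by
      have h7 := Valued.isClosed_ball L (1 : MonoidWithZeroHom.ValueGroup₀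
        (.ofClass (Valued.v (R := L))))
      exact h7.preimage (f := fun y : L => y - 1) (by fun_prop)
    have h8 : w ∈ {y : L | (Valued.v (R := L)).restrict (y - 1) < 1} := by
      refine hcl.mem_of_tendsto hw (Eventually.of_forall fun n => ?_)
      show (Valued.v (R := L)).restrict (z n - 1) < 1
      rw [Valuation.restrict_lt_one_iff]
      exact lt_of_le_of_lt (hA n) hx
    have h9 : (Valued.v (R := L)).restrict (w - 1) < 1 := h8
    rwa [Valuation.restrict_lt_one_iff] at h9

end hensel

section comp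

variable {R F : Type} [CommRing R] [IsDedekindDomain R] [Field F] [Algebra R F] [IsFractionRing R F]

theorem root_one (v : HeightOneSpectrum R) {p : ℕ} (hp : v.valuation F (p : F) = 1)
    (x : Comp R F v) (hx : wv v (x - 1) < 1) : ∃ z, z ^ p = x ∧ wv v (z - 1) < 1 := by
  have h3 : Valued.v (R := v.adicCompletion F) (p : v.adicCompletion F) = 1 := by
    have h4 := wFin (F := F) v (p : F)
    rw [hp, map_natCast] at h4
    exact h4
  exact root_one_unit (L := v.adicCompletion F) h3 x hx

end comp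

section roots

variable {k' F : Type} [Field k'] [IsSepClosed k'] [Field F] [Algebra k'[X] F]
  [IsFractionRing k'[X] F] (v : HeightOneSpectrum k'[X]) {p : ℕ}

/-- Every polynomial is a `p`-th power modulo a maximal ideal. -/
theorem quot_pow (hp : p.Prime) (h2 : (p : k') ≠ 0) (u : k'[X]) :
    ∃ w : k'[X], u - w ^ p ∈ v.asIdeal := by
  haveI : v.asIdeal.IsMaximal := v.isMaximal
  letI : Field (k'[X] ⧸ v.asIdeal) := Ideal.Quotient.field _
  by_cases hu : Ideal.Quotient.mk v.asIdeal u = 0
  · exact ⟨0, by rw [zero_pow hp.ne_zero, sub_zero]; exact Ideal.Quotient.eq_zero_iff_mem.1 hu⟩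
  obtain ⟨g, hg⟩ : ∃ g, v.asIdeal = Ideal.span {g} :=
    ⟨_, (Submodule.IsPrincipal.span_singleton_generator v.asIdeal).symm⟩
  have hg0 : g ≠ 0 := by
    rintro rfl
    exact v.ne_bot (by rw [hg]; simp)
  haveI : Module.Finite k' (k'[X] ⧸ v.asIdeal) := by
    rw [hg]
    exact (AdjoinRoot.powerBasis hg0).finite
  haveI : Algebra.IsAlgebraic k' (k'[X] ⧸ v.asIdeal) := Algebra.IsAlgebraic.of_finite _ _
  haveI : IsPurelyInseparable k' (k'[X] ⧸ v.asIdeal) := inferInstance
  obtain ⟨q, hq⟩ := ExpChar.exists k'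
  haveI := hq
  obtain ⟨n, c, hc⟩ := IsPurelyInseparable.pow_mem k' q (Ideal.Quotient.mk v.asIdeal u)
  have hcop : (q ^ n).Coprime p := by
    refine Nat.Coprime.pow_left n ?_
    rcases hq with _ | hq'
    · exact Nat.coprime_one_left p
    · rw [Nat.coprime_primes hq' hp]
      rintro rfl
      exact h2 (CharP.cast_eq_zero k' q)
  obtain ⟨a, -, ha⟩ := Nat.exists_mul_mod_eq_one_of_coprime hcop hp.one_lt
  obtain ⟨b, hb⟩ : ∃ b : ℕ, q ^ n * a = p * b + 1 := by
    refine ⟨q ^ n * a / p, ?_⟩
    have := Nat.div_add_mod (q ^ n * a) p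
    rw [ha] at this
    exact this.symm
  haveI : NeZero ((p : ℕ) : k') := ⟨h2⟩
  obtain ⟨w, hw⟩ := IsSepClosed.exists_pow_nat_eq c p
  obtain ⟨W, hW⟩ := Ideal.Quotient.mk_surjective
    (algebraMap k' (k'[X] ⧸ v.asIdeal) w ^ a / (Ideal.Quotient.mk v.asIdeal u) ^ b)
  refine ⟨W, ?_⟩
  rw [← Ideal.Quotient.eq_zero_iff_mem, map_sub, map_pow, hW, div_pow, ← pow_mul, mul_comm a p,
    pow_mul, ← map_pow, hw, hc, ← pow_mul, hb, sub_eq_zero,
    eq_div_iff (pow_ne_zero _ (pow_ne_zero _ hu))]
  ring

/-- Units are `p`-th powers. -/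
theorem unit_pow (hp : p.Prime) (h2 : (p : k') ≠ 0) (x : Comp k'[X] F v) (hx : wv v x = 1) :
    ∃ y, y ^ p = x := by
  have h2F : v.valuation F (p : F) = 1 := by
    have e : (p : F) = algebraMap k'[X] F (C (p : k')) := by rw [map_natCast, map_natCast]
    rw [e]
    refine le_antisymm (v.valuation_le_one _) (not_lt.1 fun h => ?_)
    rw [v.valuation_lt_one_iff_mem] at h
    exact v.isPrime.ne_top (Ideal.eq_top_of_isUnit_mem _ h (isUnit_C.2 (isUnit_iff_ne_zero.2 h2)))
  obtain ⟨f, hf⟩ := dense_F v x (g := 1) one_ne_zero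
  rw [map_one] at hf
  have hf1 : v.valuation F f = 1 := by
    rw [← wv_coe, ← hx]
    have e : algebraMap F (Comp k'[X] F v) f = x + -(x - algebraMap F (Comp k'[X] F v) f) := by ring
    rw [e]
    refine Valuation.map_add_eq_of_lt_left (wv v) ?_
    rw [Valuation.map_neg, hx]
    exact hf
  obtain ⟨n, d, hd, rfl⟩ := plc_frac v f hf1.le
  have val1 : ∀ p : k'[X], p ∉ v.asIdeal → v.valuation F (algebraMap k'[X] F p) = 1 := fun p hp =>
    le_antisymm (v.valuation_le_one _) (not_lt.1 fun h => hp ((v.valuation_lt_one_iff_mem _).1 h))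
  have hdv := val1 d hd
  have hd0 : algebraMap k'[X] F d ≠ 0 := fun h => by
    rw [h, map_zero] at hdv
    exact zero_ne_one hdv
  obtain ⟨w, hw⟩ := quot_pow v hp h2 (n * d ^ (p - 1))
  have hpp : p - 1 + 1 = p := Nat.sub_add_cancel hp.one_le
  have h5 : v.valuation F (algebraMap k'[X] F n / algebraMap k'[X] F d -
      (algebraMap k'[X] F w / algebraMap k'[X] F d) ^ p) < 1 := by
    have e : algebraMap k'[X] F n / algebraMap k'[X] F d -
      (algebraMap k'[X] F w / algebraMap k'[X] F d) ^ p =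
        algebraMap k'[X] F (n * d ^ (p - 1) - w ^ p) / algebraMap k'[X] F d ^ p := by
      have e1 : algebraMap k'[X] F d ^ p = algebraMap k'[X] F d ^ (p - 1) * algebraMap k'[X] F d := by
        rw [← pow_succ, hpp]
      rw [map_sub, map_mul, map_pow, map_pow, div_pow, sub_div, e1]
      congr 1
      rw [mul_comm (algebraMap k'[X] F n), mul_div_mul_left _ _ (pow_ne_zero _ hd0)]
    rw [e, map_div₀, map_pow, hdv, one_pow, div_one, v.valuation_lt_one_iff_mem]
    exact hw
  set y0 : F := algebraMap k'[X] F w / algebraMap k'[X] F d with hy0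
  have h6 : wv v (x - algebraMap F (Comp k'[X] F v) (y0 ^ p)) < 1 := by
    have e : x - algebraMap F (Comp k'[X] F v) (y0 ^ p) =
        (x - algebraMap F (Comp k'[X] F v) (algebraMap k'[X] F n / algebraMap k'[X] F d)) +
          algebraMap F (Comp k'[X] F v) (algebraMap k'[X] F n / algebraMap k'[X] F d - y0 ^ p) := by
      rw [map_sub]
      ring
    rw [e]
    refine (Valuation.map_add _ _ _).trans_lt (max_lt hf ?_)
    rw [wv_coe]
    exact h5
  have h7 : wv v (algebraMap F (Comp k'[X] F v) (y0 ^ p)) = 1 := by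
    rw [← hx]
    have e : algebraMap F (Comp k'[X] F v) (y0 ^ p) =
        x + -(x - algebraMap F (Comp k'[X] F v) (y0 ^ p)) := by ring
    rw [e]
    refine Valuation.map_add_eq_of_lt_left (wv v) ?_
    rw [Valuation.map_neg, hx]
    exact h6
  have h8 : algebraMap F (Comp k'[X] F v) (y0 ^ p) ≠ 0 := fun h => by
    rw [h, map_zero] at h7
    exact zero_ne_one h7
  obtain ⟨z, hz, -⟩ := root_one v h2F (x / algebraMap F (Comp k'[X] F v) (y0 ^ p)) (by
    rw [div_sub_one h8, map_div₀, h7, div_one]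
    exact h6)
  refine ⟨z * algebraMap F (Comp k'[X] F v) y0, ?_⟩
  rw [mul_pow, hz, ← map_pow, div_mul_cancel₀ _ h8]

end roots

end Pool.Agent.K6.H71.PS
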