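import Pool.Agent.K6.H71.PG.Iter
import Pool.Agent.K6.H71.PS.Main
import Pool.Agent.K6.H71.PS.Root
import Pool.Agent.K6.H71.PT.Defs
import Pool.Agent.K6.H71.PT.Conv

/-!
# Compositions of the polynomials `e X ^ p + c`
-/

set_option autoImplicit false
set_option linter.all false

open Polynomial IsDedekindDomain
open scoped Classical

namespace Pool.Agent.K6.H71.PS

open Pool.Agent.TH115.GD
open Pool.Agent.K6.H71.PT (pcomp cstk IsRootOf)
open Pool.Agent.K6.H71.PG (Unramified VSet wv_poly val_sub_le)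

section iter

variable {k K Ω : Type} [Field k] [Field K] [Field Ω] [Algebra k[X] K] [Algebra K Ω] {p : ℕ}

theorem rootOf_succ {e c : ℕ → k} {n : ℕ} {s : Ω} (h : IsRootOf (K := K) (pcomp p e c (n + 1)) s) :
    IsRootOf (K := K) (pcomp p e c n) (cstk k K Ω (e n) * s ^ p + cstk k K Ω (c n)) := by
  unfold IsRootOf at h ⊢
  rw [pcomp, eval₂_comp] at h
  simpa using h

theorem rootTower_iter {e c : ℕ → k} (he : ∀ i, e i ≠ 0) (n : ℕ) : ∀ s : Ω,
    IsRootOf (K := K) (pcomp p e c n) s → RootTower p K (IntermediateField.adjoin K {s}) := by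
  induction n with
  | zero =>
    intro s hs
    have h1 : s = algebraMap K Ω (algebraMap k[X] K X) := by
      have h2 : (X : k[X]).eval₂ (cstk k K Ω) s = _ := hs
      rwa [eval₂_X] at h2
    have h3 : IntermediateField.adjoin K {s} = ⊥ := by
      rw [h1, IntermediateField.adjoin_simple_eq_bot_iff]
      exact IntermediateField.algebraMap_mem _ _
    rw [h3]
    exact RootTower.base
  | succ n ih =>
    intro s hs
    have h1 := ih _ (rootOf_succ hs)
    set s' := cstk k K Ω (e n) * s ^ p + cstk k K Ω (c n) with hs'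
    have hc : ∀ (S : IntermediateField K Ω) (x : k), cstk k K Ω x ∈ S := fun S x =>
      IntermediateField.algebraMap_mem _ _
    have he0 : cstk k K Ω (e n) ≠ 0 := (_root_.map_ne_zero _).2 (he n)
    have h4 := RootTower.step _ s h1 (by
      have e1 : s ^ p = (s' - cstk k K Ω (c n)) / cstk k K Ω (e n) := by
        rw [hs', add_sub_cancel_right, mul_div_cancel_left₀ _ he0]
      rw [e1]
      exact div_mem (sub_mem (IntermediateField.mem_adjoin_simple_self K s') (hc _ _)) (hc _ _))
    have h5 : IntermediateField.adjoin K {s'} ≤ IntermediateField.adjoin K {s} := by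
      rw [IntermediateField.adjoin_le_iff, Set.singleton_subset_iff]
      exact add_mem (mul_mem (hc _ _) (pow_mem (IntermediateField.mem_adjoin_simple_self K s) p))
        (hc _ _)
    rwa [sup_eq_right.2 h5] at h4

end iter

section val

variable {k k' K F : Type} [Field k] [Field k'] [Algebra k k'] [Field K] [Algebra k[X] K]
  [Field F] [Algebra k'[X] F] [IsFractionRing k'[X] F] [Algebra K F] {p : ℕ}

theorem unr_iter (hT : IsTower k k' K F) (hp : p.Prime) {ζ : K} (hζ : IsPrimitiveRoot ζ p)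
    (h2 : (p : k) ≠ 0) {e c : ℕ → k}
    (he : ∀ i, e i ≠ 0) {v : HeightOneSpectrum k'[X]}
    (ι : Sep F →ₐ[F] Sep (Comp k'[X] F v)) (n : ℕ)
    (hv : ∀ i < n, ((X - C ((pcomp p e c i).eval (c i)) : k[X]).map (algebraMap k k')) ∉ v.asIdeal) :
    ∀ s : Sep F, IsRootOf (K := K) (pcomp p e c n) s →
      ∃ y : Comp k'[X] F v, ι s = algebraMap _ (Sep (Comp k'[X] F v)) y ∧ wv v y ≤ 1 := by
  haveI := hT.sep
  haveI : IsSepClosed k' := IsSepClosure.sep_closed k
  have hKF := hT.map
  have h2' : (p : k') ≠ 0 := by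
    intro h
    apply h2
    apply (algebraMap k k').injective
    rw [map_natCast, h, map_zero]
  let φ : k →+* Comp k'[X] F v :=
    (algebraMap F (Comp k'[X] F v)).comp ((algebraMap K F).comp ((algebraMap k[X] K).comp C))
  have hφ : ∀ x, φ x = algebraMap F (Comp k'[X] F v) (algebraMap k'[X] F (C (algebraMap k k' x))) := by
    intro x
    show algebraMap F _ (algebraMap K F (algebraMap k[X] K (C x))) = _
    rw [hKF, map_C]
  have hφ1 : ∀ x, wv v (φ x) ≤ 1 := fun x => by
    rw [hφ]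
    exact wv_poly v _
  have hι : ∀ x, ι (cstk k K (Sep F) x) = algebraMap _ (Sep (Comp k'[X] F v)) (φ x) := by
    intro x
    show ι (algebraMap K (Sep F) _) = _
    rw [IsScalarTower.algebraMap_apply K F (Sep F), ι.commutes,
      IsScalarTower.algebraMap_apply F (Comp k'[X] F v) (Sep (Comp k'[X] F v))]
    rfl
  set T : Comp k'[X] F v := algebraMap F (Comp k'[X] F v) (algebraMap k'[X] F X) with hTd
  have hιT : ι (algebraMap K (Sep F) (algebraMap k[X] K X)) = algebraMap _ (Sep (Comp k'[X] F v)) T := by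
    rw [IsScalarTower.algebraMap_apply K F (Sep F), ι.commutes,
      IsScalarTower.algebraMap_apply F (Comp k'[X] F v) (Sep (Comp k'[X] F v)), hKF, map_X]
  have root : ∀ (P : k[X]) (s : Sep F) (y : Comp k'[X] F v), IsRootOf (K := K) P s →
      ι s = algebraMap _ (Sep (Comp k'[X] F v)) y → P.eval₂ φ y = T := by
    intro P s y hP hs
    apply (algebraMap (Comp k'[X] F v) (Sep (Comp k'[X] F v))).injective
    refine Eq.trans ?_ hιT
    rw [← show P.eval₂ (cstk k K (Sep F)) s = algebraMap K (Sep F) (algebraMap k[X] K X) from hP]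
    have h3 := hom_eval₂ P (cstk k K (Sep F)) (ι : Sep F →+* Sep (Comp k'[X] F v)) s
    have h4 := hom_eval₂ P φ (algebraMap (Comp k'[X] F v) (Sep (Comp k'[X] F v))) y
    have e1 : (ι : Sep F →+* Sep (Comp k'[X] F v)).comp (cstk k K (Sep F)) =
        (algebraMap (Comp k'[X] F v) (Sep (Comp k'[X] F v))).comp φ := RingHom.ext hι
    rw [e1] at h3
    refine h4.trans ?_
    refine Eq.trans ?_ h3.symm
    congr 1
    exact hs.symm
  -- the root of unity
  obtain ⟨ξ, hξ, hξp, hξ1⟩ : ∃ ξ : Comp k'[X] F v,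
      algebraMap K (Sep (Comp k'[X] F v)) ζ = algebraMap _ (Sep (Comp k'[X] F v)) ξ ∧ ξ ^ p = 1 ∧
        wv v ξ = 1 := by
    refine ⟨algebraMap F _ (algebraMap K F ζ), ?_, ?_, ?_⟩
    · rw [IsScalarTower.algebraMap_apply K F (Sep (Comp k'[X] F v)),
        IsScalarTower.algebraMap_apply F (Comp k'[X] F v) (Sep (Comp k'[X] F v))]
    · rw [← map_pow, ← map_pow, hζ.pow_eq_one, map_one, map_one]
    · have h3 : wv v (algebraMap F (Comp k'[X] F v) (algebraMap K F ζ)) ^ p = 1 := by
        rw [← map_pow, ← map_pow, ← map_pow, hζ.pow_eq_one, map_one, map_one, map_one]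
      rcases lt_trichotomy (wv v (algebraMap F (Comp k'[X] F v) (algebraMap K F ζ))) 1 with h | h | h
      · exact absurd h3 (pow_lt_one₀ zero_le h hp.ne_zero).ne
      · exact h
      · exact absurd h3 (one_lt_pow₀ h hp.ne_zero).ne'
  induction n with
  | zero =>
    intro s hs
    have h1 : s = algebraMap K (Sep F) (algebraMap k[X] K X) := by
      have h3 : (X : k[X]).eval₂ (cstk k K (Sep F)) s = _ := hs
      rwa [eval₂_X] at h3
    exact ⟨T, by rw [h1, hιT], wv_poly v X⟩
  | succ n ih =>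
    intro s hs
    have hs' := rootOf_succ hs
    obtain ⟨y, hy, hy1⟩ := ih (fun i hi => hv i (by omega)) _ hs'
    have hyr := root _ _ y hs' hy
    have hcn := hφ1 (c n)
    have hu : wv v (y - φ (c n)) = 1 := by
      refine le_antisymm ((Valuation.map_sub _ _ _).trans (max_le hy1 hcn)) (not_lt.1 fun hlt => ?_)
      have h3 := (val_sub_le (wv v) φ hφ1 hy1 hcn (pcomp p e c n)).trans_lt hlt
      rw [hyr, eval₂_hom, hφ, hTd, ← map_sub, ← map_sub, wv_coe,
        v.valuation_lt_one_iff_mem] at h3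
      refine hv n (by omega) ?_
      rw [Polynomial.map_sub, map_X, map_C]
      exact h3
    have hen0 : φ (e n) ≠ 0 := (_root_.map_ne_zero _).2 (he n)
    have hen : wv v (φ (e n)) = 1 := by
      refine le_antisymm (hφ1 _) ?_
      have h3 : wv v (φ (e n)) * wv v (φ (e n)⁻¹) = 1 := by
        rw [← map_mul, ← map_mul, mul_inv_cancel₀ (he n), map_one, map_one]
      calc (1 : WithZero (Multiplicative ℤ)) = wv v (φ (e n)) * wv v (φ (e n)⁻¹) := h3.symm
        _ ≤ wv v (φ (e n)) * 1 := mul_le_mul' (le_refl _) (hφ1 _)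
        _ = _ := mul_one _
    obtain ⟨z, hz⟩ := unit_pow v hp h2' ((y - φ (c n)) / φ (e n)) (by rw [map_div₀, hu, hen, div_one])
    have hz1 : wv v z ≤ 1 := by
      by_contra hcon
      push Not at hcon
      have h3 : wv v (z ^ p) = 1 := by rw [hz, map_div₀, hu, hen, div_one]
      rw [map_pow] at h3
      exact (one_lt_pow₀ hcon hp.ne_zero).ne' h3
    have hz0 : z ≠ 0 := by
      rintro rfl
      rw [zero_pow hp.ne_zero] at hz
      have h3 : wv v ((y - φ (c n)) / φ (e n)) = 1 := by rw [map_div₀, hu, hen, div_one]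
      rw [← hz, map_zero] at h3
      exact zero_ne_one h3
    have h4 : ι s ^ p = (algebraMap _ (Sep (Comp k'[X] F v)) z) ^ p := by
      have h5 : algebraMap _ (Sep (Comp k'[X] F v)) (φ (e n)) * ι s ^ p +
          algebraMap _ (Sep (Comp k'[X] F v)) (φ (c n)) = algebraMap _ (Sep (Comp k'[X] F v)) y := by
        rw [← hy, ← hι, ← hι, map_add, map_mul, map_pow]
      have h6 : algebraMap _ (Sep (Comp k'[X] F v)) (φ (e n)) ≠ 0 := (_root_.map_ne_zero _).2 hen0
      have h7 : (algebraMap _ (Sep (Comp k'[X] F v)) z) ^ p =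
          (algebraMap _ (Sep (Comp k'[X] F v)) y - algebraMap _ (Sep (Comp k'[X] F v)) (φ (c n))) /
            algebraMap _ (Sep (Comp k'[X] F v)) (φ (e n)) := by
        rw [← map_sub, ← map_div₀, ← hz]
        exact (map_pow _ z p).symm
      rw [h7, ← h5, add_sub_cancel_right, mul_div_cancel_left₀ _ h6]
    have hzS : algebraMap (Comp k'[X] F v) (Sep (Comp k'[X] F v)) z ≠ 0 :=
      (_root_.map_ne_zero _).2 hz0
    have h5 : (ι s / algebraMap _ (Sep (Comp k'[X] F v)) z) ^ p = 1 := by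
      rw [div_pow, h4, div_self (pow_ne_zero _ hzS)]
    haveI : NeZero p := ⟨hp.ne_zero⟩
    obtain ⟨i, -, hi⟩ := (hζ.map_of_injective
      (algebraMap K (Sep (Comp k'[X] F v))).injective).eq_pow_of_pow_eq_one h5
    refine ⟨ξ ^ i * z, ?_, ?_⟩
    · rw [map_mul, map_pow, ← hξ, hi, div_mul_cancel₀ _ hzS]
    · rw [map_mul, map_pow, hξ1, one_pow, one_mul]
      exact hz1

theorem unramified_iter (hT : IsTower k k' K F) (hp : p.Prime) {ζ : K} (hζ : IsPrimitiveRoot ζ p)
    (h2 : (p : k) ≠ 0) {e c : ℕ → k} (he : ∀ i, e i ≠ 0) (n : ℕ) {E : k[X]}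
    (hE : ∀ i < n, X - C ((pcomp p e c i).eval (c i)) ∣ E) {s : Sep F}
    (hs : IsRootOf (K := K) (pcomp p e c n) s) :
    Unramified (VSet (k := k) (k' := k') (fun P => P = E)) (IntermediateField.adjoin K {s}) := by
  intro v hv ι x hx
  obtain ⟨y, hy, -⟩ := unr_iter hT hp hζ h2 he ι n (fun i hi h => by
    refine hv E rfl ?_
    obtain ⟨g, hg⟩ := hE i hi
    rw [hg, Polynomial.map_mul]
    exact Ideal.mul_mem_right _ _ h) s hs
  refine IntermediateField.adjoin_induction K (p := fun x _ => ∃ y : Comp k'[X] F v,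
    ι x = algebraMap (Comp k'[X] F v) (Sep (Comp k'[X] F v)) y) ?_ ?_ ?_ ?_ ?_ hx
  · intro z hz
    rw [Set.mem_singleton_iff] at hz
    exact ⟨y, by rw [hz, hy]⟩
  · intro z
    refine ⟨algebraMap F _ (algebraMap K F z), ?_⟩
    rw [IsScalarTower.algebraMap_apply K F (Sep F), ι.commutes,
      IsScalarTower.algebraMap_apply F (Comp k'[X] F v) (Sep (Comp k'[X] F v))]
  · rintro a b - - ⟨a', ha⟩ ⟨b', hb⟩
    exact ⟨a' + b', by rw [map_add, map_add, ha, hb]⟩
  · rintro a - ⟨a', ha⟩
    exact ⟨a'⁻¹, by rw [map_inv₀, map_inv₀, ha]⟩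
  · rintro a b - - ⟨a', ha⟩ ⟨b', hb⟩
    exact ⟨a' * b', by rw [map_mul, map_mul, ha, hb]⟩

end val

end Pool.Agent.K6.H71.PS
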