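import Pool.Agent.X261.BC.Main
import Pool.Agent.K6.H71.PS.Iter

/-!
# The branch curves and the main theorems
-/

set_option autoImplicit false
set_option linter.all false

open Polynomial IsDedekindDomain
open scoped Classical

namespace Pool.Agent.K6.H71.PS

open Pool.Agent.TH115.GD
open Pool.Agent.K6.H71.PT (IsBranchCurve IsInertProduct twist pcomp cstk IsRootOf UnramifiedOutside
  HoldsFor AllCovers AllCompositions AllRootTowers IsRootTower tate_conv div_conv)
open Pool.Agent.K6.H71.PG (Unramified VSet wv_poly val_sub_le)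

section inert

variable {k : Type} [Field k] {f : k[X][X]}

theorem inert_mul {D E : k[X]} (hD : IsInertProduct f D) (hE : IsInertProduct f E) :
    IsInertProduct f (D * E) := by
  intro P hP h
  rcases hP.prime.dvd_or_dvd h with h | h
  · exact hD P hP h
  · exact hE P hP h

theorem inert_prod {ι : Type} (s : Finset ι) (D : ι → k[X])
    (h : ∀ i ∈ s, IsInertProduct f (D i)) : IsInertProduct f (∏ i ∈ s, D i) := by
  intro P hP hd
  obtain ⟨i, hi, hd⟩ := (hP.prime.dvd_finset_prod_iff D).1 hd
  exact h i hi P hP hd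

theorem inert_lin {β : k} (h : Irreducible (f.map (evalRingHom β))) :
    IsInertProduct f (X - C β) := by
  intro P hP hd
  haveI : Fact (Irreducible P) := ⟨hP⟩
  have hX : AdjoinRoot.mk P X = AdjoinRoot.of P β := by
    have h1 : AdjoinRoot.mk P (X - C β) = 0 := AdjoinRoot.mk_eq_zero.2 hd
    rwa [map_sub, AdjoinRoot.mk_C, sub_eq_zero] at h1
  have e1 : AdjoinRoot.mk P = (AdjoinRoot.of P).comp (evalRingHom β) := by
    apply Polynomial.ringHom_ext
    · intro a
      rw [AdjoinRoot.mk_C, RingHom.comp_apply, coe_evalRingHom, eval_C]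
    · rw [hX, RingHom.comp_apply, coe_evalRingHom, eval_X]
  have hb : Function.Bijective (AdjoinRoot.of P) := by
    refine ⟨(AdjoinRoot.of P).injective, fun z => ?_⟩
    obtain ⟨g, rfl⟩ := AdjoinRoot.mk_surjective z
    exact ⟨g.eval β, by rw [e1]; rfl⟩
  rw [e1, ← Polynomial.map_map]
  exact (MulEquiv.irreducible_iff (Polynomial.mapEquiv (RingEquiv.ofBijective _ hb))).2 h

theorem exists_prod (n : ℕ) (β : ℕ → k)
    (h : ∀ i < n, Irreducible (f.map (evalRingHom (β i)))) :
    ∃ E : k[X], E ≠ 0 ∧ IsInertProduct f E ∧ ∀ i < n, X - C (β i) ∣ E :=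
  ⟨∏ i ∈ Finset.range n, (X - C (β i)), Finset.prod_ne_zero_iff.2 fun i _ => X_sub_C_ne_zero _,
    inert_prod _ _ fun i hi => inert_lin (h i (Finset.mem_range.1 hi)),
    fun i hi => Finset.dvd_prod_of_mem (fun i => X - C (β i)) (Finset.mem_range.2 hi)⟩

end inert

section main

variable {k k' K F : Type} [Field k] [Field k'] [Algebra k k'] [Field K] [Algebra k[X] K]
  [Field F] [Algebra k'[X] F] [IsFractionRing k'[X] F] [Algebra K F] {p s : ℕ}

theorem natDegree_pos_of (hp : p.Prime) {f : k[X][X]} (h : IsBranchCurve p f) :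
    0 < f.natDegree := by
  rcases Nat.eq_zero_or_pos f.natDegree with h0 | h0
  · have := h.coprime
    rw [h0, Nat.coprime_zero_right] at this
    exact absurd this hp.one_lt.ne'
  · exact h0

theorem ring_ex (hp : p.Prime) {f : k[X][X]} (h : IsBranchCurve p f) {E : k[X]}
    (hE : IsInertProduct f E) :
    ∃ (R : Type) (_ : CommRing R) (_ : IsDedekindDomain R) (_ : Algebra k R) (t x : R),
      Pool.Agent.Y160.FT.Pres t x f ∧ Pool.Agent.Y160.T7.PropT p k R ∧
        ∀ P : k[X], Irreducible P → P ∣ E → Prime (aeval t P) := by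
  haveI := h.dedekind
  exact ⟨AdjoinRoot f, inferInstance, h.dedekind, inferInstance, _, _,
    Pool.Agent.X261.BC.pres_adjoin f,
    Pool.Agent.X261.BC.propT_of_class hp.pos (Pool.Agent.X261.BC.class_of_ideal h.ideals) h.units,
    fun P hP hPD => Pool.Agent.X261.TS.prime_of_pres (Pool.Agent.X261.BC.pres_adjoin f)
      (natDegree_pos_of hp h) hP (hE P hP hPD)⟩

/-- Galois extensions. -/
theorem allCovers (hT : IsTower k k' K F) (hp : p.Prime) {ζ : k}
    (hζ : IsPrimitiveRoot ζ (p ^ (s + 1))) {f : k[X][X]} (h : IsBranchCurve p f) :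
    AllCovers k' K F p (p ^ (s + 1)) f := by
  intro N m E hG hF hm hE hEi hu L hL D hD hDi
  haveI := hT.fracK
  have hirr := h.irreducible k'
  have hM := mainG hT hp rfl hζ h.monic h.coprime hD (E := D * E) (mul_ne_zero hD hE)
    (dvd_mul_right D E) (ring_ex hp h (inert_mul hDi hEi))
    (Pool.Agent.X261.BC.sepK hT h.monic hirr h.derivative_ne_zero) h.smooth
    (Pool.Agent.X261.BC.irrF' hT h.monic hirr) hm (fun v hv => hu v fun hE' => by
      refine hv _ rfl ?_
      rw [Polynomial.map_mul]
      exact Ideal.mul_mem_left _ _ hE') hL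
  exact ⟨tate_conv hM.1, div_conv hM.2⟩

theorem rootTower_of {Ω : Type} [Field Ω] [Algebra K Ω] {L : IntermediateField K Ω}
    (h : IsRootTower p K L) : RootTower p K L := by
  induction h with
  | base => exact RootTower.base
  | step L δ _ hδ ih => exact RootTower.step L δ ih hδ

/-- Towers of roots. -/
theorem allRoots (hT : IsTower k k' K F) (hp : p.Prime) {ζ : k}
    (hζ : IsPrimitiveRoot ζ (p ^ (s + 1))) {f : k[X][X]} (h : IsBranchCurve p f) :
    AllRootTowers k' K F p (p ^ (s + 1)) f := by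
  intro L E hL hE hEi hu D hD hDi
  haveI := hT.fracK
  have hirr := h.irreducible k'
  have hM := mainR hT hp rfl hζ h.monic h.coprime hD (E := D * E) (mul_ne_zero hD hE)
    (dvd_mul_right D E) (ring_ex hp h (inert_mul hDi hEi))
    (Pool.Agent.X261.BC.sepK hT h.monic hirr h.derivative_ne_zero) h.smooth
    (Pool.Agent.X261.BC.irrF' hT h.monic hirr) (rootTower_of hL) (fun v hv => hu v fun hE' => by
      refine hv _ rfl ?_
      rw [Polynomial.map_mul]
      exact Ideal.mul_mem_left _ _ hE')
  exact ⟨tate_conv hM.1, div_conv hM.2⟩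

/-- Compositions. -/
theorem allComp (hT : IsTower k k' K F) (hp : p.Prime) {ζ : k}
    (hζ : IsPrimitiveRoot ζ (p ^ (s + 1))) {f : k[X][X]} (h : IsBranchCurve p f) :
    AllCompositions k' K F p (p ^ (s + 1)) f := by
  intro e c n he hi z hz D hD hDi
  haveI := hT.fracK
  have hirr := h.irreducible k'
  have hpk : (p : k) ≠ 0 := Pool.Agent.Y160.FT.p_ne hp rfl hζ
  have hξ : IsPrimitiveRoot (algebraMap k[X] K (C (ζ ^ (p ^ s)))) p := by
    have h5 : IsPrimitiveRoot (ζ ^ (p ^ s)) p := hζ.pow (pow_pos hp.pos _) (by rw [pow_succ])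
    exact h5.map_of_injective (f := (algebraMap k[X] K).comp C)
      ((IsFractionRing.injective k[X] K).comp C_injective)
  obtain ⟨E, hE, hEi, hEd⟩ := exists_prod n (fun i => (pcomp p e c i).eval (c i)) hi
  have hu : Unramified (VSet (k := k) (k' := k') (fun P => P = D * E))
      (IntermediateField.adjoin K {z}) :=
    unramified_iter hT hp hξ hpk he n (fun i hi' => (hEd i hi').trans (dvd_mul_left _ _)) hz
  have hM := mainR hT hp rfl hζ h.monic h.coprime hD (E := D * E) (mul_ne_zero hD hE)
    (dvd_mul_right D E) (ring_ex hp h (inert_mul hDi hEi))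
    (Pool.Agent.X261.BC.sepK hT h.monic hirr h.derivative_ne_zero) h.smooth
    (Pool.Agent.X261.BC.irrF' hT h.monic hirr) (rootTower_iter he n z hz) hu
  exact ⟨tate_conv hM.1, div_conv hM.2⟩

end main

section graph

variable {k : Type} [Field k]

/-- The curves `f₀(x) = t`. -/
theorem graph_branch {p : ℕ} (hp : p.Prime) (hpk : (p : k) ≠ 0) {f0 : k[X]} (hm : f0.Monic)
    (hc : p.Coprime f0.natDegree) (hd : derivative f0 ≠ 0) :
    IsBranchCurve p (f0.map C - C X) := by
  have hn : 0 < f0.natDegree := by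
    rcases Nat.eq_zero_or_pos f0.natDegree with h0 | h0
    · rw [h0, Nat.coprime_zero_right] at hc
      exact absurd hc hp.one_lt.ne'
    · exact h0
  have hmG := Pool.Agent.X261.TS.monic_graph hm hn
  obtain ⟨e, he⟩ := Pool.Agent.X261.BC.exists_equiv (Pool.Agent.X261.TS.pres_graph f0)
  have hded : IsDedekindDomain (AdjoinRoot (Pool.Agent.X261.TS.graph f0)) :=
    Pool.Agent.X261.BC.dedekind_equiv e
  refine ⟨hmG, ?_, ?_, ?_, ?_, hded, ?_, ?_⟩
  · show p.Coprime (Pool.Agent.X261.TS.graph f0).natDegree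
    rwa [Pool.Agent.X261.TS.natDegree_graph]
  · intro k' _ _
    have hsplit := Pool.Agent.Y3.T7.st_irr p k k' (FractionRing k'[X])
      (Pool.Agent.X261.TS.graph f0) hp (Pool.Agent.X261.TS.tower_graph p f0) hmG
    exact ((hmG.map _).irreducible_iff_irreducible_map_fraction_map (K := FractionRing k'[X])).2 hsplit
  · show derivative (f0.map C - C X) ≠ 0
    rw [derivative_sub, derivative_C, sub_zero, derivative_map,
      Polynomial.map_ne_zero_iff C_injective]
    exact hd
  · exact Pool.Agent.Y179.T7.st_smooth p k _ hp hpk (Pool.Agent.X261.TS.tower_graph p f0)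
  · exact Pool.Agent.X261.BC.principal_equiv e fun I _ => inferInstance
  · intro (u : (AdjoinRoot (Pool.Agent.X261.TS.graph f0))ˣ)
    obtain ⟨c, hc0, hcu⟩ := Polynomial.isUnit_iff.1 (Units.mapEquiv e.symm.toMulEquiv u).isUnit
    refine ⟨c, ?_⟩
    have h1 : e.symm (u : AdjoinRoot (Pool.Agent.X261.TS.graph f0)) = C c := hcu.symm
    have h2 : e (C c) = algebraMap k (AdjoinRoot (Pool.Agent.X261.TS.graph f0)) c := he c
    have h3 : (u : AdjoinRoot (Pool.Agent.X261.TS.graph f0)) =
        algebraMap k (AdjoinRoot (Pool.Agent.X261.TS.graph f0)) c := by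
      rw [← h2, ← h1, RingEquiv.apply_symm_apply]
    exact h3

end graph

end Pool.Agent.K6.H71.PS
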