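import Pool.Agent.K6.H71.PT.Gal
import Pool.Agent.K6.H71.PS.Cnt
import Pool.Agent.K6.H71.PS.Gen

/-!
# Fields without roots of unity
-/

set_option autoImplicit false
set_option linter.all false

open Polynomial IsDedekindDomain
open scoped Classical

namespace Pool.Agent.K6.H71.PS

open Pool.Agent.TH115.GD
open Pool.Agent.K6.H71.PT (IsBranchCurve IsInertProduct twist pcomp cstk IsRootOf UnramifiedOutside
  HoldsFor AllCovers AllCompositions AllRootTowers IsRootTower overK IsInertOver HoldsOver NoClasses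
  up mem_up up_mono up_gal up_root up_unr tate_desc tate_of_no over_iff)

section low

variable {k k₁ k' K K₁ F : Type} [Field k] [Field k₁] [Field k'] [Algebra k k₁] [Algebra k k']
  [Algebra k₁ k'] [IsScalarTower k k₁ k'] [Field K] [Algebra k[X] K] [Field K₁] [Algebra k₁[X] K₁]
  [Field F] [Algebra k'[X] F] [IsFractionRing k'[X] F] [Algebra K K₁] [Algebra K F] [Algebra K₁ F]
  [IsScalarTower K K₁ F] {p s : ℕ}

theorem twist_up (hKK : ∀ P : k[X], algebraMap K K₁ (algebraMap k[X] K P) =
      algebraMap k₁[X] K₁ (P.map (algebraMap k k₁))) {f : k[X][X]} (hm : f.Monic) (D : k[X]) :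
    (twist K f D).map (algebraMap K K₁) = twist K₁ (overK k₁ f) (D.map (algebraMap k k₁)) := by
  have e : (algebraMap K K₁).comp (algebraMap k[X] K) =
      (algebraMap k₁[X] K₁).comp (mapRingHom (algebraMap k k₁)) := RingHom.ext hKK
  show ((f.scaleRoots D).map (algebraMap k[X] K)).map (algebraMap K K₁) =
    ((f.map (mapRingHom (algebraMap k k₁))).scaleRoots (D.map (algebraMap k k₁))).map
      (algebraMap k₁[X] K₁)
  rw [Polynomial.map_map, e, ← Polynomial.map_map, map_scaleRoots f D (mapRingHom _) (by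
    rw [hm.leadingCoeff, map_one]
    exact one_ne_zero)]
  rfl

theorem monic_of_overK {f : k[X][X]} (h : (overK k₁ f).Monic) : f.Monic := by
  have hinj : Function.Injective (mapRingHom (algebraMap k k₁)) :=
    Polynomial.map_injective _ (algebraMap k k₁).injective
  exact Polynomial.monic_of_injective hinj h

/-- From `K₁` to `K`. -/
theorem holds_low (hKK : ∀ P : k[X], algebraMap K K₁ (algebraMap k[X] K P) =
      algebraMap k₁[X] K₁ (P.map (algebraMap k k₁))) {f : k[X][X]} (hm : f.Monic) {q : ℕ}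
    {L : IntermediateField K (Sep F)} {L₁ : IntermediateField K₁ (Sep F)} (hL : ∀ x ∈ L, x ∈ L₁)
    (hL₁ : L₁ ≤ IntermediateField.adjoin K₁ (L : Set (Sep F)))
    (h : HoldsFor k' K₁ F p q (overK k₁ f) L₁) : HoldsOver k' K F k₁ p q f L := by
  intro D hD hDi
  have hD1 : D.map (algebraMap k k₁) ≠ 0 :=
    (Polynomial.map_ne_zero_iff (algebraMap k k₁).injective).2 hD
  obtain ⟨h1, h2⟩ := h _ hD1 hDi
  rw [← twist_up hKK hm] at h1 h2
  have h3 := tate_desc hL hL₁ h1 h2
  exact ⟨tate_of_no h3, h3⟩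

/-- (1) -/
theorem lowCovers (hT : IsTower k k' K F) (hT₁ : IsTower k₁ k' K₁ F) (hp : p.Prime) {ζ : k₁}
    (hζ : IsPrimitiveRoot ζ (p ^ (s + 1)))
    (hKK : ∀ P : k[X], algebraMap K K₁ (algebraMap k[X] K P) =
      algebraMap k₁[X] K₁ (P.map (algebraMap k k₁))) {f : k[X][X]}
    (hf : IsBranchCurve p (overK k₁ f)) {N : IntermediateField K (Sep F)} {m : ℕ} {E : k[X]}
    [IsGalois K N] [FiniteDimensional K N] (hN : Module.finrank K N = p ^ m) (hE : E ≠ 0)
    (hEi : IsInertOver k₁ f E) (hu : UnramifiedOutside k' K F E N)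
    {L : IntermediateField K (Sep F)} (hL : L ≤ N) :
    HoldsOver k' K F k₁ p (p ^ (s + 1)) f L := by
  haveI := hT.sep
  haveI := hT.fracK
  haveI := hT₁.sep
  haveI := hT₁.fracK
  haveI : IsGalois k k' := inferInstance
  haveI : IsGalois k₁ k' := inferInstance
  haveI : IsSepClosure K (Sep F) := sepKΩ hT.map
  haveI : IsSepClosure K₁ (Sep F) := sepKΩ hT₁.map
  haveI : Algebra.IsSeparable K (Sep F) := IsSepClosure.separable
  haveI : Algebra.IsSeparable K₁ (Sep F) := IsSepClosure.separable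
  haveI : IsGalois K (Sep F) := inferInstance
  haveI : IsGalois K₁ (Sep F) := inferInstance
  obtain ⟨h1, h2, m', h3⟩ := up_gal (K₁ := K₁) hp hN
  have hE1 : E.map (algebraMap k k₁) ≠ 0 :=
    (Polynomial.map_ne_zero_iff (algebraMap k k₁).injective).2 hE
  exact holds_low hKK (monic_of_overK hf.monic) (fun x hx => mem_up hx) le_rfl
    (allCovers hT₁ hp hζ hf (up K₁ N) m' _ h1 h2 h3 hE1 hEi (up_unr hu) (up K₁ L) (up_mono hL))

/-- (2) -/
theorem lowRoots (hT₁ : IsTower k₁ k' K₁ F) (hp : p.Prime) {ζ : k₁}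
    (hζ : IsPrimitiveRoot ζ (p ^ (s + 1)))
    (hKK : ∀ P : k[X], algebraMap K K₁ (algebraMap k[X] K P) =
      algebraMap k₁[X] K₁ (P.map (algebraMap k k₁))) {f : k[X][X]}
    (hf : IsBranchCurve p (overK k₁ f)) {L : IntermediateField K (Sep F)} {E : k[X]}
    (hL : IsRootTower p K L) (hE : E ≠ 0) (hEi : IsInertOver k₁ f E)
    (hu : UnramifiedOutside k' K F E L) : HoldsOver k' K F k₁ p (p ^ (s + 1)) f L := by
  have hE1 : E.map (algebraMap k k₁) ≠ 0 :=
    (Polynomial.map_ne_zero_iff (algebraMap k k₁).injective).2 hE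
  exact holds_low hKK (monic_of_overK hf.monic) (fun x hx => mem_up hx) le_rfl
    (allRoots hT₁ hp hζ hf (up K₁ L) _ (up_root hL) hE1 hEi (up_unr hu))

theorem pcomp_map (e c : ℕ → k) (n : ℕ) : (pcomp p e c n).map (algebraMap k k₁) =
    pcomp p (fun i => algebraMap k k₁ (e i)) (fun i => algebraMap k k₁ (c i)) n := by
  induction n with
  | zero => simp [pcomp]
  | succ n ih => rw [pcomp, pcomp, Polynomial.map_comp, ih]; simp

/-- (3) -/
theorem lowComp (hT₁ : IsTower k₁ k' K₁ F) (hp : p.Prime) {ζ : k₁}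
    (hζ : IsPrimitiveRoot ζ (p ^ (s + 1)))
    (hKK : ∀ P : k[X], algebraMap K K₁ (algebraMap k[X] K P) =
      algebraMap k₁[X] K₁ (P.map (algebraMap k k₁))) {f : k[X][X]}
    (hf : IsBranchCurve p (overK k₁ f)) {e c : ℕ → k} {n : ℕ} (he : ∀ i, e i ≠ 0)
    (hi : ∀ i < n, Irreducible ((overK k₁ f).map
      (evalRingHom (algebraMap k k₁ ((pcomp p e c i).eval (c i)))))) {z : Sep F}
    (hz : IsRootOf (K := K) (pcomp p e c n) z) :
    HoldsOver k' K F k₁ p (p ^ (s + 1)) f (IntermediateField.adjoin K {z}) := by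
  refine holds_low hKK (monic_of_overK hf.monic) (L₁ := IntermediateField.adjoin K₁ {z}) ?_ ?_
    (allComp hT₁ hp hζ hf (fun i => algebraMap k k₁ (e i)) (fun i => algebraMap k k₁ (c i)) n
      (fun i => (_root_.map_ne_zero _).2 (he i)) (fun i hi' => ?_) z ?_)
  · intro x hx
    refine IntermediateField.adjoin_induction K
      (p := fun x _ => x ∈ IntermediateField.adjoin K₁ {z}) ?_ ?_ ?_ ?_ ?_ hx
    · intro y hy
      exact IntermediateField.subset_adjoin K₁ _ hy
    · intro y
      rw [IsScalarTower.algebraMap_apply K K₁ (Sep F)]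
      exact IntermediateField.algebraMap_mem _ _
    · rintro a b - - ha hb
      exact add_mem ha hb
    · rintro a - ha
      exact inv_mem ha
    · rintro a b - - ha hb
      exact mul_mem ha hb
  · rw [IntermediateField.adjoin_le_iff, Set.singleton_subset_iff]
    exact IntermediateField.subset_adjoin K₁ _ (IntermediateField.mem_adjoin_simple_self K z)
  · have h1 := hi i hi'
    rwa [← eval₂_at_apply, ← eval_map, pcomp_map] at h1
  · show eval₂ (cstk k₁ K₁ (Sep F)) z _ = _
    rw [← pcomp_map, eval₂_map]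
    have e1 : (cstk k₁ K₁ (Sep F)).comp (algebraMap k k₁) = cstk k K (Sep F) := by
      apply RingHom.ext
      intro x
      show algebraMap K₁ (Sep F) (algebraMap k₁[X] K₁ (C (algebraMap k k₁ x))) =
        algebraMap K (Sep F) (algebraMap k[X] K (C x))
      rw [IsScalarTower.algebraMap_apply K K₁ (Sep F), hKK, map_C]
    have e2 : algebraMap K₁ (Sep F) (algebraMap k₁[X] K₁ X) =
        algebraMap K (Sep F) (algebraMap k[X] K X) := by
      rw [IsScalarTower.algebraMap_apply K K₁ (Sep F), hKK, map_X]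
    rw [e1, e2]
    exact hz

end low

end Pool.Agent.K6.H71.PS
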