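import Pool.Agent.K6.H71.PS.Low

/-!
# Fields without roots of unity: the fields of constants, inert primes
-/

set_option autoImplicit false
set_option linter.all false

open Polynomial IsDedekindDomain
open scoped Classical

namespace Pool.Agent.K6.H71.PS

open Pool.Agent.TH115.GD
open Pool.Agent.K6.H71.PT (IsBranchCurve IsInertProduct twist pcomp cstk IsRootOf UnramifiedOutside
  HoldsFor AllCovers AllCompositions AllRootTowers IsRootTower overK IsInertOver HoldsOver NoClasses
  up mem_up up_mono up_gal up_root up_unr tate_desc tate_of_no over_iff)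

section exist

variable {k k₁ k' K F : Type} [Field k] [Field k₁] [Field k'] [Algebra k k₁] [Algebra k k']
  [Algebra k₁ k'] [IsScalarTower k k₁ k'] [Field K] [Algebra k[X] K]
  [Field F] [Algebra k'[X] F] [IsFractionRing k'[X] F] [Algebra K F]

/-- The field `k₁(t)`. -/
theorem with_K₁ (hT : IsTower k k' K F) {Goal : Prop}
    (cont : ∀ (K₁ : Type) [Field K₁] [Algebra k₁[X] K₁] [Algebra K K₁] [Algebra K₁ F]
      [IsScalarTower K K₁ F], IsTower k₁ k' K₁ F →
      (∀ P : k[X], algebraMap K K₁ (algebraMap k[X] K P) =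
        algebraMap k₁[X] K₁ (P.map (algebraMap k k₁))) → Goal) : Goal := by
  haveI := hT.sep
  haveI := hT.fracK
  let K₁ := FractionRing k₁[X]
  let φ : k[X] →+* K₁ := (algebraMap k₁[X] K₁).comp (mapRingHom (algebraMap k k₁))
  have hφ : Function.Injective φ :=
    (IsFractionRing.injective k₁[X] K₁).comp (Polynomial.map_injective _ (algebraMap k k₁).injective)
  let φ' : K →+* K₁ := IsFractionRing.lift hφ
  have hφ' : ∀ P, φ' (algebraMap k[X] K P) = algebraMap k₁[X] K₁ (P.map (algebraMap k k₁)) :=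
    fun P => IsFractionRing.lift_algebraMap hφ P
  let ψ : k₁[X] →+* F := (algebraMap k'[X] F).comp (mapRingHom (algebraMap k₁ k'))
  have hψ : Function.Injective ψ :=
    (IsFractionRing.injective k'[X] F).comp (Polynomial.map_injective _ (algebraMap k₁ k').injective)
  let ψ' : K₁ →+* F := IsFractionRing.lift hψ
  have hψ' : ∀ P, ψ' (algebraMap k₁[X] K₁ P) = algebraMap k'[X] F (P.map (algebraMap k₁ k')) :=
    fun P => IsFractionRing.lift_algebraMap hψ P
  letI : Algebra K K₁ := φ'.toAlgebra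
  letI : Algebra K₁ F := ψ'.toAlgebra
  haveI : IsScalarTower K K₁ F := by
    refine IsScalarTower.of_algebraMap_eq fun x => ?_
    obtain ⟨a, b, hb, rfl⟩ := IsFractionRing.div_surjective (A := k[X]) x
    show _ = ψ' (φ' _)
    have key : ∀ P : k[X], algebraMap K F (algebraMap k[X] K P) =
        ψ' (φ' (algebraMap k[X] K P)) := by
      intro P
      rw [hφ', hψ', hT.map, Polynomial.map_map, ← IsScalarTower.algebraMap_eq]
    rw [map_div₀, map_div₀, map_div₀, key, key]
  refine cont K₁ ⟨?_, inferInstance, fun P => hψ' P⟩ fun P => hφ' P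
  haveI : IsSepClosed k' := IsSepClosure.sep_closed k
  haveI : Algebra.IsSeparable k k' := IsSepClosure.separable
  exact ⟨inferInstance, Algebra.isSeparable_tower_top_of_isSeparable k k₁ k'⟩

end exist

section cop

variable {κ κ₁ : Type} [Field κ] [Field κ₁] [Algebra κ κ₁]

/-- An irreducible polynomial remains irreducible over extensions of relatively prime degree. -/
theorem irr_coprime [FiniteDimensional κ κ₁] {g : κ[X]} (hg : Irreducible g)
    (hco : g.natDegree.Coprime (Module.finrank κ κ₁)) : Irreducible (g.map (algebraMap κ κ₁)) := by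
  have hg0 : (g.map (algebraMap κ κ₁)).natDegree ≠ 0 := by
    rw [natDegree_map]
    exact hg.natDegree_pos.ne'
  obtain ⟨π, hπ, hπP⟩ : ∃ π : κ₁[X], Irreducible π ∧ π ∣ g.map (algebraMap κ κ₁) :=
    exists_irreducible_of_natDegree_ne_zero hg0
  haveI : Fact (Irreducible π) := ⟨hπ⟩
  let M := AdjoinRoot π
  let θ : M := AdjoinRoot.root π
  haveI : FiniteDimensional κ₁ M := (AdjoinRoot.powerBasis hπ.ne_zero).finite
  haveI : FiniteDimensional κ M := FiniteDimensional.trans κ κ₁ M
  have hθ : aeval θ g = 0 := by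
    have h1 : aeval θ g = aeval θ (g.map (algebraMap κ κ₁)) := by
      rw [aeval_map_algebraMap]
    rw [h1]
    obtain ⟨r, hr⟩ := hπP
    rw [hr, map_mul]
    have h2 : aeval θ π = 0 := AdjoinRoot.aeval_eq π ▸ AdjoinRoot.mk_self
    rw [h2, zero_mul]
  have hmin : (minpoly κ θ).natDegree = g.natDegree := by
    have h1 : g * C g.leadingCoeff⁻¹ = minpoly κ θ := minpoly.eq_of_irreducible hg hθ
    rw [← h1, natDegree_mul_C (inv_ne_zero (leadingCoeff_ne_zero.2 hg.ne_zero))]
  have hdvd := minpoly.degree_dvd (K := κ) (x := θ) (Algebra.IsIntegral.isIntegral θ)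
  rw [hmin, ← Module.finrank_mul_finrank κ κ₁ M,
    (AdjoinRoot.powerBasis hπ.ne_zero).finrank, AdjoinRoot.powerBasis_dim] at hdvd
  have hd2 : g.natDegree ∣ π.natDegree := hco.dvd_of_dvd_mul_left hdvd
  have hd3 : (g.map (algebraMap κ κ₁)).natDegree ≤ π.natDegree := by
    rw [natDegree_map]
    exact Nat.le_of_dvd hπ.natDegree_pos hd2
  have hass : Associated π (g.map (algebraMap κ κ₁)) :=
    associated_of_dvd_of_natDegree_le hπP ((Polynomial.map_ne_zero_iff
      (algebraMap κ κ₁).injective).2 hg.ne_zero) hd3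
  exact hass.irreducible hπ

/-- The degree of a cyclotomic extension. -/
theorem cyc_deg {q : ℕ} (hq : (q : κ) ≠ 0) {ζ : κ₁} (hζ : IsPrimitiveRoot ζ q)
    (htop : IntermediateField.adjoin κ {ζ} = ⊤) :
    FiniteDimensional κ κ₁ ∧ Module.finrank κ κ₁ ∣ q.totient := by
  have hq0 : q ≠ 0 := by
    rintro rfl
    exact hq Nat.cast_zero
  haveI : NeZero q := ⟨hq0⟩
  haveI : NeZero (q : κ) := ⟨hq⟩
  have hint : IsIntegral κ ζ := hζ.isIntegral (Nat.pos_of_ne_zero hq0) |>.tower_top
  have halg : Algebra.adjoin κ {ζ} = ⊤ := by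
    rw [← IntermediateField.adjoin_simple_toSubalgebra_of_isAlgebraic hint.isAlgebraic, htop,
      IntermediateField.top_toSubalgebra]
  haveI : IsCyclotomicExtension {q} κ κ₁ := by
    rw [IsCyclotomicExtension.iff_adjoin_eq_top]
    refine ⟨fun n hn _ => ?_, ?_⟩
    · rw [Set.mem_singleton_iff] at hn
      rw [hn]
      exact ⟨ζ, hζ⟩
    · rw [eq_top_iff, ← halg]
      refine Algebra.adjoin_mono ?_
      rw [Set.singleton_subset_iff]
      exact ⟨q, rfl, hq0, hζ.pow_eq_one⟩
  haveI : FiniteDimensional κ κ₁ := IsCyclotomicExtension.finiteDimensional {q} κ κ₁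
  haveI : IsGalois κ κ₁ := IsCyclotomicExtension.isGalois {q} κ κ₁
  refine ⟨inferInstance, ?_⟩
  rw [← IsGalois.card_aut_eq_finrank κ κ₁, ← ZMod.card_units_eq_totient q,
    ← Nat.card_eq_fintype_card]
  exact Subgroup.card_dvd_of_injective (hζ.autToPow κ) (hζ.autToPow_injective κ)

end cop

section inert

variable {k k₁ : Type} [Field k] [Field k₁] [Algebra k k₁] {q : ℕ}

theorem mk_eval₂ (P : k[X]) (g : k[X]) :
    AdjoinRoot.mk P g = eval₂ (AdjoinRoot.of P) (AdjoinRoot.root P) g := by
  rw [← AdjoinRoot.aeval_eq, aeval_def, AdjoinRoot.algebraMap_eq]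

theorem exists_below {P₁ : k₁[X]} (hP₁ : Irreducible P₁) : ∀ D : k[X], D ≠ 0 →
    P₁ ∣ D.map (algebraMap k k₁) → ∃ P : k[X], Irreducible P ∧ P ∣ D ∧
      P₁ ∣ P.map (algebraMap k k₁) := by
  intro D
  refine WfDvdMonoid.induction_on_irreducible D ?_ ?_ ?_
  · intro h
    exact absurd rfl h
  · intro u hu _ hd
    exact absurd (isUnit_of_dvd_unit hd (hu.map (mapRingHom (algebraMap k k₁)))) hP₁.not_isUnit
  · intro a i ha hi ih h0 hd
    rw [Polynomial.map_mul] at hd
    rcases hP₁.prime.dvd_or_dvd hd with h | h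
    · exact ⟨i, hi, dvd_mul_right _ _, h⟩
    · obtain ⟨P, h1, h2, h3⟩ := ih ha h
      exact ⟨P, h1, h2.trans (dvd_mul_left _ _), h3⟩

theorem inert_over (hq : (q : k) ≠ 0) {ζ : k₁} (hζ : IsPrimitiveRoot ζ q)
    (htop : IntermediateField.adjoin k {ζ} = ⊤) {f : k[X][X]} (hm : f.Monic)
    (hco : f.natDegree.Coprime q.totient) {D : k[X]} (hD : D ≠ 0) (h : IsInertProduct f D) :
    IsInertOver k₁ f D := by
  intro P₁ hP₁ hd
  obtain ⟨P, hP, hPD, hPP⟩ := exists_below hP₁ D hD hd
  haveI : Fact (Irreducible P) := ⟨hP⟩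
  haveI : Fact (Irreducible P₁) := ⟨hP₁⟩
  let j : AdjoinRoot P →+* AdjoinRoot P₁ :=
    AdjoinRoot.lift ((AdjoinRoot.of P₁).comp (algebraMap k k₁)) (AdjoinRoot.root P₁) (by
      rw [← eval₂_map, ← mk_eval₂]
      exact AdjoinRoot.mk_eq_zero.2 hPP)
  have hjr : j (AdjoinRoot.root P) = AdjoinRoot.root P₁ := AdjoinRoot.lift_root _
  have hjo : ∀ x, j (AdjoinRoot.of P x) = AdjoinRoot.of P₁ (algebraMap k k₁ x) := fun x =>
    AdjoinRoot.lift_of _
  letI : Algebra (AdjoinRoot P) (AdjoinRoot P₁) := j.toAlgebra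
  have hζ' : IsPrimitiveRoot (AdjoinRoot.of P₁ ζ) q := hζ.map_of_injective (AdjoinRoot.of P₁).injective
  have htop' : IntermediateField.adjoin (AdjoinRoot P) {AdjoinRoot.of P₁ ζ} = ⊤ := by
    rw [eq_top_iff]
    rintro z -
    obtain ⟨g, rfl⟩ := AdjoinRoot.mk_surjective z
    have hj : ∀ x, j x ∈ IntermediateField.adjoin (AdjoinRoot P) {AdjoinRoot.of P₁ ζ} := fun x =>
      IntermediateField.algebraMap_mem _ x
    have ho : ∀ x : k₁, AdjoinRoot.of P₁ x ∈
        IntermediateField.adjoin (AdjoinRoot P) {AdjoinRoot.of P₁ ζ} := by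
      intro x
      have hx : x ∈ IntermediateField.adjoin k {ζ} := by rw [htop]; trivial
      refine IntermediateField.adjoin_induction k (p := fun x _ => AdjoinRoot.of P₁ x ∈
        IntermediateField.adjoin (AdjoinRoot P) {AdjoinRoot.of P₁ ζ}) ?_ ?_ ?_ ?_ ?_ hx
      · intro y hy
        rw [Set.mem_singleton_iff] at hy
        rw [hy]
        exact IntermediateField.mem_adjoin_simple_self _ _
      · intro y
        rw [← hjo]
        exact hj _
      · rintro a b - - ha hb
        rw [map_add]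
        exact add_mem ha hb
      · rintro a - ha
        rw [map_inv₀]
        exact inv_mem ha
      · rintro a b - - ha hb
        rw [map_mul]
        exact mul_mem ha hb
    rw [mk_eval₂, eval₂_eq_sum]
    refine sum_mem fun i _ => mul_mem (ho _) (pow_mem ?_ _)
    rw [← hjr]
    exact hj _
  have hq' : (q : AdjoinRoot P) ≠ 0 := by
    intro h0
    apply hq
    apply (AdjoinRoot.of P).injective
    rw [map_natCast, h0, map_zero]
  obtain ⟨h1, h2⟩ := cyc_deg hq' hζ' htop'
  haveI := h1
  have h3 := irr_coprime (κ₁ := AdjoinRoot P₁) (h P hP hPD) (by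
    rw [hm.natDegree_map]
    exact Nat.Coprime.coprime_dvd_right h2 hco)
  rw [Polynomial.map_map] at h3
  show Irreducible ((f.map (mapRingHom (algebraMap k k₁))).map (AdjoinRoot.mk P₁))
  rw [Polynomial.map_map]
  have e : (AdjoinRoot.mk P₁).comp (mapRingHom (algebraMap k k₁)) =
      (algebraMap (AdjoinRoot P) (AdjoinRoot P₁)).comp (AdjoinRoot.mk P) := by
    apply Polynomial.ringHom_ext
    · intro a
      show AdjoinRoot.mk P₁ ((C a).map (algebraMap k k₁)) = j (AdjoinRoot.mk P (C a))
      rw [map_C, AdjoinRoot.mk_C, AdjoinRoot.mk_C, hjo]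
    · show AdjoinRoot.mk P₁ ((X : k[X]).map (algebraMap k k₁)) = j (AdjoinRoot.mk P X)
      rw [map_X, AdjoinRoot.mk_X, AdjoinRoot.mk_X, hjr]
  rw [e]
  exact h3

theorem inert_over_at (hq : (q : k) ≠ 0) {ζ : k₁} (hζ : IsPrimitiveRoot ζ q)
    (htop : IntermediateField.adjoin k {ζ} = ⊤) {f : k[X][X]} (hm : f.Monic)
    (hco : f.natDegree.Coprime q.totient) {β : k} (h : Irreducible (f.map (evalRingHom β))) :
    Irreducible ((overK k₁ f).map (evalRingHom (algebraMap k k₁ β))) := by
  obtain ⟨h1, h2⟩ := cyc_deg hq hζ htop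
  haveI := h1
  have h3 := irr_coprime (κ₁ := k₁) h (by
    rw [hm.natDegree_map]
    exact Nat.Coprime.coprime_dvd_right h2 hco)
  rw [Polynomial.map_map] at h3
  show Irreducible ((f.map (mapRingHom (algebraMap k k₁))).map _)
  rw [Polynomial.map_map]
  have e : (evalRingHom (algebraMap k k₁ β)).comp (mapRingHom (algebraMap k k₁)) =
      (algebraMap k k₁).comp (evalRingHom β) := by
    apply Polynomial.ringHom_ext
    · intro a
      simp
    · simp
  rw [e]
  exact h3

theorem over_graph (f₀ : k[X]) : overK k₁ (f₀.map C - C X) =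
    (f₀.map (algebraMap k k₁)).map C - C X := by
  show (f₀.map C - C X : k[X][X]).map (mapRingHom (algebraMap k k₁)) = _
  rw [Polynomial.map_sub, Polynomial.map_map, map_C, Polynomial.map_map]
  congr 1
  · congr 1
    apply RingHom.ext
    intro x
    simp
  · simp

end inert


end Pool.Agent.K6.H71.PS
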