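import Pool.Agent.K6.H71.PS.Low2

/-!
# The generic iterates over `k₀(u)`, `k₀` any field
-/

set_option autoImplicit false
set_option linter.all false

open Polynomial IsDedekindDomain
open scoped Classical

namespace Pool.Agent.K6.H71.PS

open Pool.Agent.TH115.GD
open Pool.Agent.K6.H71.PT (IsBranchCurve IsInertProduct twist pcomp cstk IsRootOf UnramifiedOutside
  HoldsFor AllCovers AllCompositions AllRootTowers IsRootTower overK IsInertOver HoldsOver NoClasses
  up)

theorem inert_const {k k₁ : Type} [Field k] [Field k₁] [Algebra k k₁] {f : k[X][X]} {d : k}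
    (hd : d ≠ 0) : IsInertOver k₁ f (C d) := by
  intro P hP hPd
  rw [map_C] at hPd
  exact absurd (isUnit_of_dvd_unit hPd (((_root_.map_ne_zero _).2 hd).isUnit.map C)) hP.not_isUnit

/-- The field `k₁ = k₀(ζ)(u)` between `k = k₀(u)` and `k'`. -/
theorem with_k₁ {k₀ k k' : Type} [Field k₀] [Field k] [Algebra k₀[X] k] [IsFractionRing k₀[X] k]
    [Field k'] [Algebra k k'] [IsSepClosure k k'] {q : ℕ} (hq : (q : k₀) ≠ 0) {Goal : Prop}
    (cont : ∀ (k₂ k₁ : Type) [Field k₂] [Algebra k₀ k₂] [Field k₁] [Algebra k₂[X] k₁]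
      [IsFractionRing k₂[X] k₁] [Algebra k k₁] [Algebra k₁ k'] [IsScalarTower k k₁ k'] (ζ : k₂),
      IsPrimitiveRoot ζ q → (∀ P : k₀[X], algebraMap k k₁ (algebraMap k₀[X] k P) =
        algebraMap k₂[X] k₁ (P.map (algebraMap k₀ k₂))) → Goal) : Goal := by
  haveI : IsSepClosed k' := IsSepClosure.sep_closed k
  letI : Algebra k₀ k := ((algebraMap k₀[X] k).comp C).toAlgebra
  letI : Algebra k₀ k' := ((algebraMap k k').comp ((algebraMap k₀[X] k).comp C)).toAlgebra
  haveI : NeZero (q : k') := ⟨by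
    intro h
    apply hq
    apply (algebraMap k₀ k').injective
    rw [map_natCast, h, map_zero]⟩
  obtain ⟨ζ, hζ⟩ := HasEnoughRootsOfUnity.exists_primitiveRoot k' q
  have hq0 : 0 < q := Nat.pos_of_ne_zero (by
    rintro rfl
    exact hq Nat.cast_zero)
  have hint : IsIntegral k₀ ζ := (hζ.isIntegral hq0).tower_top
  let k₂ : IntermediateField k₀ k' := IntermediateField.adjoin k₀ {ζ}
  haveI : FiniteDimensional k₀ k₂ := IntermediateField.adjoin.finiteDimensional hint
  let ζ₂ : k₂ := ⟨ζ, IntermediateField.mem_adjoin_simple_self k₀ ζ⟩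
  have hζ₂ : IsPrimitiveRoot ζ₂ q :=
    IsPrimitiveRoot.of_map_of_injective (f := algebraMap k₂ k') hζ (algebraMap k₂ k').injective
  set u : k' := algebraMap k k' (algebraMap k₀[X] k X) with hu
  have hev : ∀ P : k₀[X], aeval u P = algebraMap k k' (algebraMap k₀[X] k P) := by
    intro P
    have h1 := hom_eval₂ P C ((algebraMap k k').comp (algebraMap k₀[X] k)) X
    rw [eval₂_C_X] at h1
    exact h1.symm
  have htr : Transcendental k₀ u := by
    rw [transcendental_iff_injective]
    intro P Q h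
    rw [hev, hev] at h
    exact IsFractionRing.injective k₀[X] k ((algebraMap k k').injective h)
  have htr₂ : Transcendental k₂ u := fun h => htr (h.restrictScalars k₀)
  let k₁ := FractionRing k₂[X]
  let φ : k₀[X] →+* k₁ := (algebraMap k₂[X] k₁).comp (mapRingHom (algebraMap k₀ k₂))
  have hφ : Function.Injective φ :=
    (IsFractionRing.injective k₂[X] k₁).comp
      (Polynomial.map_injective _ (algebraMap k₀ k₂).injective)
  let φ' : k →+* k₁ := IsFractionRing.lift hφ
  have hφ' : ∀ P, φ' (algebraMap k₀[X] k P) = algebraMap k₂[X] k₁ (P.map (algebraMap k₀ k₂)) :=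
    fun P => IsFractionRing.lift_algebraMap hφ P
  let ψ : k₂[X] →+* k' := ((aeval u : k₂[X] →ₐ[k₂] k') : k₂[X] →+* k')
  have hψ : Function.Injective ψ := transcendental_iff_injective.1 htr₂
  let ψ' : k₁ →+* k' := IsFractionRing.lift hψ
  have hψ' : ∀ P, ψ' (algebraMap k₂[X] k₁ P) = aeval u P :=
    fun P => IsFractionRing.lift_algebraMap hψ P
  letI : Algebra k k₁ := φ'.toAlgebra
  letI : Algebra k₁ k' := ψ'.toAlgebra
  haveI : IsScalarTower k k₁ k' := by
    refine IsScalarTower.of_algebraMap_eq fun x => ?_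
    obtain ⟨a, b, hb, rfl⟩ := IsFractionRing.div_surjective (A := k₀[X]) x
    show _ = ψ' (φ' _)
    have key : ∀ P : k₀[X], algebraMap k k' (algebraMap k₀[X] k P) =
        ψ' (φ' (algebraMap k₀[X] k P)) := by
      intro P
      rw [hφ', hψ', aeval_map_algebraMap, hev]
    rw [map_div₀, map_div₀, map_div₀, key, key]
  exact cont k₂ k₁ ζ₂ hζ₂ hφ'

variable {k₀ k k' K F : Type} [Field k₀] [Field k] [Algebra k₀[X] k] [IsFractionRing k₀[X] k]
  [Field k'] [Algebra k k'] [Field K] [Algebra k[X] K] [Field F] [Algebra k'[X] F]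
  [IsFractionRing k'[X] F] [Algebra K F] {p : ℕ}

/-- The generic iterates. -/
theorem generic_low (hT : IsTower k k' K F) (hp : p.Prime) (s : ℕ) (hpk : (p : k₀) ≠ 0)
    {f₀ : k₀[X]} {e : ℕ → k₀} {c : ℕ → k₀[X]} {d : ℕ} (hm : f₀.Monic)
    (hco : p.Coprime f₀.natDegree) (hder : derivative f₀ ≠ 0) (he : ∀ i, e i ≠ 0) (hd0 : 0 < d)
    (hdc : d.Coprime f₀.natDegree) (hc : ∀ i, (c i).natDegree = d) (n : ℕ) {z : Sep F}
    (hz : IsRootOf (K := K) (pcomp p (fun i => algebraMap k₀[X] k (C (e i)))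
      (fun i => algebraMap k₀[X] k (c i)) n) z) {δ : k} (hδ : δ ≠ 0) :
    Pool.Agent.K6.H71.PT.TateOver p (p ^ (s + 1)) (twist K ((f₀.map ((algebraMap k₀[X] k).comp C)).map C - C X) (C δ))
      (IntermediateField.adjoin K {z}) k' ∧
    NoClasses p (p ^ (s + 1)) (twist K ((f₀.map ((algebraMap k₀[X] k).comp C)).map C - C X) (C δ))
      (IntermediateField.adjoin K {z}) k' := by
  haveI := hT.sep
  have hinj : Function.Injective ((algebraMap k₀[X] k).comp C) :=
    (IsFractionRing.injective k₀[X] k).comp C_injective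
  have hn : 0 < f₀.natDegree := by
    rcases Nat.eq_zero_or_pos f₀.natDegree with h0 | h0
    · rw [h0, Nat.coprime_zero_right] at hco
      exact absurd hco hp.one_lt.ne'
    · exact h0
  have hq : ((p ^ (s + 1) : ℕ) : k₀) ≠ 0 := by
    rw [Nat.cast_pow]
    exact pow_ne_zero _ hpk
  refine with_k₁ (k := k) (k' := k') hq ?_
  intro k₂ k₁ _ _ _ _ _ _ _ _ ζ hζ hkk
  refine with_K₁ (k₁ := k₁) hT ?_
  intro K₁ _ _ _ _ _ hT₁ hKK
  have hinj₁ : Function.Injective ((algebraMap k₂[X] k₁).comp C) :=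
    (IsFractionRing.injective k₂[X] k₁).comp C_injective
  have hζ₁ : IsPrimitiveRoot (((algebraMap k₂[X] k₁).comp C) ζ) (p ^ (s + 1)) :=
    hζ.map_of_injective hinj₁
  have hpk₁ : (p : k₁) ≠ 0 := Pool.Agent.Y160.FT.p_ne hp rfl hζ₁
  have hf1 : (f₀.map ((algebraMap k₀[X] k).comp C)).map (algebraMap k k₁) =
      (f₀.map (algebraMap k₀ k₂)).map ((algebraMap k₂[X] k₁).comp C) := by
    rw [Polynomial.map_map, Polynomial.map_map]
    congr 1
    apply RingHom.ext
    intro x
    show algebraMap k k₁ (algebraMap k₀[X] k (C x)) = algebraMap k₂[X] k₁ (C (algebraMap k₀ k₂ x))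
    rw [hkk, map_C]
  have hov : overK k₁ ((f₀.map ((algebraMap k₀[X] k).comp C)).map C - C X) =
      ((f₀.map (algebraMap k₀ k₂)).map ((algebraMap k₂[X] k₁).comp C)).map C - C X := by
    rw [over_graph, hf1]
  have hB : IsBranchCurve p (overK k₁ ((f₀.map ((algebraMap k₀[X] k).comp C)).map C - C X)) := by
    rw [hov]
    exact graph_branch hp hpk₁ ((hm.map _).map _) (by rwa [natDegree_map, natDegree_map]) (by
      rw [derivative_map, Polynomial.map_ne_zero_iff hinj₁, derivative_map,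
        Polynomial.map_ne_zero_iff (algebraMap k₀ k₂).injective]
      exact hder)
  have key := lowComp (k := k) (k₁ := k₁) (K := K) hT₁ hp hζ₁ hKK hB
    (e := fun i => algebraMap k₀[X] k (C (e i))) (c := fun i => algebraMap k₀[X] k (c i)) (n := n)
    (fun i => (_root_.map_ne_zero ((algebraMap k₀[X] k).comp C)).2 (he i)) (fun i _ => ?_) hz
  · have hδ' : (C δ : k[X]) ≠ 0 := C_ne_zero.2 hδ
    exact key (C δ) hδ' (inert_const hδ)
  · obtain ⟨g, hg1, hg2⟩ := pcomp_deg (k := k) hp.one_lt he hd0 hc i (c i) (hc i).ge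
    rw [hc i] at hg1
    have hgd : (g.map (algebraMap k₀ k₂)).natDegree = p ^ i * d := by rw [natDegree_map, hg1]
    have h1 := irr_diff (k := k₁) (hm.map (algebraMap k₀ k₂)) (by rwa [natDegree_map])
      (g := g.map (algebraMap k₀ k₂)) (by
        rw [hgd]
        exact Nat.mul_pos (pow_pos hp.pos i) hd0) (by
        rw [hgd, natDegree_map]
        exact (Nat.Coprime.mul_left (hco.pow_left i) hdc).symm)
    have h2 : (((f₀.map (algebraMap k₀ k₂)).map ((algebraMap k₂[X] k₁).comp C)).map C - C X).map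
        (evalRingHom (algebraMap k₂[X] k₁ (g.map (algebraMap k₀ k₂)))) =
        (f₀.map (algebraMap k₀ k₂)).map ((algebraMap k₂[X] k₁).comp C) -
          C (algebraMap k₂[X] k₁ (g.map (algebraMap k₀ k₂))) := by
      have h3 : (evalRingHom (algebraMap k₂[X] k₁ (g.map (algebraMap k₀ k₂)))).comp
          (C : k₁ →+* k₁[X]) = RingHom.id k₁ := by
        ext x
        simp
      rw [Polynomial.map_sub, Polynomial.map_map, h3, Polynomial.map_id, map_C, coe_evalRingHom,
        eval_X]
    rw [hov]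
    show Irreducible ((((f₀.map (algebraMap k₀ k₂)).map ((algebraMap k₂[X] k₁).comp C)).map C -
      C X).map (evalRingHom (algebraMap k k₁ ((pcomp p (fun i => algebraMap k₀[X] k (C (e i)))
        (fun i => algebraMap k₀[X] k (c i)) i).eval (algebraMap k₀[X] k (c i))))))
    rw [hg2, hkk, h2]
    exact h1

end Pool.Agent.K6.H71.PS
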