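import Pool.Agent.K6.H71.PS.Low3

/-!
# The theorems over fields without roots of unity
-/

set_option autoImplicit false
set_option linter.all false

open Polynomial IsDedekindDomain
open scoped Classical

namespace Pool.Agent.K6.H71.PS

open Pool.Agent.TH115.GD
open Pool.Agent.K6.H71.PT (IsBranchCurve IsInertProduct twist pcomp cstk IsRootOf UnramifiedOutside
  HoldsFor AllCovers AllCompositions AllRootTowers IsRootTower overK IsInertOver HoldsOver NoClasses
  CoversOver RootTowersOver CompositionsOver up)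

section all

variable {k k₁ k' K F : Type} [Field k] [Field k₁] [Field k'] [Algebra k k₁] [Algebra k k']
  [Algebra k₁ k'] [IsScalarTower k k₁ k'] [Field K] [Algebra k[X] K]
  [Field F] [Algebra k'[X] F] [IsFractionRing k'[X] F] [Algebra K F] {p s : ℕ}

/-- (1), (2), (3) for the primes which are inert over `k₁`. -/
theorem allOver (hT : IsTower k k' K F) (hp : p.Prime) {ζ : k₁}
    (hζ : IsPrimitiveRoot ζ (p ^ (s + 1))) {f : k[X][X]} (hf : IsBranchCurve p (overK k₁ f)) :
    CoversOver k' K F k₁ p (p ^ (s + 1)) f ∧ RootTowersOver k' K F k₁ p (p ^ (s + 1)) f ∧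
      CompositionsOver k' K F k₁ p (p ^ (s + 1)) f := by
  refine with_K₁ (k₁ := k₁) hT ?_
  intro K₁ _ _ _ _ _ hT₁ hKK
  refine ⟨fun N m E hG hF hN hE hEi hu L hL => ?_, fun L E hL hE hEi hu => ?_,
    fun e c n he hi z hz => ?_⟩
  · haveI := hG
    haveI := hF
    exact lowCovers hT hT₁ hp hζ hKK hf hN hE hEi hu hL
  · exact lowRoots hT₁ hp hζ hKK hf hL hE hEi hu
  · exact lowComp hT₁ hp hζ hKK hf he hi hz

/-- The superelliptic base curves. -/
theorem superOver (hT : IsTower k k' K F) (hp : p.Prime) {ζ : k₁}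
    (hζ : IsPrimitiveRoot ζ (p ^ (s + 1))) {f : k[X][X]} (hf : IsBranchCurve p (overK k₁ f))
    {P : k[X]} (hP : P ≠ 0) (hPi : IsInertOver k₁ f P) {δ : Sep F}
    (hδ : δ ^ p = algebraMap K (Sep F) (algebraMap k[X] K P)) :
    HoldsOver k' K F k₁ p (p ^ (s + 1)) f (IntermediateField.adjoin K {δ}) := by
  refine with_K₁ (k₁ := k₁) hT ?_
  intro K₁ _ _ _ _ _ hT₁ hKK
  have hP1 : P.map (algebraMap k k₁) ≠ 0 :=
    (Polynomial.map_ne_zero_iff (algebraMap k k₁).injective).2 hP
  refine holds_low hKK (monic_of_overK hf.monic) (L₁ := IntermediateField.adjoin K₁ {δ}) ?_ ?_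
    (allSuper hT₁ hp hζ hf hP1 hPi (by
      rw [hδ, IsScalarTower.algebraMap_apply K K₁ (Sep F), hKK]))
  · intro x hx
    refine IntermediateField.adjoin_induction K
      (p := fun x _ => x ∈ IntermediateField.adjoin K₁ {δ}) ?_ ?_ ?_ ?_ ?_ hx
    · intro y hy
      exact IntermediateField.subset_adjoin K₁ _ hy
    · intro y
      rw [IsScalarTower.algebraMap_apply K K₁ (Sep F)]
      exact IntermediateField.algebraMap_mem _ _
    · rintro a b - - ha hb
      exact add_mem ha hb
    · rintro a - ha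
      exact inv_mem ha
    · rintro a b - - ha hb
      exact mul_mem ha hb
  · rw [IntermediateField.adjoin_le_iff, Set.singleton_subset_iff]
    exact IntermediateField.subset_adjoin K₁ _ (IntermediateField.mem_adjoin_simple_self K δ)

end all

theorem overK_self {k : Type} [Field k] (f : k[X][X]) : overK k f = f := by
  show f.map (mapRingHom (algebraMap k k)) = f
  have : mapRingHom (algebraMap k k) = RingHom.id k[X] := by
    rw [Algebra.algebraMap_self]
    exact mapRingHom_id
  rw [this, Polynomial.map_id]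

theorem inertOver_self {k : Type} [Field k] (f : k[X][X]) (D : k[X]) :
    IsInertOver k f D ↔ IsInertProduct f D := by
  show IsInertProduct (overK k f) (D.map (algebraMap k k)) ↔ _
  rw [overK_self, Algebra.algebraMap_self, Polynomial.map_id]

section graph

variable {k k' K F : Type} [Field k] [Field k'] [Algebra k k'] [Field K] [Algebra k[X] K]
  [Field F] [Algebra k'[X] F] [IsFractionRing k'[X] F] [Algebra K F] {p : ℕ}

/-- A field with the `q`-th roots of unity over which the inert primes remain inert. -/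
theorem exists_k₁ (hT : IsTower k k' K F) (hp : p.Prime) (s : ℕ) (hpk : (p : k) ≠ 0) {f : k[X][X]}
    (hm : f.Monic) (hco : p.Coprime f.natDegree)
    (h : (∃ ζ : k, IsPrimitiveRoot ζ (p ^ (s + 1))) ∨ (p - 1).Coprime f.natDegree) {Goal : Prop}
    (cont : ∀ (k₁ : Type) [Field k₁] [Algebra k k₁] [Algebra k₁ k'] [IsScalarTower k k₁ k'] (ζ : k₁),
      IsPrimitiveRoot ζ (p ^ (s + 1)) → (p : k₁) ≠ 0 →
      (∀ D : k[X], D ≠ 0 → IsInertProduct f D → IsInertOver k₁ f D) →
      (∀ β : k, Irreducible (f.map (evalRingHom β)) →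
        Irreducible ((overK k₁ f).map (evalRingHom (algebraMap k k₁ β)))) → Goal) : Goal := by
  haveI := hT.sep
  haveI : IsSepClosed k' := IsSepClosure.sep_closed k
  rcases h with ⟨ζ, hζ⟩ | hco1
  · refine cont k ζ hζ hpk (fun D _ hD => (inertOver_self f D).2 hD) (fun β hβ => ?_)
    rw [overK_self]
    exact hβ
  · have hq : ((p ^ (s + 1) : ℕ) : k) ≠ 0 := by
      rw [Nat.cast_pow]
      exact pow_ne_zero _ hpk
    haveI : NeZero ((p ^ (s + 1) : ℕ) : k') := ⟨by
      intro h
      apply hq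
      apply (algebraMap k k').injective
      rw [map_natCast, h, map_zero]⟩
    obtain ⟨ζ, hζ⟩ := HasEnoughRootsOfUnity.exists_primitiveRoot k' (p ^ (s + 1))
    have hint : IsIntegral k ζ := (hζ.isIntegral (pow_pos hp.pos _)).tower_top
    let k₁ : IntermediateField k k' := IntermediateField.adjoin k {ζ}
    let ζ₁ : k₁ := ⟨ζ, IntermediateField.mem_adjoin_simple_self k ζ⟩
    have hζ₁ : IsPrimitiveRoot ζ₁ (p ^ (s + 1)) :=
      IsPrimitiveRoot.of_map_of_injective (f := algebraMap k₁ k') hζ (algebraMap k₁ k').injective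
    have htop : IntermediateField.adjoin k {ζ₁} = ⊤ := by
      rw [eq_top_iff]
      rintro ⟨x, hx⟩ -
      refine IntermediateField.adjoin_induction k
        (p := fun x hx => (⟨x, hx⟩ : k₁) ∈ IntermediateField.adjoin k {ζ₁}) ?_ ?_ ?_ ?_ ?_ hx
      · intro y hy
        have : (⟨y, IntermediateField.subset_adjoin k _ hy⟩ : k₁) = ζ₁ := Subtype.ext hy
        rw [this]
        exact IntermediateField.mem_adjoin_simple_self k ζ₁
      · intro y
        exact (IntermediateField.adjoin k {ζ₁}).algebraMap_mem y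
      · intro a b ha hb h1 h2
        exact add_mem h1 h2
      · intro a ha h1
        exact inv_mem h1
      · intro a b ha hb h1 h2
        exact mul_mem h1 h2
    have hpk₁ : (p : k₁) ≠ 0 := by
      intro h0
      apply hpk
      apply (algebraMap k k₁).injective
      rw [map_natCast, h0, map_zero]
    have hcoφ : f.natDegree.Coprime (p ^ (s + 1)).totient := by
      rw [Nat.totient_prime_pow_succ hp]
      exact (Nat.Coprime.mul_left (hco.pow_left s) hco1).symm
    exact cont k₁ ζ₁ hζ₁ hpk₁ (fun D hD hDi => inert_over hq hζ₁ htop hm hcoφ hD hDi)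
      (fun β hβ => inert_over_at hq hζ₁ htop hm hcoφ hβ)

variable {s : ℕ} {f₀ : k[X]}

theorem graph_facts (hp : p.Prime) (hm : f₀.Monic) (hco : p.Coprime f₀.natDegree) :
    (f₀.map C - C X : k[X][X]).Monic ∧ (f₀.map C - C X : k[X][X]).natDegree = f₀.natDegree := by
  have hn : 0 < f₀.natDegree := by
    rcases Nat.eq_zero_or_pos f₀.natDegree with h0 | h0
    · rw [h0, Nat.coprime_zero_right] at hco
      exact absurd hco hp.one_lt.ne'
    · exact h0
  exact ⟨Pool.Agent.X261.TS.monic_graph hm hn, Pool.Agent.X261.TS.natDegree_graph f₀⟩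

/-- (1), (2), (3) for the curves `f₀(x) = t` over any field. -/
theorem graphOver (hT : IsTower k k' K F) (hp : p.Prime) (s : ℕ) (hpk : (p : k) ≠ 0)
    (hm : f₀.Monic) (hco : p.Coprime f₀.natDegree) (hder : derivative f₀ ≠ 0)
    (h : (∃ ζ : k, IsPrimitiveRoot ζ (p ^ (s + 1))) ∨ (p - 1).Coprime f₀.natDegree) :
    CoversOver k' K F k p (p ^ (s + 1)) (f₀.map C - C X) ∧
      RootTowersOver k' K F k p (p ^ (s + 1)) (f₀.map C - C X) ∧
      CompositionsOver k' K F k p (p ^ (s + 1)) (f₀.map C - C X) := by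
  obtain ⟨g1, g2⟩ := graph_facts hp hm hco
  refine exists_k₁ hT hp s hpk g1 (by rwa [g2]) (by rwa [g2]) ?_
  intro k₁ _ _ _ _ ζ hζ hpk₁ hI hβ
  have hB : IsBranchCurve p (overK k₁ (f₀.map C - C X)) := by
    rw [over_graph]
    exact graph_branch hp hpk₁ (hm.map _) (by rwa [natDegree_map]) (by
      rw [derivative_map, Polynomial.map_ne_zero_iff (algebraMap k k₁).injective]
      exact hder)
  obtain ⟨h1, h2, h3⟩ := allOver hT hp hζ hB
  refine ⟨fun N m E hG hF hN hE hEi hu L hL D hD hDi => ?_, fun L E hL hE hEi hu D hD hDi => ?_,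
    fun e c n he hi z hz D hD hDi => ?_⟩
  · exact h1 N m E hG hF hN hE (hI E hE ((inertOver_self _ _).1 hEi)) hu L hL D hD
      (hI D hD ((inertOver_self _ _).1 hDi))
  · exact h2 L E hL hE (hI E hE ((inertOver_self _ _).1 hEi)) hu D hD
      (hI D hD ((inertOver_self _ _).1 hDi))
  · refine h3 e c n he (fun i hi' => hβ _ ?_) z hz D hD (hI D hD ((inertOver_self _ _).1 hDi))
    have h4 := hi i hi'
    rwa [overK_self] at h4

theorem graphSuper (hT : IsTower k k' K F) (hp : p.Prime) (s : ℕ) (hpk : (p : k) ≠ 0)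
    (hm : f₀.Monic) (hco : p.Coprime f₀.natDegree) (hder : derivative f₀ ≠ 0)
    (h : (∃ ζ : k, IsPrimitiveRoot ζ (p ^ (s + 1))) ∨ (p - 1).Coprime f₀.natDegree) {P : k[X]}
    (hP : P ≠ 0) (hPi : IsInertOver k (f₀.map C - C X) P) {δ : Sep F}
    (hδ : δ ^ p = algebraMap K (Sep F) (algebraMap k[X] K P)) :
    HoldsOver k' K F k p (p ^ (s + 1)) (f₀.map C - C X) (IntermediateField.adjoin K {δ}) := by
  obtain ⟨g1, g2⟩ := graph_facts hp hm hco
  refine exists_k₁ hT hp s hpk g1 (by rwa [g2]) (by rwa [g2]) ?_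
  intro k₁ _ _ _ _ ζ hζ hpk₁ hI hβ
  have hB : IsBranchCurve p (overK k₁ (f₀.map C - C X)) := by
    rw [over_graph]
    exact graph_branch hp hpk₁ (hm.map _) (by rwa [natDegree_map]) (by
      rw [derivative_map, Polynomial.map_ne_zero_iff (algebraMap k k₁).injective]
      exact hder)
  intro D hD hDi
  exact superOver hT hp hζ hB hP (hI P hP ((inertOver_self _ _).1 hPi)) hδ D hD
    (hI D hD ((inertOver_self _ _).1 hDi))

/-- Compositions with good reduction. -/
theorem redOver {A κ : Type} [CommRing A] [IsDomain A] [IsIntegrallyClosed A] [Algebra A k]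
    [IsFractionRing A k] [Field κ] (hT : IsTower k k' K F) (hp : p.Prime) (s : ℕ)
    (hpk : (p : k) ≠ 0) (φ : A →+* κ) {γ : κ} {f₀ : A[X]} (hm : f₀.Monic)
    (hco : p.Coprime f₀.natDegree) (hder : derivative f₀ ≠ 0)
    (h : (∃ ζ : k, IsPrimitiveRoot ζ (p ^ (s + 1))) ∨ (p - 1).Coprime f₀.natDegree)
    (hi : Irreducible (f₀.map φ - C γ)) {e c : ℕ → A} (he0 : ∀ i, e i ≠ 0) (he : ∀ i, φ (e i) = 0)
    (hc : ∀ i, φ (c i) = γ) (n : ℕ) {z : Sep F}
    (hz : IsRootOf (K := K) (pcomp p (fun i => algebraMap A k (e i))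
      (fun i => algebraMap A k (c i)) n) z) :
    HoldsOver k' K F k p (p ^ (s + 1)) ((f₀.map (algebraMap A k)).map C - C X)
      (IntermediateField.adjoin K {z}) := by
  have hinj := IsFractionRing.injective A k
  have hdeg : (f₀.map (algebraMap A k)).natDegree = f₀.natDegree :=
    natDegree_map_eq_of_injective hinj _
  refine (graphOver hT hp s hpk (hm.map _) (by rwa [hdeg]) (by
    rw [derivative_map, Polynomial.map_ne_zero_iff hinj]
    exact hder) (by rwa [hdeg])).2.2 _ _ n (fun i => ?_) (fun i _ => ?_) z hz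
  · rw [Ne, map_eq_zero_iff _ hinj]
    exact he0 i
  · obtain ⟨r, hr1, hr2⟩ := pcomp_red (k := k) hp.ne_zero φ he hc i (c i) (hc i)
    have h1 := irr_red (k := k) φ hm hi hr1
    have h2 : ((f₀.map (algebraMap A k)).map C - C X).map
        (evalRingHom (algebraMap A k r)) = f₀.map (algebraMap A k) - C (algebraMap A k r) := by
      have h3 : (evalRingHom (algebraMap A k r)).comp (C : k →+* k[X]) = RingHom.id k := by
        ext x
        simp
      rw [Polynomial.map_sub, Polynomial.map_map, h3, Polynomial.map_id, map_C, coe_evalRingHom,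
        eval_X]
    rw [overK_self, Algebra.algebraMap_self, RingHom.id_apply, hr2, h2]
    exact h1

end graph

end Pool.Agent.K6.H71.PS
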