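import Pool.Agent.Y160.SQ.TDefs

/-!
# The statement of the Tate conjecture at `p` for the curves `w ^ ℓ = f(x)` over coverings of the line

`ℓ` is a power of the prime `p`, `K = k(t)`, `F = k'(t)` with `k'` a separable closure of `k`, `Sep F` a
separable closure of `F`. A finite extension `L` of `K` in `Sep F` is the function field of a curve over
(a finite extension of) `k`, and `F L` is the function field of this curve over `k'`. The group
`J(Ω) = Jac ℓ f Ω` of the points of the Jacobian `J` of `w ^ ℓ = f(x)` over a field `Ω` is the Picard group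
of the affine curve (there is one point at infinity, which is rational), see `Pool.Agent.Y160.SQ.TDefs`.
-/

set_option autoImplicit false
set_option linter.all false

open Polynomial IsDedekindDomain
open scoped Classical

namespace Pool.Agent.K6.H71.PS

open Pool.Agent.TH115.GD (incl rs ak Sep Comp CompInf)
open Pool.Agent.Y160.SQ (Jac jm IsTM)

section defs

variable {K F : Type} [Field K] [Field F] [Algebra K F]

/-- `σ` is in the Galois group of `Sep F` over the composite `F L` of `F` and `L`. -/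
def Over (L : IntermediateField K (Sep F)) (σ : Sep F ≃ₐ[F] Sep F) : Prop := ∀ x ∈ L, σ x = x

variable (p ℓ : ℕ) (f : K[X]) (L : IntermediateField K (Sep F))

/-- Continuous 1-cocycles of `Gal(Sep F / F L)` with values in `J(Sep F)`: only the values of `c` on
this subgroup of `Gal(Sep F / F)` matter. -/
structure IsCocL (c : (Sep F ≃ₐ[F] Sep F) → Jac ℓ f (Sep F)) : Prop where
  lc : ∀ σ, Over L σ → ∃ O : Set (Sep F ≃ₐ[F] Sep F), IsOpen O ∧ σ ∈ O ∧
    ∀ τ ∈ O, Over L τ → c τ = c σ
  mul : ∀ σ τ, Over L σ → Over L τ → c (σ * τ) = c σ + jm ℓ f (rs K σ) (c τ)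

/-- `c` is a continuous 1-cocycle of `Gal(Sep F / F L)` with values in the Tate module `T_p J`: `c n` is
a cocycle with values in the points of order `p ^ n`, and `p c (n + 1) = c n`. -/
structure IsTCL (c : ℕ → (Sep F ≃ₐ[F] Sep F) → Jac ℓ f (Sep F)) : Prop where
  coc : ∀ n, IsCocL ℓ f L (c n)
  zero : ∀ σ, Over L σ → c 0 σ = 0
  step : ∀ n σ, Over L σ → p • c (n + 1) σ = c n σ

/-- The class of `c` in `H ^ 1 (F L, V_p J)` is fixed by the Galois group of `L`: for each automorphism
`τ` of `Sep F` over `L` there is an `m` such that `p ^ m (τ c - c)` is the coboundary of an element `Q` of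
the Tate module. Here `(τ c) (σ) = τ (c (σ'))` with `σ' = τ⁻¹ σ τ`. -/
def IsInvL (c : ℕ → (Sep F ≃ₐ[F] Sep F) → Jac ℓ f (Sep F)) : Prop :=
  ∀ τ : Sep F ≃ₐ[K] Sep F, (∀ x ∈ L, τ x = x) →
    ∃ (m : ℕ) (Q : ℕ → Jac ℓ f (Sep F)), IsTM p ℓ f Q ∧
    ∀ (n : ℕ) (σ σ' : Sep F ≃ₐ[F] Sep F), Over L σ → Over L σ' → (∀ x, τ (σ' x) = σ (τ x)) →
      p ^ m • (jm ℓ f (ak τ) (c n σ') - c n σ) = jm ℓ f (rs K σ) (Q n) - Q n

/-- `E` is a completion of `F` and `Ω'` a separable closure of `E`. The fields `E ι(L)`, for the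
embeddings `ι` of `Sep F` in `Ω'` over `F`, are the completions of `F L` at the places above the given
place of `F`. For each `ι` the restriction of `c` to the Galois group of `Ω'` over `E ι(L)`, with values
in `J(Ω')`, is a coboundary: there is an element `P` of `J(Ω')` with `c(τ|Sep F) = τ P - P` for all `τ` in
`Gal(Ω' / E)` which are trivial on `ι(L)`. -/
def LocTrivL (E Ω' : Type) [Field E] [Field Ω'] [Algebra K E]
    [Algebra E Ω'] [Algebra K Ω'] [Algebra F Ω'] [IsScalarTower K E Ω'] [IsScalarTower K F Ω']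
    (c : (Sep F ≃ₐ[F] Sep F) → Jac ℓ f (Sep F)) : Prop :=
  ∀ ι : Sep F →ₐ[F] Ω', ∃ P : Jac ℓ f Ω', ∀ (τ : Ω' ≃ₐ[E] Ω') (σ : Sep F ≃ₐ[F] Sep F), Over L σ →
    (∀ x, τ (ι x) = ι (σ x)) → jm ℓ f (ι.restrictScalars K) (c σ) = jm ℓ f (rs K τ) P - P

/-- `c` is locally trivial at all the places of `F L`: those above the maximal ideals of `k'[t]` and
above `t = ∞`. -/
def LocallyTrivialL (k' : Type) [Field k'] [Algebra k'[X] F] [IsFractionRing k'[X] F]
    (c : (Sep F ≃ₐ[F] Sep F) → Jac ℓ f (Sep F)) : Prop :=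
  (∀ v : HeightOneSpectrum k'[X], LocTrivL ℓ f L (Comp k'[X] F v) (Sep (Comp k'[X] F v)) c) ∧
  LocTrivL ℓ f L (CompInf k' F) (Sep (CompInf k' F)) c

/-- The Tate conjecture at the prime `p` for the surface with generic fibre `w ^ ℓ = f(x)` over the
function field `L` of a curve: the classes in `V_p Sel(J / F L)` which are fixed by the Galois group of
`L` come from `J(L)`. If `c` is a cocycle of `Gal(Sep F / F L)` with values in `T_p J` which is everywhere
locally trivial, and the class of `c` in `H ^ 1 (F L, V_p J)` is fixed by the Galois group of `L`, then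
for every `n` there are elements `P` of `J(L)` and `R` with `p ^ n R = P` and `c n σ = σ R - R` for all
`σ` in `Gal(Sep F / F L)`. -/
def TateOver (k' : Type) [Field k'] [Algebra k'[X] F] [IsFractionRing k'[X] F] : Prop :=
  ∀ c : ℕ → (Sep F ≃ₐ[F] Sep F) → Jac ℓ f (Sep F), IsTCL p ℓ f L c →
    (∀ n, LocallyTrivialL ℓ f L k' (c n)) → IsInvL p ℓ f L c →
    ∀ n, ∃ (P : Jac ℓ f L) (R : Jac ℓ f (Sep F)), p ^ n • R = jm ℓ f L.val P ∧
      ∀ σ, Over L σ → c n σ = jm ℓ f (rs K σ) R - R

/-- All the elements of `J(L)` are divisible by `p` in `J(L)`. -/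
def Divisible {K : Type} [Field K] (p ℓ : ℕ) (f : K[X]) (M : Type) [Field M] [Algebra K M] : Prop :=
  ∀ x : Jac ℓ f M, ∃ y : Jac ℓ f M, p • y = x

end defs

end Pool.Agent.K6.H71.PS
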